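import Pool.Agent.Work.MP_7da6af_nt.Crv.Root

/-! # Bounded height on the curve: one real relation -/

set_option autoImplicit false

namespace Pool.Agent.Work.MP_7da6af_nt.Crv

open NumberField Polynomial

variable {k : Type} [Field k] [NumberField k]

/-- simultaneous approximation -/
theorem dirichlet (N : ℕ) (hN : 0 < N) (κ : Fin 3 → ℝ) : ∃ q : ℕ, 1 ≤ q ∧ q ≤ N ^ 3 ∧
    ∃ m : Fin 3 → ℤ, ∀ j, |(q : ℝ) * κ j - m j| ≤ 1 / N := by
  have hN' : (0 : ℝ) < N := by exact_mod_cast hN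
  have hlt : ∀ x : ℝ, ⌊(N : ℝ) * Int.fract x⌋₊ < N := by
    intro x
    rw [Nat.floor_lt (mul_nonneg hN'.le (Int.fract_nonneg x))]
    have := Int.fract_lt_one x
    nlinarith
  let f : Fin (N ^ 3 + 1) → (Fin 3 → Fin N) := fun q j =>
    ⟨⌊(N : ℝ) * Int.fract ((q : ℕ) * κ j)⌋₊, hlt _⟩
  have hcard : Fintype.card (Fin 3 → Fin N) < Fintype.card (Fin (N ^ 3 + 1)) := by
    simp
  obtain ⟨a, b, hab, hf⟩ := Fintype.exists_ne_map_eq_of_card_lt f hcard
  have main : ∀ a b : Fin (N ^ 3 + 1), a < b → f a = f b → ∃ q : ℕ, 1 ≤ q ∧ q ≤ N ^ 3 ∧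
      ∃ m : Fin 3 → ℤ, ∀ j, |(q : ℝ) * κ j - m j| ≤ 1 / N := by
    intro a b hab hf
    have hab' : (a : ℕ) < b := hab
    refine ⟨(b : ℕ) - a, by omega, by have := b.2; omega,
      fun j => ⌊((b : ℕ) : ℝ) * κ j⌋ - ⌊((a : ℕ) : ℝ) * κ j⌋, fun j => ?_⟩
    have h1 : ⌊(N : ℝ) * Int.fract ((a : ℕ) * κ j)⌋₊ = ⌊(N : ℝ) * Int.fract ((b : ℕ) * κ j)⌋₊ := by
      have := congrFun hf j
      exact congrArg Fin.val this
    have h2 : (((b : ℕ) - a : ℕ) : ℝ) * κ j -
        ((⌊((b : ℕ) : ℝ) * κ j⌋ - ⌊((a : ℕ) : ℝ) * κ j⌋ : ℤ) : ℝ) =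
        Int.fract (((b : ℕ) : ℝ) * κ j) - Int.fract (((a : ℕ) : ℝ) * κ j) := by
      rw [Nat.cast_sub hab'.le, Int.fract, Int.fract]
      push_cast
      ring
    rw [h2]
    have ha0 := mul_nonneg hN'.le (Int.fract_nonneg (((a : ℕ) : ℝ) * κ j))
    have hb0 := mul_nonneg hN'.le (Int.fract_nonneg (((b : ℕ) : ℝ) * κ j))
    have ha1 := Nat.floor_le ha0
    have hb1 := Nat.floor_le hb0
    have ha2 := Nat.lt_floor_add_one ((N : ℝ) * Int.fract (((a : ℕ) : ℝ) * κ j))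
    have hb2 := Nat.lt_floor_add_one ((N : ℝ) * Int.fract (((b : ℕ) : ℝ) * κ j))
    rw [h1] at ha1 ha2
    rw [abs_le, le_div_iff₀ hN', ← neg_div, div_le_iff₀ hN']
    constructor <;> nlinarith
  rcases lt_or_gt_of_ne hab with h | h
  · exact main a b h hf
  · exact main b a h hf.symm

theorem hh_mon_le {K : Type} [Field K] [NumberField K] {t : Fin 3 → K} (ht : ∀ l, t l ≠ 0)
    {κ : Fin 3 → ℝ} (hκ : ∀ p : Pl K, ∑ j, κ j * lg p (t j) = 0) {N : ℕ} {q : ℕ}
    {m : Fin 3 → ℤ} (hm : ∀ j, |(q : ℝ) * κ j - m j| ≤ 1 / N) :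
    hh (mon t m) ≤ 1 / N * ∑ j, hh (t j) := by
  have h1 : ∀ p : Pl K, |lg p (mon t m)| ≤ 1 / N * ∑ j, |lg p (t j)| := by
    intro p
    have h2 : lg p (mon t m) = ∑ j, ((m j : ℝ) - q * κ j) * lg p (t j) := by
      rw [lg_mon ht]
      have h3 : ∑ j, ((m j : ℝ) - q * κ j) * lg p (t j) =
          ∑ j, (m j : ℝ) * lg p (t j) - q * ∑ j, κ j * lg p (t j) := by
        rw [Finset.mul_sum, ← Finset.sum_sub_distrib]
        refine Finset.sum_congr rfl fun j _ => ?_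
        ring
      rw [h3, hκ p, mul_zero, sub_zero]
    rw [h2, Finset.mul_sum]
    refine (Finset.abs_sum_le_sum_abs _ _).trans (Finset.sum_le_sum fun j _ => ?_)
    rw [abs_mul]
    refine mul_le_mul_of_nonneg_right ?_ (abs_nonneg _)
    rw [abs_sub_comm]
    exact hm j
  have hmon : mon t m ≠ 0 := mon_ne_zero ht m
  have h4 : plSum K (fun p => |lg p (mon t m)|) ≤
      plSum K (fun p => 1 / N * ∑ j, |lg p (t j)|) := by
    refine plSum_mono ?_ ?_ h1
    · exact (fs_lg hmon).of_imp fun p hp => by rw [hp, abs_zero]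
    · refine Set.Finite.subset (Set.finite_iUnion fun j => fs_lg (K := K) (ht j)) ?_
      intro p hp
      by_contra hc
      apply hp
      simp only [Set.mem_iUnion, not_exists, Function.mem_support, not_not] at hc
      simp [hc]
  rw [plSum_abs hmon, plSum_smul, plSum_sum _ fun j _ => fs_abs (ht j)] at h4
  have h5 : ∑ j : Fin 3, plSum K (fun p => |lg p (t j)|) = 2 * ∑ j, hh (t j) := by
    rw [Finset.mul_sum]
    exact Finset.sum_congr rfl fun j _ => plSum_abs (ht j)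
  rw [h5] at h4
  linarith

theorem c2_of_rels (I : Ideal (P3 k)) (h : Rels I) : C2 I := by
  classical
  obtain ⟨b, hb⟩ := h
  set N : ℕ := 6 * b + 2 with hN
  have hN0 : 0 < N := by omega
  -- the constants
  have hC : ∀ (m : Fin 3 → ℤ) (l : Fin 3), ∃ C : ℝ, 0 ≤ C ∧ (m ≠ 0 →
      ∀ (K : Type) [Field K] [NumberField K] (φ : k →+* K) (t : Fin 3 → K), On I φ t →
        hh (t l) ≤ b * hh (mon t m) + C * dg K) := by
    intro m l
    by_cases hm : m = 0
    · exact ⟨0, le_rfl, fun h => absurd hm h⟩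
    · obtain ⟨d, a, ha, hc, hrel⟩ := hb m hm l
      obtain ⟨C, hC0, hC⟩ := root_height d b a ha hc
      refine ⟨C, hC0, fun _ K _ _ φ t ht => ?_⟩
      exact hC K φ (t l) (mon t m) (ht.1 l) (mon_ne_zero ht.1 m) (hrel K φ t ht)
  choose C hC0 hC using hC
  set S : Finset (Fin 3 → ℤ) := Fintype.piFinset fun _ => Finset.Icc (-(N ^ 3 + 1 : ℤ)) (N ^ 3 + 1)
    with hS
  set D : ℝ := ∑ m ∈ S, ∑ l, C m l with hD
  have hD0 : 0 ≤ D := Finset.sum_nonneg fun m _ => Finset.sum_nonneg fun l _ => hC0 m l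
  refine ⟨6 * D, by positivity, fun K _ _ φ t ht κ hκ0 hκ => ?_⟩
  -- normalise
  obtain ⟨j₀, -, hj₀⟩ := Finset.exists_max_image (Finset.univ : Finset (Fin 3)) (fun j => |κ j|)
    ⟨0, Finset.mem_univ _⟩
  have hpos : 0 < |κ j₀| := by
    rcases (abs_nonneg (κ j₀)).lt_or_eq with h | h
    · exact h
    · exfalso
      apply hκ0
      funext j
      have h1 := hj₀ j (Finset.mem_univ j)
      rw [← h] at h1
      exact abs_nonpos_iff.1 h1
  set κ' : Fin 3 → ℝ := fun j => κ j / |κ j₀| with hκ'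
  have hκ'1 : ∀ j, |κ' j| ≤ 1 := by
    intro j
    rw [hκ']
    simp only [abs_div, abs_abs]
    rw [div_le_one hpos]
    exact hj₀ j (Finset.mem_univ j)
  have hκ'2 : |κ' j₀| = 1 := by
    rw [hκ']
    simp only [abs_div, abs_abs]
    exact div_self hpos.ne'
  have hκ'3 : ∀ p : Pl K, ∑ j, κ' j * lg p (t j) = 0 := by
    intro p
    have h1 : ∑ j, κ' j * lg p (t j) = (∑ j, κ j * lg p (t j)) / |κ j₀| := by
      rw [Finset.sum_div]
      refine Finset.sum_congr rfl fun j _ => ?_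
      rw [hκ']
      ring
    rw [h1, hκ p, zero_div]
  obtain ⟨q, hq1, hqN, m, hm⟩ := dirichlet N hN0 κ'
  have hNr : (2 : ℝ) ≤ N := by exact_mod_cast (by omega : 2 ≤ N)
  have hNpos : (0 : ℝ) < N := by linarith
  have hinv : (1 : ℝ) / N ≤ 1 / 2 := one_div_le_one_div_of_le (by norm_num) hNr
  have hq1' : (1 : ℝ) ≤ q := by exact_mod_cast hq1
  have hqN' : (q : ℝ) ≤ (N : ℝ) ^ 3 := by exact_mod_cast hqN
  have hm0 : m ≠ 0 := by
    rintro rfl
    have h1 := hm j₀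
    simp only [Pi.zero_apply, Int.cast_zero, sub_zero, abs_mul, hκ'2, mul_one] at h1
    rw [abs_of_nonneg (by linarith)] at h1
    linarith
  have hmS : m ∈ S := by
    rw [hS, Fintype.mem_piFinset]
    intro j
    rw [Finset.mem_Icc, ← abs_le]
    have h1 : |(m j : ℝ)| ≤ N ^ 3 + 1 := by
      have h2 : |(m j : ℝ)| ≤ |(q : ℝ) * κ' j| + |(q : ℝ) * κ' j - m j| := by
        have h3 := abs_sub_abs_le_abs_sub (m j : ℝ) ((q : ℝ) * κ' j)
        rw [abs_sub_comm] at h3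
        linarith
      have h4 : |(q : ℝ) * κ' j| ≤ (N : ℝ) ^ 3 := by
        rw [abs_mul, abs_of_nonneg (by linarith : (0 : ℝ) ≤ q)]
        calc (q : ℝ) * |κ' j| ≤ q * 1 := mul_le_mul_of_nonneg_left (hκ'1 j) (by linarith)
          _ ≤ _ := by linarith
      have h5 := hm j
      linarith
    have h6 : ((|m j| : ℤ) : ℝ) ≤ ((N ^ 3 + 1 : ℤ) : ℝ) := by
      rw [Int.cast_abs]
      push_cast
      exact h1
    exact_mod_cast h6
  have h1 := hh_mon_le ht.1 hκ'3 hm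
  set H : ℝ := ∑ j, hh (t j) with hH
  have hH0 : 0 ≤ H := Finset.sum_nonneg fun j _ => hh_nonneg _
  have hdg : 0 < dg K := dg_pos
  have h2 : H ≤ 3 * b * (1 / N * H) + D * dg K := by
    have h3 : ∀ l, hh (t l) ≤ b * (1 / N * H) + C m l * dg K := by
      intro l
      have h4 := hC m l hm0 K φ t ht
      have h5 : (b : ℝ) * hh (mon t m) ≤ b * (1 / N * H) :=
        mul_le_mul_of_nonneg_left h1 (Nat.cast_nonneg b)
      linarith
    have h6 : H ≤ ∑ l : Fin 3, (b * (1 / N * H) + C m l * dg K) :=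
      Finset.sum_le_sum fun l _ => h3 l
    have h12 : ∑ l : Fin 3, (b * (1 / N * H) + C m l * dg K) =
        3 * b * (1 / N * H) + (∑ l, C m l) * dg K := by
      rw [Fin.sum_univ_three, Fin.sum_univ_three]
      ring
    rw [h12] at h6
    have h7 : ∑ l, C m l ≤ D :=
      Finset.single_le_sum (f := fun m => ∑ l, C m l)
        (fun m _ => Finset.sum_nonneg fun l _ => hC0 m l) hmS
    have h8 : (∑ l, C m l) * dg K ≤ D * dg K := mul_le_mul_of_nonneg_right h7 hdg.le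
    linarith
  have h9 : 3 * (b : ℝ) * (1 / N * H) ≤ H / 2 := by
    have h10 : 3 * (b : ℝ) * (1 / N) ≤ 1 / 2 := by
      rw [mul_one_div, div_le_iff₀ hNpos, hN]
      push_cast
      linarith
    calc 3 * (b : ℝ) * (1 / N * H) = 3 * (b : ℝ) * (1 / N) * H := by ring
      _ ≤ 1 / 2 * H := mul_le_mul_of_nonneg_right h10 hH0
      _ = H / 2 := by ring
  intro j
  have h11 : hh (t j) ≤ H :=
    Finset.single_le_sum (f := fun j => hh (t j)) (fun j _ => hh_nonneg _) (Finset.mem_univ j)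
  nlinarith [mul_nonneg hD0 hdg.le]

end Pool.Agent.Work.MP_7da6af_nt.Crv
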