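import Pool.Agent.Work.MP_7da6af_nt.Crv.MPoly
import Pool.Agent.Work.MP_7da6af_nt.Gen.Cluster

/-! # Integer polynomials which are small on clusters -/

set_option autoImplicit false

namespace Pool.Agent.Work.MP_7da6af_nt.Crv

open Polynomial

namespace Clu

open _root_.Pool.Agent.Work.MP_7da6af_nt.Clu

variable {k : Type} [Field k]

theorem continuous_e3 (σ : k →+* ℂ) (P : P3 k) : Continuous fun t : Fin 3 → ℂ => e3 σ t P := by
  induction P using MvPolynomial.induction_on with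
  | C a =>
    have : (fun t : Fin 3 → ℂ => e3 σ t (MvPolynomial.C a)) = fun _ => σ a := by
      funext t
      exact e3_C σ t a
    rw [this]
    exact continuous_const
  | add P Q hP hQ =>
    have : (fun t : Fin 3 → ℂ => e3 σ t (P + Q)) = fun t => e3 σ t P + e3 σ t Q := by
      funext t
      exact e3_add σ t P Q
    rw [this]
    exact hP.add hQ
  | mul_X P i hP =>
    have : (fun t : Fin 3 → ℂ => e3 σ t (P * MvPolynomial.X i)) = fun t => e3 σ t P * t i := by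
      funext t
      rw [e3_mul, e3_X]
    rw [this]
    exact hP.mul (continuous_apply i)

/-- the points with bounded logarithmic vector -/
def KS (I : Ideal (P3 k)) (σ : k →+* ℂ) (S : ℝ) : Set (Fin 3 → ℂ) :=
  (⋂ f ∈ I, {t | e3 σ t f = 0}) ∩ ⋂ l, ({t | ‖t l‖ ≤ Real.exp S} ∩ {t | Real.exp (-S) ≤ ‖t l‖})

theorem isCompact_KS (I : Ideal (P3 k)) (σ : k →+* ℂ) (S : ℝ) : IsCompact (KS I σ S) := by
  have h1 : IsClosed (KS I σ S) := by
    refine IsClosed.inter ?_ (isClosed_iInter fun l => ?_)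
    · exact isClosed_biInter fun f _ => isClosed_eq (continuous_e3 σ f) continuous_const
    · exact (isClosed_le (continuous_apply l).norm continuous_const).inter
        (isClosed_le continuous_const (continuous_apply l).norm)
  refine (isCompact_closedBall (0 : Fin 3 → ℂ) (Real.exp S)).of_isClosed_subset h1 fun t ht => ?_
  rw [mem_closedBall_zero_iff, pi_norm_le_iff_of_nonneg (Real.exp_pos S).le]
  intro l
  have := ht.2
  rw [Set.mem_iInter] at this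
  exact (this l).1

theorem mem_KS_of {I : Ideal (P3 k)} {σ : k →+* ℂ} {S : ℝ} {t : Fin 3 → ℂ}
    (ht : On I σ t) (h : ∀ l, |L3 t l| ≤ S) : t ∈ KS I σ S := by
  refine ⟨?_, Set.mem_iInter.2 fun l => ?_⟩
  · rw [Set.mem_iInter₂]
    exact fun f hf => ht.2 f hf
  · have hn : 0 < ‖t l‖ := norm_pos_iff.2 (ht.1 l)
    have h1 := h l
    unfold L3 at h1
    rw [abs_le] at h1
    exact ⟨(Real.log_le_iff_le_exp hn).1 h1.2, (Real.le_log_iff_exp_le hn).1 h1.1⟩

theorem of_mem_KS {I : Ideal (P3 k)} {σ : k →+* ℂ} {S : ℝ} {t : Fin 3 → ℂ} (ht : t ∈ KS I σ S) :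
    On I σ t ∧ ∀ l, |L3 t l| ≤ S := by
  have h1 := ht.1
  have h2 := ht.2
  rw [Set.mem_iInter₂] at h1
  rw [Set.mem_iInter] at h2
  have hpos : ∀ l, 0 < ‖t l‖ := fun l => lt_of_lt_of_le (Real.exp_pos _) (h2 l).2
  refine ⟨⟨fun l => norm_pos_iff.1 (hpos l), fun f hf => h1 f hf⟩, fun l => ?_⟩
  unfold L3
  rw [abs_le]
  exact ⟨(Real.le_log_iff_exp_le (hpos l)).2 (h2 l).2,
    (Real.log_le_iff_le_exp (hpos l)).2 (h2 l).1⟩

theorem continuousOn_L3 (I : Ideal (P3 k)) (σ : k →+* ℂ) (S : ℝ) (l : Fin 3) :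
    ContinuousOn (fun t : Fin 3 → ℂ => L3 t l) (KS I σ S) := by
  have h : ContinuousOn (fun t : Fin 3 → ℂ => ‖t l‖) (KS I σ S) :=
    (continuous_apply l).norm.continuousOn
  exact h.log fun t ht => (norm_pos_iff.2 ((of_mem_KS ht).1.1 l)).ne'

/-- the polynomial is small near the rays -/
theorem near_rays (I : Ideal (P3 k)) (σ : k →+* ℂ) (S : ℝ) (d0 : Fin 3 → Fin 3 → ℝ)
    (Q : ℤ[X]) (η : ℝ) (hη : 0 < η) (hQ : ∀ z ∈ KS I σ S, ∀ (j : Fin 3) (s : ℝ),
      L3 z = s • d0 j → ‖aeval (z 0) Q‖ ≤ η) :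
    ∃ r : ℝ, 0 < r ∧ ∀ r' : ℝ, 0 < r' → r' ≤ r → ∀ d : Fin 3 → Fin 3 → ℝ, (∀ j, ‖d j‖ = 1) →
      dist d d0 < r' →
      ∀ z ∈ KS I σ S, ∀ (j : Fin 3) (s : ℝ), 0 ≤ s →
        (∀ l, |L3 z l - s * d j l| ≤ r' / 2) → ‖aeval (z 0) Q‖ ≤ 2 * η := by
  -- the compact sets
  let DD : Set (Fin 3 → Fin 3 → ℝ) := Set.univ.pi fun _ => Metric.sphere 0 1
  have hDD : IsCompact DD := isCompact_univ_pi fun _ => isCompact_sphere _ _
  let X0 : Set (((Fin 3 → Fin 3 → ℝ) × ℝ) × ((Fin 3 → ℂ) × ℝ)) :=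
    (DD ×ˢ Set.Icc 0 1) ×ˢ (KS I σ S ×ˢ Set.Icc 0 (S + 1))
  have hX0 : IsCompact X0 :=
    (hDD.prod isCompact_Icc).prod ((isCompact_KS I σ S).prod isCompact_Icc)
  let f : Fin 3 → Fin 3 → ((Fin 3 → Fin 3 → ℝ) × ℝ) × ((Fin 3 → ℂ) × ℝ) → ℝ := fun j l x =>
    |L3 x.2.1 l - x.2.2 * x.1.1 j l| - x.1.2
  have hf : ∀ j l, ContinuousOn (f j l) X0 := by
    intro j l
    have h1 : ContinuousOn (fun x : ((Fin 3 → Fin 3 → ℝ) × ℝ) × ((Fin 3 → ℂ) × ℝ) =>
        L3 x.2.1 l) X0 := by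
      refine (continuousOn_L3 I σ S l).comp (Continuous.continuousOn (by fun_prop)) ?_
      intro x hx
      exact hx.2.1
    have h2 : ContinuousOn (fun x : ((Fin 3 → Fin 3 → ℝ) × ℝ) × ((Fin 3 → ℂ) × ℝ) =>
        x.2.2 * x.1.1 j l) X0 := Continuous.continuousOn (by fun_prop)
    have h3 : ContinuousOn (fun x : ((Fin 3 → Fin 3 → ℝ) × ℝ) × ((Fin 3 → ℂ) × ℝ) =>
        x.1.2) X0 := Continuous.continuousOn (by fun_prop)
    exact (h1.sub h2).abs.sub h3
  let Cj : Fin 3 → Set (((Fin 3 → Fin 3 → ℝ) × ℝ) × ((Fin 3 → ℂ) × ℝ)) := fun j =>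
    (⋂ l, X0 ∩ f j l ⁻¹' Set.Iic 0) ∩ {x | 2 * η ≤ ‖aeval (x.2.1 0) Q‖}
  have hCj : ∀ j, IsCompact (Cj j) := by
    intro j
    have h1 : IsClosed (Cj j) := by
      refine IsClosed.inter (isClosed_iInter fun l =>
        (hf j l).preimage_isClosed_of_isClosed hX0.isClosed isClosed_Iic) ?_
      exact isClosed_le continuous_const
        ((continuous_aeval_int Q).comp ((continuous_apply 0).comp
          (continuous_fst.comp continuous_snd))).norm
    refine hX0.of_isClosed_subset h1 fun x hx => ?_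
    have := hx.1
    rw [Set.mem_iInter] at this
    exact (this 0).1
  let U : Set ((Fin 3 → Fin 3 → ℝ) × ℝ) := (⋃ j, Prod.fst '' Cj j)ᶜ
  have hU : IsOpen U := by
    have hcl : IsClosed (⋃ j, Prod.fst '' Cj j) :=
      isClosed_iUnion_of_finite fun j => ((hCj j).image continuous_fst).isClosed
    exact hcl.isOpen_compl
  have h0 : (d0, (0 : ℝ)) ∈ U := by
    intro hmem
    rw [Set.mem_iUnion] at hmem
    obtain ⟨j, x, hx, hx0⟩ := hmem
    have h1 := hx.1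
    rw [Set.mem_iInter] at h1
    have hx1 : x.1.1 = d0 := by rw [hx0]
    have hx2 : x.1.2 = 0 := by rw [hx0]
    have hz := (h1 0).1.2.1
    have hL : L3 x.2.1 = x.2.2 • d0 j := by
      funext l
      have h2 := (h1 l).2
      rw [Set.mem_preimage, Set.mem_Iic] at h2
      simp only [f] at h2
      rw [hx1, hx2, sub_zero] at h2
      have h3 := abs_eq_zero.1 (le_antisymm h2 (abs_nonneg _))
      rw [Pi.smul_apply, smul_eq_mul]
      linarith
    have h2 := hQ _ hz j _ hL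
    have h3 : 2 * η ≤ ‖aeval (x.2.1 0) Q‖ := hx.2
    linarith
  obtain ⟨r, hr, hball⟩ := Metric.isOpen_iff.1 hU _ h0
  refine ⟨min r 1, by positivity, fun r' hr' hr'le d hd hdist z hz j s hs hl => ?_⟩
  by_contra hcon
  push Not at hcon
  have hmr := min_le_left r 1
  have hm1 := min_le_right r 1
  have hS := (of_mem_KS hz).2
  -- the bound for `s`
  have hs1 : s ≤ S + 1 := by
    obtain ⟨l, hl1⟩ : ∃ l, |d j l| = 1 := by
      have h1 := hd j
      by_contra hcon'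
      push Not at hcon'
      have h2 : ‖d j‖ < 1 := by
        rw [pi_norm_lt_iff one_pos]
        intro l
        refine lt_of_le_of_ne ?_ (by rw [Real.norm_eq_abs]; exact hcon' l)
        rw [← h1]
        exact norm_le_pi_norm (d j) l
      linarith
    have h2 := hl l
    have h3 := hS l
    have h4 : |s * d j l| ≤ |L3 z l| + |L3 z l - s * d j l| := by
      have : s * d j l = L3 z l - (L3 z l - s * d j l) := by ring
      calc |s * d j l| = |L3 z l - (L3 z l - s * d j l)| := by rw [← this]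
        _ ≤ _ := abs_sub _ _
    rw [abs_mul, hl1, mul_one, abs_of_nonneg hs] at h4
    linarith
  have hmem : ((d, r' / 2), (z, s)) ∈ Cj j := by
    refine ⟨?_, hcon.le⟩
    rw [Set.mem_iInter]
    intro l
    refine ⟨⟨⟨?_, ?_⟩, hz, hs, hs1⟩, ?_⟩
    · intro j' _
      rw [mem_sphere_zero_iff_norm]
      exact hd j'
    · exact ⟨by positivity, by linarith⟩
    · rw [Set.mem_preimage, Set.mem_Iic]
      simp only [f]
      have := hl l
      linarith
  have hnot : (d, r' / 2) ∉ ⋃ j, Prod.fst '' Cj j := by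
    refine hball ?_
    rw [Metric.mem_ball, Prod.dist_eq, max_lt_iff]
    refine ⟨by simp only; linarith, ?_⟩
    rw [Real.dist_eq, sub_zero, abs_of_pos (by positivity)]
    linarith
  exact hnot (Set.mem_iUnion.2 ⟨j, _, hmem, rfl⟩)

end Clu

open _root_.Pool.Agent.Work.MP_7da6af_nt.Crv.Clu _root_.Pool.Agent.Work.MP_7da6af_nt.Clu

theorem cluster {k : Type} [Field k] [NumberField k] (I : Ideal (P3 k))
    (hstar : ∀ σ : k →+* ℂ, StarP I σ) (B : ℝ) (hB : 0 ≤ B) :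
    ∃ (ε : ℝ) (QQ : Finset ℤ[X]), 0 < ε ∧ (∀ Q ∈ QQ, Q ≠ 0) ∧
      ∀ (d : Fin 3 → Fin 3 → ℝ), (∀ j, ‖d j‖ = 1) →
      ∀ (ι : Type) [Fintype ι] (m : ι → ℝ) (t : ι → Fin 3 → ℂ) (σ : ι → (k →+* ℂ)),
        (∀ i, 0 ≤ m i) → ∑ i, m i = 1 → (∀ i, On I (σ i) (t i)) →
        (∑ i, m i * ∑ l, |L3 (t i) l| ≤ B) →
        (∃ bad : Finset ι, ∑ i ∈ bad, m i ≤ 1 / 10 ∧
          ∀ i ∉ bad, ∃ (j : Fin 3) (s : ℝ), 0 ≤ s ∧
            ∀ l, |L3 (t i) l - s * d j l| ≤ ε) →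
        ∃ Q ∈ QQ, (∃ i, aeval (t i 0) Q = 0) ∨
          ∑ i, m i * Real.log ‖aeval (t i 0) Q‖ < -(Q.natDegree * B) := by
  classical
  let DD : Set (Fin 3 → Fin 3 → ℝ) := Set.univ.pi fun _ => Metric.sphere 0 1
  have hDD : IsCompact DD := isCompact_univ_pi fun _ => isCompact_sphere _ _
  have hmemDD : ∀ d : Fin 3 → Fin 3 → ℝ, d ∈ DD ↔ ∀ j, ‖d j‖ = 1 := by
    intro d
    simp only [DD, Set.mem_univ_pi, mem_sphere_zero_iff_norm]
  set S : ℝ := 10 * B + 1 with hS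
  -- the polynomial for each point of `DD`
  have hloc : ∀ d0 : DD, ∃ (Q : ℤ[X]) (r : ℝ), Q ≠ 0 ∧ 0 < r ∧
      ∀ (d : Fin 3 → Fin 3 → ℝ), (∀ j, ‖d j‖ = 1) → dist d d0 < r →
      ∀ (ι : Type) [Fintype ι] (m : ι → ℝ) (t : ι → Fin 3 → ℂ) (σ : ι → (k →+* ℂ)),
        (∀ i, 0 ≤ m i) → ∑ i, m i = 1 → (∀ i, On I (σ i) (t i)) →
        (∑ i, m i * ∑ l, |L3 (t i) l| ≤ B) →
        (∃ bad : Finset ι, ∑ i ∈ bad, m i ≤ 1 / 10 ∧
          ∀ i ∉ bad, ∃ (j : Fin 3) (s : ℝ), 0 ≤ s ∧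
            ∀ l, |L3 (t i) l - s * d j l| ≤ r / 2) →
        (∃ i, aeval (t i 0) Q = 0) ∨
          ∑ i, m i * Real.log ‖aeval (t i 0) Q‖ < -(Q.natDegree * B) := by
    rintro ⟨d0, hd0⟩
    rw [hmemDD] at hd0
    let Z : Set ℂ := (fun t : Fin 3 → ℂ => t 0) '' ⋃ σ : k →+* ℂ, ⋃ j : Fin 3,
      {t : Fin 3 → ℂ | On I σ t ∧ (∀ l, |L3 t l| ≤ S) ∧ ∃ s : ℝ, L3 t = s • d0 j}
    have hZ : Z.Finite := by
      refine Set.Finite.image _ ?_
      refine Set.finite_iUnion fun σ => Set.finite_iUnion fun j => hstar σ (d0 j) ?_ _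
      intro h
      have := hd0 j
      rw [h, norm_zero] at this
      exact zero_ne_one this
    obtain ⟨N, _, hNM⟩ := siegelPoly Z hZ
    obtain ⟨Q, η, T, hQ0, hQN, hη, hT1, hT, hQZ, hM⟩ :=
      hNM (2 * (1 + Real.log (N + 1) + 2 * (N * B)) + 2)
    have hnear := fun σ : k →+* ℂ => near_rays I σ S d0 Q η hη (by
      intro z hz j s hs
      refine hQZ (z 0) ?_
      obtain ⟨h1, h2⟩ := of_mem_KS hz
      exact ⟨z, Set.mem_iUnion.2 ⟨σ, Set.mem_iUnion.2 ⟨j, h1, h2, s, hs⟩⟩, rfl⟩)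
    choose r hr hnear using hnear
    obtain ⟨r0, hr0, hr0le⟩ := exists_pos_le (Finset.univ : Finset (k →+* ℂ)) r (fun σ _ => hr σ)
    refine ⟨Q, r0, hQ0, hr0, ?_⟩
    intro d hd hdist ι _ m t σ hm hm1 ht hsum hbad
    obtain ⟨bad, hb1, hb2⟩ := hbad
    by_cases hne : ∃ i, aeval (t i 0) Q = 0
    · exact Or.inl hne
    · refine Or.inr ?_
      push Not at hne
      have hle : ∀ i, max 0 (Real.log ‖t i 0‖) ≤ ∑ l, |L3 (t i) l| := by
        intro i
        have h1 : max 0 (Real.log ‖t i 0‖) ≤ |L3 (t i) 0| :=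
          max_le (abs_nonneg _) (le_abs_self _)
        exact h1.trans (Finset.single_le_sum (f := fun l => |L3 (t i) l|)
          (fun _ _ => abs_nonneg _) (Finset.mem_univ 0))
      have heq : ∀ i, max 0 (Real.log ‖t i 0‖) +
          (∑ l, |L3 (t i) l| - max 0 (Real.log ‖t i 0‖)) = ∑ l, |L3 (t i) l| := by
        intro i
        ring
      refine Gen.Clu.average hB hQN hη hT1 hT hM le_rfl ι m (fun i => t i 0)
        (fun i => ∑ l, |L3 (t i) l| - max 0 (Real.log ‖t i 0‖))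
        (fun i => sub_nonneg.2 (hle i)) hm hm1 ?_ bad hb1 ?_ hne
      · rw [Finset.sum_congr rfl fun i _ => by rw [heq i]]
        exact hsum
      intro i hi hw
      rw [heq i] at hw
      obtain ⟨j, s, hs, h⟩ := hb2 i hi
      have hl : ∀ l, |L3 (t i) l| ≤ S := by
        intro l
        have h3 : |L3 (t i) l| ≤ ∑ l, |L3 (t i) l| :=
          Finset.single_le_sum (f := fun l => |L3 (t i) l|) (fun _ _ => abs_nonneg _)
            (Finset.mem_univ l)
        linarith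
      exact hnear (σ i) r0 hr0 (hr0le _ (Finset.mem_univ _)) d hd hdist (t i)
        (mem_KS_of (ht i) hl) j s hs h
  choose Q r hQ0 hr hmain using hloc
  obtain ⟨T, hT⟩ := hDD.elim_nhds_subcover' (fun d0 hd0 => Metric.ball d0 (r ⟨d0, hd0⟩))
    (fun d0 hd0 => Metric.ball_mem_nhds _ (hr _))
  obtain ⟨ε, hε, hεt⟩ := exists_pos_le T (fun d0 => r d0 / 2) (fun d0 _ => half_pos (hr d0))
  refine ⟨ε, T.image Q, hε, ?_, ?_⟩
  · intro P hP
    rw [Finset.mem_image] at hP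
    obtain ⟨d0, _, rfl⟩ := hP
    exact hQ0 d0
  · intro d hd ι _ m t σ hm hm1 ht hsum hbad
    have h1 := hT ((hmemDD d).2 hd)
    rw [Set.mem_iUnion₂] at h1
    obtain ⟨d0, hd0, hball⟩ := h1
    rw [Metric.mem_ball] at hball
    refine ⟨Q d0, Finset.mem_image_of_mem Q hd0, ?_⟩
    refine hmain d0 d hd hball ι m t σ hm hm1 ht hsum ?_
    obtain ⟨bad, hb1, hb2⟩ := hbad
    refine ⟨bad, hb1, fun i hi => ?_⟩
    obtain ⟨j, s, hs, h⟩ := hb2 i hi
    exact ⟨j, s, hs, fun l => (h l).trans (hεt d0 hd0)⟩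

end Pool.Agent.Work.MP_7da6af_nt.Crv
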