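import Pool.Agent.Work.MP_7da6af_nt.Crv.Defs

/-! # Finitely many points of the curve -/

set_option autoImplicit false

namespace Pool.Agent.Work.MP_7da6af_nt.Crv

open NumberField Polynomial

theorem e3_comp {k K L : Type} [Field k] [Field K] [Field L] (φ : k →+* K) (ψ : K →+* L)
    (t : Fin 3 → K) (P : P3 k) : e3 (ψ.comp φ) (fun l => ψ (t l)) P = ψ (e3 φ t P) := by
  unfold e3
  rw [MvPolynomial.eval₂_comp_left]
  rfl

theorem on_comp {k K L : Type} [Field k] [Field K] [Field L] {I : Ideal (P3 k)} {φ : k →+* K}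
    (ψ : K →+* L) {t : Fin 3 → K} (h : On I φ t) : On I (ψ.comp φ) (fun l => ψ (t l)) := by
  refine ⟨fun l => (map_ne_zero ψ).mpr (h.1 l), fun f hf => ?_⟩
  rw [e3_comp, h.2 f hf, map_zero]

theorem mon_single {K : Type} [Field K] (t : Fin 3 → K) : mon t (Pi.single 0 1) = t 0 := by
  unfold mon
  rw [Fin.prod_univ_three]
  simp

variable {k : Type} [Field k] [NumberField k]

/-- The points `t` of the curve whose first coordinate is a root of `Q` come from finitely many
points over one number field `N`. -/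
theorem finite_pts (I : Ideal (P3 k)) (hI : Rels I) (Q : ℤ[X]) (hQ : Q ≠ 0) :
    ∃ (N : Type) (_ : Field N) (_ : NumberField N) (ν : k →+* N) (T : Finset (Fin 3 → N)),
      ∀ (K : Type) [Field K] [NumberField K] (φ : k →+* K) (t : Fin 3 → K), On I φ t →
        aeval (t 0) Q = 0 →
        ∃ (L : Type) (_ : Field L) (_ : NumberField L) (f : K →+* L) (g : N →+* L),
          f.comp φ = g.comp ν ∧ ∃ τ ∈ T, ∀ l, f (t l) = g (τ l) := by
  classical
  obtain ⟨b, hb⟩ := hI
  choose d a ha hc hrel using fun l => hb (Pi.single 0 1)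
    (by intro h; have := congrFun h 0; simp at this) l
  let Om1 := AlgebraicClosure k
  let α : k →+* Om1 := algebraMap k Om1
  let S0 : Finset Om1 := (Q.map (algebraMap ℤ Om1)).roots.toFinset
  let G : Fin 3 → Om1 → Om1[X] := fun l τ =>
    ∑ i ∈ Finset.range (d l + 1), C (Gen.ev α τ (a l i)) * X ^ i
  have hG : ∀ l τ, G l τ ≠ 0 := by
    intro l τ h0
    obtain ⟨c, hc⟩ := hc l
    have h1 : ∀ i ∈ Finset.range (d l + 1), Gen.ev α τ (a l i) = 0 := by
      intro i hi
      have h2 := congrArg (fun P : Om1[X] => P.coeff i) h0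
      simp only [G, finsetSum_coeff, coeff_C_mul, coeff_X_pow, coeff_zero, mul_ite, mul_one,
        mul_zero] at h2
      rw [Finset.sum_eq_single i] at h2
      · simpa using h2
      · intro j _ hj
        simp [Ne.symm hj]
      · intro h; exact absurd hi h
    have h3 := congrArg (Gen.ev α τ) hc
    unfold Gen.ev at h1 h3
    rw [eval₂_finset_sum, eval₂_one, Finset.sum_eq_zero] at h3
    · exact zero_ne_one h3
    · intro i hi
      rw [eval₂_mul, h1 i hi, mul_zero]
  let S : Fin 3 → Finset Om1 := fun l => S0.biUnion fun τ => (G l τ).roots.toFinset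
  let SS : Set Om1 := ⋃ l, (S l : Set Om1)
  have hSS : SS.Finite := Set.finite_iUnion fun l => (S l).finite_toSet
  haveI : Finite SS := hSS
  let N : IntermediateField k Om1 := IntermediateField.adjoin k SS
  haveI : FiniteDimensional k N := IntermediateField.finiteDimensional_adjoin
    fun x _ => Algebra.IsIntegral.isIntegral x
  haveI : FiniteDimensional ℚ N := FiniteDimensional.trans ℚ k N
  haveI : NumberField N := ⟨⟩
  have hSN : ∀ l x, x ∈ S l → x ∈ N := fun l x hx =>
    IntermediateField.subset_adjoin k SS (Set.mem_iUnion.mpr ⟨l, hx⟩)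
  let T1 : Finset (Fin 3 → Om1) := Fintype.piFinset S
  have hTN : ∀ τ ∈ T1, ∀ l, τ l ∈ N := fun τ hτ l =>
    hSN l _ (Fintype.mem_piFinset.mp hτ l)
  let T : Finset (Fin 3 → N) := T1.attach.image fun τ l => ⟨τ.1 l, hTN τ.1 τ.2 l⟩
  refine ⟨N, inferInstance, inferInstance, algebraMap k N, T, ?_⟩
  intro K _ _ φ t ht hQt
  letI : Algebra k K := φ.toAlgebra
  haveI : FiniteDimensional k K := Module.Finite.of_restrictScalars_finite ℚ k K
  let ψ : K →ₐ[k] Om1 := IsAlgClosed.lift
  have hψφ : (ψ : K →+* Om1).comp φ = α := by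
    ext x
    exact ψ.commutes x
  have hpt : On I α (fun l => ψ (t l)) := by
    have := on_comp (ψ : K →+* Om1) ht
    rw [hψφ] at this
    exact this
  have h0 : ψ (t 0) ∈ S0 := by
    rw [Multiset.mem_toFinset, mem_roots_map_of_injective
      (FaithfulSMul.algebraMap_injective ℤ Om1) hQ]
    have h1 := congrArg ψ hQt
    rw [map_zero, aeval_def, ← RingHom.coe_coe, hom_eval₂] at h1
    have h2 : (ψ : K →+* Om1).comp (algebraMap ℤ K) = algebraMap ℤ Om1 := Subsingleton.elim _ _
    rw [h2] at h1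
    exact h1
  have hS : ∀ l, ψ (t l) ∈ S l := by
    intro l
    refine Finset.mem_biUnion.mpr ⟨ψ (t 0), h0, ?_⟩
    rw [Multiset.mem_toFinset, mem_roots (hG l _)]
    have h1 := hrel l Om1 α _ hpt
    rw [mon_single] at h1
    show eval _ (G l (ψ (t 0))) = 0
    simp only [G, eval_finset_sum, eval_mul, eval_C, eval_pow, eval_X]
    exact h1
  let L : IntermediateField k Om1 := ψ.fieldRange ⊔ N
  haveI : FiniteDimensional k ψ.fieldRange := by
    have e : K ≃ₐ[k] ψ.fieldRange := AlgEquiv.ofInjectiveField ψ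
    exact Module.Finite.equiv e.toLinearEquiv
  haveI : FiniteDimensional k L := IntermediateField.finiteDimensional_sup _ _
  haveI : FiniteDimensional ℚ L := FiniteDimensional.trans ℚ k L
  haveI : NumberField L := ⟨⟩
  have hψL : ∀ x, ψ x ∈ L := fun x => (le_sup_left : ψ.fieldRange ≤ L) ⟨x, rfl⟩
  let f : K →+* L := (ψ : K →+* Om1).codRestrict L hψL
  let g : N →+* L := (IntermediateField.inclusion (le_sup_right : N ≤ L) : N →+* L)
  refine ⟨L, inferInstance, inferInstance, f, g, ?_, fun l => ⟨ψ (t l), hSN l _ (hS l)⟩, ?_, ?_⟩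
  · ext x
    show ψ (φ x) = _
    exact ψ.commutes x
  · refine Finset.mem_image.mpr ⟨⟨fun l => ψ (t l), Fintype.mem_piFinset.mpr hS⟩,
      Finset.mem_attach _ _, rfl⟩
  · intro l
    rfl

end Pool.Agent.Work.MP_7da6af_nt.Crv
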