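import Pool.Agent.Work.MP_7da6af_nt.Crv.Near
import Pool.Agent.Work.MP_7da6af_nt.Crv.Cluster
import Pool.Agent.Work.MP_7da6af_nt.Arch
import Pool.Agent.Work.MP_7da6af_nt.Crv.Pts

/-! # Large height: the first coordinate is a root of finitely many polynomials -/

set_option autoImplicit false

namespace Pool.Agent.Work.MP_7da6af_nt.Crv

open NumberField Polynomial

variable {k : Type} [Field k] [NumberField k]

/-- the real relation -/
theorem Pt.real_rel {D : Dat k} {K : Type} [Field K] [NumberField K] {φ : k →+* K} {x z : K}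
    {t : Fin 3 → K} (h : Pt D K φ x z t) : ∃ κ : Fin 3 → ℝ, κ ≠ 0 ∧
      ∀ p : Pl K, ∑ j, κ j * lg p (t j) = 0 := by
  obtain ⟨κ, hκ, h1⟩ := h.rel
  refine ⟨fun j => (κ j : ℝ), ?_, fun p => ?_⟩
  · intro h0
    apply hκ
    funext j
    have := congrFun h0 j
    simpa using this
  · rw [← lg_mon h.on.1, h1, lg_one]

theorem degree (D : Dat k) : ∃ (H : ℝ) (QQ : Finset ℤ[X]), (∀ Q ∈ QQ, Q ≠ 0) ∧
    ∀ (K : Type) [Field K] [NumberField K] (φ : k →+* K) (x z : K) (t : Fin 3 → K),
      Pt D K φ x z t → H * dg K ≤ hh x → ∃ Q ∈ QQ, aeval (t 0) Q = 0 := by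
  classical
  obtain ⟨B, hB, hc2⟩ := D.c2
  have hB1 : 0 ≤ 6 * B := by positivity
  obtain ⟨ε, QQ, hε, hQQ, hcl⟩ := cluster D.I D.star (6 * B) hB1
  obtain ⟨H, hnear⟩ := near D ε hε
  refine ⟨H, QQ, hQQ, fun K _ _ φ x z t h hH => ?_⟩
  obtain ⟨d, bad, hd1, hbad, hgood⟩ := hnear K φ x z t h hH
  have hdg : 0 < dg K := dg_pos
  obtain ⟨κ, hκ, hκr⟩ := h.real_rel
  have hty := hc2 K φ t h.on κ hκ hκr
  have e1 : ∀ (v : InfinitePlace K) (t : K), Real.log ‖v.embedding t‖ = lg (Sum.inl v) t :=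
    fun v t => by
      rw [InfinitePlace.norm_embedding_eq]
      rfl
  have hL3 : ∀ v : InfinitePlace K, ∀ l, L3 (fun l => v.embedding (t l)) l =
      lg (Sum.inl v) (t l) := fun v l => e1 v (t l)
  have hm : ∑ v : InfinitePlace K, (v.mult : ℝ) / dg K = 1 := by
    rw [← Finset.sum_div, div_eq_one_iff_eq hdg.ne']
    unfold dg
    exact_mod_cast InfinitePlace.sum_mult_eq (K := K)
  obtain ⟨Q, hQ, h1⟩ := hcl d hd1 (InfinitePlace K) (fun v => (v.mult : ℝ) / dg K)
    (fun v l => v.embedding (t l)) (fun v => v.embedding.comp φ) (fun v => by positivity) hm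
    (fun v => on_comp v.embedding h.on)
    (by
      have hFS : FS fun p : Pl K => ∑ l, |lg p (t l)| := FS.sum _ fun l _ => fs_abs (h.on.1 l)
      have h2 := arch_le hFS fun p => Finset.sum_nonneg fun l _ => abs_nonneg _
      rw [plSum_sum _ fun l _ => fs_abs (h.on.1 l)] at h2
      have h3 : ∑ l, plSum K (fun p => |lg p (t l)|) ≤ 6 * B * dg K := by
        calc ∑ l, plSum K (fun p => |lg p (t l)|)
            ≤ ∑ _l : Fin 3, 2 * (B * dg K) := by
              refine Finset.sum_le_sum fun l _ => ?_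
              rw [plSum_abs (h.on.1 l)]
              exact mul_le_mul_of_nonneg_left (hty l) zero_le_two
          _ = 6 * B * dg K := by
              simp
              ring
      have h4 : ∑ v : InfinitePlace K, (v.mult : ℝ) / dg K *
          ∑ l, |L3 (fun l => v.embedding (t l)) l| =
          (∑ v : InfinitePlace K, (v.mult : ℝ) *
            ∑ l, |lg (Sum.inl v) (t l)|) / dg K := by
        rw [Finset.sum_div]
        refine Finset.sum_congr rfl fun v _ => ?_
        simp only [hL3]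
        ring
      rw [h4, div_le_iff₀ hdg]
      linarith)
    (by
      refine ⟨bad, ?_, fun v hv => ?_⟩
      · rw [← Finset.sum_div, div_le_iff₀ hdg]
        linarith
      · obtain ⟨j, s, hs, h2⟩ := hgood v hv
        refine ⟨j, s, hs, fun l => ?_⟩
        rw [hL3]
        exact h2 l)
  refine ⟨Q, hQ, ?_⟩
  by_contra hQy
  rcases h1 with ⟨v, hv⟩ | h1
  · rw [emb_aevalZ] at hv
    exact hQy (v.embedding.injective (by rw [map_zero]; exact hv))
  · have h2 := arch_lower (t 0) Q hQy
    have h3 : ∑ v : InfinitePlace K, (v.mult : ℝ) / dg K *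
        Real.log ‖aeval (v.embedding (t 0)) Q‖ =
        (∑ v : InfinitePlace K, (v.mult : ℝ) * lg (Sum.inl v) (aeval (t 0) Q)) / dg K := by
      rw [Finset.sum_div]
      refine Finset.sum_congr rfl fun v _ => ?_
      rw [emb_aevalZ, e1]
      ring
    rw [h3, div_lt_iff₀ hdg] at h1
    have h4 : (Q.natDegree : ℝ) * hh (t 0) ≤ Q.natDegree * (B * dg K) :=
      mul_le_mul_of_nonneg_left (hty 0) (Nat.cast_nonneg _)
    have h5 : 0 ≤ (Q.natDegree : ℝ) * (5 * B * dg K) := by positivity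
    nlinarith

end Pool.Agent.Work.MP_7da6af_nt.Crv
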