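import Pool.Agent.Work.MP_7da6af_nt.Crv.TriSurf

/-! # Surfaces with fibres `u x ^ n + v z ^ n = w`: elimination -/

set_option autoImplicit false

namespace Pool.Agent.Work.MP_7da6af_nt.Crv

open Pool.Agent.Work.MP_7da6af_nt Anom
open TopologicalSpace

/-- a set is irreducible if the polynomials vanishing on it are the kernel of a homomorphism to a
domain -/
theorem irr_of_hom {V : Set Tor} (hne : V.Nonempty) {E : Type} [CommRing E] [IsDomain E]
    (θ : MvPolynomial (Fin 5) Om →+* E) (h : ∀ f, f ∈ vI V ↔ θ f = 0) : IsIrreducible V := by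
  refine ⟨hne, ?_⟩
  rw [isPreirreducible_iff_isClosed_union_isClosed]
  intro A B hA hB hAB
  by_contra hcon
  push Not at hcon
  obtain ⟨k1, k2⟩ := hcon
  obtain ⟨f, hf, hf'⟩ := exists_sep hA k1
  obtain ⟨g, hg, hg'⟩ := exists_sep hB k2
  have h1 : f * g ∈ vI V := by
    intro q hq
    rw [map_mul]
    rcases hAB hq with h2 | h2
    · rw [hf q h2, zero_mul]
    · rw [hg q h2, mul_zero]
  rw [h, map_mul, mul_eq_zero, ← h, ← h] at h1
  rcases h1 with h1 | h1
  · exact hf' h1
  · exact hg' h1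

theorem dim_of_hom {V : Set Tor} (hV : IsIrreducible V) {E : Type} [Field E] [Algebra Om E]
    (θ : MvPolynomial (Fin 5) Om →ₐ[Om] E) (h : ∀ f, f ∈ vI V ↔ θ f = 0)
    (htr : Algebra.trdeg Om E ≤ 2) : dimT V ≤ 2 := by
  refine (dimT_le _).trans ?_
  have := vI_prime hV
  refine ringKrullDim_le_of_trdeg (k := Om) (Ideal.Quotient.liftₐ (vI V) θ
    (fun f hf => (h f).mp hf)) ?_ 2 (by exact_mod_cast htr)
  rw [injective_iff_map_eq_zero]
  intro a ha
  obtain ⟨f, rfl⟩ := Ideal.Quotient.mk_surjective a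
  rw [Ideal.Quotient.eq_zero_iff_mem, h]
  exact ha

section

variable {S : Type} [CommRing S]

/-- five coordinates from two coordinates and a homomorphism -/
noncomputable def co5 (i : Fin 5) (κ : P3 Om →+* S) (x y : S) : Fin 5 → S :=
  Fin.append (if i = 0 then ![x, y] else ![y, x]) (fun l => κ (MvPolynomial.X l))

/-- the value of a polynomial in five variables -/
noncomputable def ev5 (i : Fin 5) (κ : P3 Om →+* S) (x y : S) (f : MvPolynomial (Fin 5) Om) : S :=
  MvPolynomial.eval₂ (κ.comp MvPolynomial.C) (co5 i κ x y) f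

theorem ev5_C (i : Fin 5) (κ : P3 Om →+* S) (x y : S) (a : Om) :
    ev5 i κ x y (MvPolynomial.C a) = κ (MvPolynomial.C a) := MvPolynomial.eval₂_C _ _ _

theorem ev5_add (i : Fin 5) (κ : P3 Om →+* S) (x y : S) (f g : MvPolynomial (Fin 5) Om) :
    ev5 i κ x y (f + g) = ev5 i κ x y f + ev5 i κ x y g := MvPolynomial.eval₂_add _ _

theorem ev5_mul (i : Fin 5) (κ : P3 Om →+* S) (x y : S) (f g : MvPolynomial (Fin 5) Om) :
    ev5 i κ x y (f * g) = ev5 i κ x y f * ev5 i κ x y g := MvPolynomial.eval₂_mul _ _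

theorem ev5_X (i : Fin 5) (κ : P3 Om →+* S) (x y : S) (n : Fin 5) :
    ev5 i κ x y (MvPolynomial.X n) = co5 i κ x y n := MvPolynomial.eval₂_X _ _ _

end

theorem co5_tor {i j : Fin 5} (hij : Ord i j) (q : Tor) :
    co5 i (MvPolynomial.eval (tt q)) (q.co i) (q.co j) = q.co := by
  funext n
  refine Fin.addCases (m := 2) (n := 3) (fun l => ?_) (fun l => ?_) n
  · rcases hij with ⟨rfl, rfl⟩ | ⟨rfl, rfl⟩
    · fin_cases l <;> rfl
    · fin_cases l <;> rfl
  · unfold co5
    rw [Fin.append_right, MvPolynomial.eval_X]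
    rfl

theorem ev5_tor {i j : Fin 5} (hij : Ord i j) (q : Tor) (f : MvPolynomial (Fin 5) Om) :
    ev5 i (MvPolynomial.eval (tt q)) (q.co i) (q.co j) f = MvPolynomial.eval q.co f := by
  unfold ev5
  rw [co5_tor hij]
  have : (MvPolynomial.eval (tt q)).comp MvPolynomial.C = RingHom.id Om := by
    ext a
    simp
  rw [this]
  rfl

/-- elimination of powers at least `n` of the second coordinate -/
theorem elim (u v w : P3 Om) (n : ℕ) (hn : 0 < n) {i j : Fin 5} (hij : Ord i j)
    (f : MvPolynomial (Fin 5) Om) : ∃ (m : ℕ) (r : ℕ → Polynomial (P3 Om)),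
    ∀ (S : Type) [CommRing S] (κ : P3 Om →+* S) (x y : S), κ u * x ^ n + κ v * y ^ n = κ w →
      ev5 i κ x y f * κ v ^ m = ∑ l ∈ Finset.range n, Polynomial.eval₂ κ x (r l) * y ^ l := by
  induction f using MvPolynomial.induction_on with
  | C a =>
    refine ⟨0, fun l => if l = 0 then Polynomial.C (MvPolynomial.C a) else 0,
      fun S _ κ x y h => ?_⟩
    rw [ev5_C, pow_zero, mul_one, Finset.sum_eq_single 0]
    · simp
    · intro l _ hl
      simp [hl]
    · intro h0
      exact absurd (Finset.mem_range.mpr hn) h0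
  | add p q hp hq =>
    obtain ⟨m1, r1, h1⟩ := hp
    obtain ⟨m2, r2, h2⟩ := hq
    refine ⟨m1 + m2, fun l => r1 l * Polynomial.C v ^ m2 + r2 l * Polynomial.C v ^ m1,
      fun S _ κ x y h => ?_⟩
    have e1 : ∀ l, Polynomial.eval₂ κ x (r1 l * Polynomial.C v ^ m2 + r2 l * Polynomial.C v ^ m1) *
        y ^ l = (Polynomial.eval₂ κ x (r1 l) * y ^ l) * κ v ^ m2 +
          (Polynomial.eval₂ κ x (r2 l) * y ^ l) * κ v ^ m1 := by
      intro l
      rw [Polynomial.eval₂_add, Polynomial.eval₂_mul, Polynomial.eval₂_mul, Polynomial.eval₂_pow,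
        Polynomial.eval₂_pow, Polynomial.eval₂_C]
      ring
    rw [Finset.sum_congr rfl fun l _ => e1 l, Finset.sum_add_distrib, ← Finset.sum_mul,
      ← Finset.sum_mul, ← h1 S κ x y h, ← h2 S κ x y h, ev5_add]
    ring
  | mul_X p c hp =>
    obtain ⟨m, r, h1⟩ := hp
    -- the coordinate is the first one, the second one or one of the last three
    have hx : (∃ G : Polynomial (P3 Om), ∀ (S : Type) [CommRing S] (κ : P3 Om →+* S) (x y : S),
        co5 i κ x y c = Polynomial.eval₂ κ x G) ∨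
        (∀ (S : Type) [CommRing S] (κ : P3 Om →+* S) (x y : S), co5 i κ x y c = y) := by
      revert c
      intro c
      refine Fin.addCases (m := 2) (n := 3) (fun l => ?_) (fun l => ?_) c
      · rcases hij with ⟨rfl, rfl⟩ | ⟨rfl, rfl⟩
        · fin_cases l
          · exact Or.inl ⟨Polynomial.X, fun S _ κ x y => by
              rw [Polynomial.eval₂_X]
              rfl⟩
          · exact Or.inr fun S _ κ x y => rfl
        · fin_cases l
          · exact Or.inr fun S _ κ x y => rfl
          · exact Or.inl ⟨Polynomial.X, fun S _ κ x y => by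
              rw [Polynomial.eval₂_X]
              rfl⟩
      · refine Or.inl ⟨Polynomial.C (MvPolynomial.X l), fun S _ κ x y => ?_⟩
        unfold co5
        rw [Fin.append_right, Polynomial.eval₂_C]
    rcases hx with ⟨G, hG⟩ | hy
    · refine ⟨m, fun l => r l * G, fun S _ κ x y h => ?_⟩
      have e1 : ∀ l, Polynomial.eval₂ κ x (r l * G) * y ^ l =
          (Polynomial.eval₂ κ x (r l) * y ^ l) * Polynomial.eval₂ κ x G := by
        intro l
        rw [Polynomial.eval₂_mul]
        ring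
      rw [Finset.sum_congr rfl fun l _ => e1 l, ← Finset.sum_mul, ← h1 S κ x y h, ev5_mul, ev5_X,
        hG S κ x y]
      ring
    · obtain ⟨n', rfl⟩ : ∃ n', n = n' + 1 := ⟨n - 1, by omega⟩
      refine ⟨m + 1, fun l => if l = 0 then r n' * (Polynomial.C w - Polynomial.C u *
        Polynomial.X ^ (n' + 1)) else r (l - 1) * Polynomial.C v, fun S _ κ x y h => ?_⟩
      rw [Finset.sum_range_succ', ev5_mul, ev5_X, hy S κ x y]
      have e0 : ev5 i κ x y p * y * κ v ^ (m + 1) = (ev5 i κ x y p * κ v ^ m) * (y * κ v) := by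
        ring
      rw [e0, h1 S κ x y h, Finset.sum_range_succ, add_mul, Finset.sum_mul]
      have e1 : ∀ l ∈ Finset.range n', Polynomial.eval₂ κ x (if l + 1 = 0 then r n' *
          (Polynomial.C w - Polynomial.C u * Polynomial.X ^ (n' + 1)) else
          r (l + 1 - 1) * Polynomial.C v) * y ^ (l + 1) =
          Polynomial.eval₂ κ x (r l) * y ^ l * (y * κ v) := by
        intro l _
        rw [if_neg (Nat.succ_ne_zero l), Nat.add_sub_cancel, Polynomial.eval₂_mul,
          Polynomial.eval₂_C]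
        ring
      rw [Finset.sum_congr rfl e1]
      beta_reduce
      rw [if_pos rfl, Polynomial.eval₂_mul, Polynomial.eval₂_sub,
        Polynomial.eval₂_mul, Polynomial.eval₂_pow, Polynomial.eval₂_X, Polynomial.eval₂_C,
        Polynomial.eval₂_C]
      congr 1
      rw [← h]
      ring

/-- the surface with fibres `u x ^ n + v z ^ n = w` -/
def surfF (I : Ideal (P3 Om)) (u v w : P3 Om) (n : ℕ) : Set Tor :=
  {q | (∀ f ∈ I, MvPolynomial.eval (tt q) f = 0) ∧
    MvPolynomial.eval (tt q) u * q.co 0 ^ n + MvPolynomial.eval (tt q) v * q.co 1 ^ n =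
      MvPolynomial.eval (tt q) w}

/-- a polynomial of degree less than `n` has a nonzero value at some root of `y ^ n = β` -/
theorem exists_root_ne (n : ℕ) (hn : 0 < n) (β : Om) (hβ : β ≠ 0) (P : Polynomial Om)
    (hP : P ≠ 0) (hdeg : P.natDegree < n) : ∃ y : Om, y ^ n = β ∧ P.eval y ≠ 0 := by
  classical
  by_contra hcon
  push Not at hcon
  have hn' : ((n : ℕ) : Om) ≠ 0 := by exact_mod_cast hn.ne'
  have hsep : (Polynomial.X ^ n - Polynomial.C β : Polynomial Om).Separable :=
    Polynomial.separable_X_pow_sub_C β hn' hβ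
  have hQ : (Polynomial.X ^ n - Polynomial.C β : Polynomial Om) ≠ 0 :=
    Polynomial.X_pow_sub_C_ne_zero hn β
  have hcard : (Polynomial.X ^ n - Polynomial.C β : Polynomial Om).roots.toFinset.card = n := by
    rw [Multiset.toFinset_card_of_nodup (Polynomial.nodup_roots hsep),
      IsAlgClosed.card_roots_eq_natDegree, Polynomial.natDegree_X_pow_sub_C]
  have hsub : (Polynomial.X ^ n - Polynomial.C β : Polynomial Om).roots.toFinset ⊆
      P.roots.toFinset := by
    intro y hy
    rw [Multiset.mem_toFinset, Polynomial.mem_roots hQ] at hy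
    rw [Multiset.mem_toFinset, Polynomial.mem_roots hP]
    apply hcon
    simpa [sub_eq_zero] using hy
  have h1 := Finset.card_le_card hsub
  rw [hcard] at h1
  have h2 := Multiset.toFinset_card_le P.roots
  have h3 := Polynomial.card_roots' P
  omega

section

variable {I : Ideal (P3 Om)} {u v w : P3 Om}

/-- a polynomial of degree less than `n` in the second coordinate, which is not zero modulo `I`, is
not zero at some point of the surface -/
theorem exists_qF (hI : IsCurve I) {i j : Fin 5} (hij : Ord i j) (hu : u ∉ I) (hv : v ∉ I)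
    (hw : w ∉ I) (n : ℕ) (hn : 0 < n) (r : ℕ → Polynomial (P3 Om))
    (hr : ¬ ∀ l ∈ Finset.range n, ∀ e, (r l).coeff e ∈ I) :
    ∃ q : Tor, (∀ f ∈ I, MvPolynomial.eval (tt q) f = 0) ∧
      MvPolynomial.eval (tt q) u * q.co i ^ n + MvPolynomial.eval (tt q) v * q.co j ^ n =
        MvPolynomial.eval (tt q) w ∧ MvPolynomial.eval (tt q) u ≠ 0 ∧
      MvPolynomial.eval (tt q) v ≠ 0 ∧
      ∑ l ∈ Finset.range n, Polynomial.eval₂ (MvPolynomial.eval (tt q)) (q.co i) (r l) *
        q.co j ^ l ≠ 0 := by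
  classical
  have hp := hI.prime
  push Not at hr
  obtain ⟨l₀, hl₀, e₀, he₀⟩ := hr
  have hH : (r l₀).coeff e₀ * (u * (v * (w * (MvPolynomial.X 0 * (MvPolynomial.X 1 *
      MvPolynomial.X 2))))) ∉ I := by
    intro h
    rcases hp.mem_or_mem h with h | h
    · exact he₀ h
    rcases hp.mem_or_mem h with h | h
    · exact hu h
    rcases hp.mem_or_mem h with h | h
    · exact hv h
    rcases hp.mem_or_mem h with h | h
    · exact hw h
    rcases hp.mem_or_mem h with h | h
    · exact hI.coord 0 h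
    rcases hp.mem_or_mem h with h | h
    · exact hI.coord 1 h
    · exact hI.coord 2 h
  obtain ⟨t, ht, hne⟩ := exists_pt hp hH
  simp only [map_mul, MvPolynomial.eval_X, mul_ne_zero_iff] at hne
  obtain ⟨h1, h2, h3, h3', h4, h5, h6⟩ := hne
  have ht0 : ∀ l, t l ≠ 0 := by
    intro l
    fin_cases l
    · exact h4
    · exact h5
    · exact h6
  set U := MvPolynomial.eval t u
  set V := MvPolynomial.eval t v
  set W := MvPolynomial.eval t w
  have hQ : ((r l₀).map (MvPolynomial.eval t)) * (Polynomial.X * (Polynomial.C W -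
      Polynomial.C U * Polynomial.X ^ n)) ≠ 0 := by
    refine mul_ne_zero ?_ (mul_ne_zero Polynomial.X_ne_zero ?_)
    · intro h0
      apply h1
      have := congrArg (fun P => Polynomial.coeff P e₀) h0
      simpa using this
    · intro h0
      apply h3'
      have := congrArg (Polynomial.eval 0) h0
      simpa [hn.ne'] using this
  obtain ⟨x, hx⟩ : ∃ x, (((r l₀).map (MvPolynomial.eval t)) * (Polynomial.X * (Polynomial.C W -
      Polynomial.C U * Polynomial.X ^ n))).eval x ≠ 0 := by
    by_contra hcon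
    push Not at hcon
    exact hQ (Polynomial.funext fun y => by rw [hcon y, Polynomial.eval_zero])
  simp only [Polynomial.eval_mul, Polynomial.eval_X, Polynomial.eval_sub, Polynomial.eval_C,
    Polynomial.eval_pow, mul_ne_zero_iff, Polynomial.eval_map] at hx
  obtain ⟨hx1, hx2, hx3⟩ := hx
  let P : Polynomial Om := ∑ l ∈ Finset.range n,
    Polynomial.C (Polynomial.eval₂ (MvPolynomial.eval t) x (r l)) * Polynomial.X ^ l
  have hPc : ∀ l ∈ Finset.range n, P.coeff l = Polynomial.eval₂ (MvPolynomial.eval t) x (r l) := by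
    intro l hl
    simp only [P, Polynomial.finsetSum_coeff, Polynomial.coeff_C_mul, Polynomial.coeff_X_pow,
      mul_ite, mul_one, mul_zero]
    rw [Finset.sum_ite_eq, if_pos hl]
  have hP : P ≠ 0 := by
    intro h0
    apply hx1
    rw [← hPc l₀ hl₀, h0, Polynomial.coeff_zero]
  have hPd : P.natDegree < n := by
    refine lt_of_le_of_lt (Polynomial.natDegree_sum_le_of_forall_le (n := n - 1) _ _ ?_)
      (by omega)
    intro l hl
    rw [Finset.mem_range] at hl
    exact (Polynomial.natDegree_C_mul_X_pow_le _ _).trans (by omega)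
  obtain ⟨y, hy, hPy⟩ := exists_root_ne n hn ((W - U * x ^ n) / V) (div_ne_zero hx3 h3) P hP hPd
  have hy0 : y ≠ 0 := by
    intro h0
    rw [h0, zero_pow hn.ne'] at hy
    exact div_ne_zero hx3 h3 hy.symm
  obtain ⟨q, hq1, hq2, hq3⟩ := mk_tor i j hij x y hx2 hy0 t ht0
  refine ⟨q, by rw [hq3]; exact ht, ?_, by rw [hq3]; exact h2, by rw [hq3]; exact h3, ?_⟩
  · rw [hq3, hq1, hq2, hy]
    show U * x ^ n + V * ((W - U * x ^ n) / V) = W
    rw [mul_div_cancel₀ _ h3]
    ring
  · rw [hq3, hq1, hq2]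
    have : P.eval y = ∑ l ∈ Finset.range n, Polynomial.eval₂ (MvPolynomial.eval t) x (r l) *
        y ^ l := by
      simp [P, Polynomial.eval_finsetSum]
    rw [← this]
    exact hPy

theorem eval₂_zero_of {q : Tor} (hq : ∀ f ∈ I, MvPolynomial.eval (tt q) f = 0) (x : Om)
    {G : Polynomial (P3 Om)} (hG : ∀ e, G.coeff e ∈ I) :
    Polynomial.eval₂ (MvPolynomial.eval (tt q)) x G = 0 := by
  rw [Polynomial.eval₂_eq_sum_range]
  refine Finset.sum_eq_zero fun e _ => ?_
  rw [hq _ (hG e), zero_mul]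

/-- the polynomials which vanish on the surface -/
theorem mem_vIF (h : Hyp I u v w) (hw : w ∉ I) (n : ℕ) (hn : 0 < n)
    (f : MvPolynomial (Fin 5) Om) (m : ℕ) (r : ℕ → Polynomial (P3 Om))
    (hf : ∀ (S : Type) [CommRing S] (κ : P3 Om →+* S) (x y : S),
      κ u * x ^ n + κ v * y ^ n = κ w →
      ev5 0 κ x y f * κ v ^ m = ∑ l ∈ Finset.range n, Polynomial.eval₂ κ x (r l) * y ^ l) :
    f ∈ vI (surfF I u v w n) ↔ ∀ l ∈ Finset.range n, ∀ e, (r l).coeff e ∈ I := by
  have h01 : Ord 0 1 := Or.inl ⟨rfl, rfl⟩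
  have h10 : Ord 1 0 := Or.inr ⟨rfl, rfl⟩
  have hfq : ∀ q : Tor, MvPolynomial.eval (tt q) u * q.co 0 ^ n +
      MvPolynomial.eval (tt q) v * q.co 1 ^ n = MvPolynomial.eval (tt q) w →
      MvPolynomial.eval q.co f * MvPolynomial.eval (tt q) v ^ m =
        ∑ l ∈ Finset.range n, Polynomial.eval₂ (MvPolynomial.eval (tt q)) (q.co 0) (r l) *
          q.co 1 ^ l := by
    intro q hq
    rw [← ev5_tor h01]
    exact hf Om _ _ _ hq
  constructor
  · intro hfV
    by_contra hr
    obtain ⟨q, hq1, hq2, hq3, hq4, hq5⟩ := exists_qF h.curve h01 h.hu h.hv hw n hn r hr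
    apply hq5
    rw [← hfq q hq2, hfV q ⟨hq1, hq2⟩, zero_mul]
  · intro hr
    have key : ∀ q : Tor, (∀ f ∈ I, MvPolynomial.eval (tt q) f = 0) →
        MvPolynomial.eval (tt q) u * q.co 0 ^ n + MvPolynomial.eval (tt q) v * q.co 1 ^ n =
        MvPolynomial.eval (tt q) w → MvPolynomial.eval (tt q) v ≠ 0 →
        MvPolynomial.eval q.co f = 0 := by
      intro q hq1 hq2 hq3
      have h3 := hfq q hq2
      rw [Finset.sum_eq_zero fun l hl => by
        rw [eval₂_zero_of hq1 _ (hr l hl), zero_mul]] at h3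
      exact (mul_eq_zero.mp h3).resolve_right (pow_ne_zero _ hq3)
    rintro q ⟨hq1, hq2⟩
    by_cases hq3 : MvPolynomial.eval (tt q) v = 0
    swap
    · exact key q hq1 hq2 hq3
    by_cases hq4 : MvPolynomial.eval (tt q) u = 0
    · exfalso
      refine h.cop q hq1 hq4 hq3 ?_
      rw [← hq2, hq3, hq4]
      ring
    by_contra hne
    obtain ⟨m', r', h1'⟩ := elim v u w n hn h10 f
    have hfq' : ∀ p : Tor, MvPolynomial.eval (tt p) u * p.co 0 ^ n +
        MvPolynomial.eval (tt p) v * p.co 1 ^ n = MvPolynomial.eval (tt p) w →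
        MvPolynomial.eval p.co f * MvPolynomial.eval (tt p) u ^ m' =
          ∑ l ∈ Finset.range n, Polynomial.eval₂ (MvPolynomial.eval (tt p)) (p.co 1) (r' l) *
            p.co 0 ^ l := by
      intro p hp
      rw [← ev5_tor h10]
      refine h1' Om _ _ _ ?_
      rw [← hp]
      ring
    have h5 : ∑ l ∈ Finset.range n, Polynomial.eval₂ (MvPolynomial.eval (tt q)) (q.co 1) (r' l) *
            q.co 0 ^ l ≠ 0 := by
      rw [← hfq' q hq2]
      exact mul_ne_zero hne (pow_ne_zero _ hq4)
    have h6 : ¬ ∀ l ∈ Finset.range n, ∀ e, (r' l).coeff e ∈ I := by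
      intro h0
      apply h5
      refine Finset.sum_eq_zero fun l hl => ?_
      rw [eval₂_zero_of hq1 _ (h0 l hl), zero_mul]
    obtain ⟨p, hp1, hp2, hp3, hp4, hp5⟩ := exists_qF h.curve h10 h.hv h.hu hw n hn r' h6
    have hp2' : MvPolynomial.eval (tt p) u * p.co 0 ^ n + MvPolynomial.eval (tt p) v *
        p.co 1 ^ n = MvPolynomial.eval (tt p) w := by
      rw [← hp2]
      ring
    apply hp5
    rw [← hfq' p hp2', key p hp1 hp2' hp3, zero_mul]

end

end Pool.Agent.Work.MP_7da6af_nt.Crv
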