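import Pool.Agent.Work.MP_7da6af_nt.Crv.Surf
import Pool.Agent.Work.MP_7da6af_nt.AnomMain

/-! # The fibres of the surface, its dimension, and its maximal points -/

set_option autoImplicit false

namespace Pool.Agent.Work.MP_7da6af_nt.Crv

open Pool.Agent.Work.MP_7da6af_nt Anom
open TopologicalSpace

/-- A maximal point lies on no irreducible closed subset of positive dimension which is contained in
a subgroup of codimension two. -/
theorem no_lattice {V Z : Set Tor} (hcl : IsClosed V) (hdim : dimT V = 2) {P : Tor}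
    (hmax : IsMaxPoint V P) (hZi : IsIrreducible Z) (hZc : IsClosed Z) (hPZ : P ∈ Z)
    (hZne : Z ≠ {P}) (hZV : Z ⊆ V) (Λ : Submodule ℤ (Fin 5 → ℤ)) (hr : 2 ≤ Module.finrank ℤ Λ)
    (hsub : ∀ q ∈ Z, ∀ m ∈ Λ, q.chr m = 1) : False := by
  have hW : IsClosed (V ∩ coset 1 Λ) := hcl.inter (closed_coset 1 Λ)
  have hfW : Z ⊆ V ∩ coset 1 Λ := fun q hq => ⟨hZV hq, (mem_coset_one Λ q).mpr (hsub q hq)⟩
  obtain ⟨Y, hY, hfY⟩ := exists_component hZi hZc hW hfW
  have hYi : IsIrreducible Y := hY.prop.1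
  have hYc : IsClosed Y := hY.prop.2.1
  have hPY : P ∈ Y := hfY hPZ
  have hne : Y ≠ {P} := by
    intro heq
    apply hZne
    refine Set.Subset.antisymm (heq ▸ hfY) ?_
    simpa using hPZ
  have h1 : 1 ≤ dimT Y := one_le_dimT hYi hYc hPY hne
  refine hmax.2 Y ⟨coset 1 Λ, Module.finrank ℤ Λ, torsion_of_lattice Λ,
    coset_ne_univ Λ (by omega), hY, ?_⟩ hPY ?_
  · rw [hdim]
    have h2 : (2 : WithBot ℕ∞) ≤ ((Module.finrank ℤ Λ : ℕ) : WithBot ℕ∞) := by exact_mod_cast hr
    calc (2 : WithBot ℕ∞) < 1 + 2 := by decide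
      _ ≤ dimT Y + ((Module.finrank ℤ Λ : ℕ) : WithBot ℕ∞) := add_le_add h1 h2
  · rw [dimT_singleton]
    exact lt_of_lt_of_le (by decide) h1

/-- a maximal point has three independent relations -/
theorem max_rank {V : Set Tor} (hdim : dimT V = 2) {P : Tor} (hmax : IsMaxPoint V P) :
    P ∈ V ∧ 3 ≤ Module.finrank ℤ (rel P) := by
  obtain ⟨⟨B, c, hB, hBne, hcomp, hd⟩, hmx⟩ := hmax
  have hPVB : P ∈ V ∩ B := hcomp.prop.2.2 rfl
  rw [hdim, dimT_singleton, zero_add] at hd
  have hc : 3 ≤ c := by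
    have : (2 : ℕ) < c := by exact_mod_cast hd
    omega
  exact ⟨hPVB.1, hc.trans (rel_rank hB hPVB.2)⟩

/-- the points over `tt P` on the line `a x + b z = c` -/
def fib3 (a b c : Om) (P : Tor) : Set Tor :=
  {q | tt q = tt P ∧ a * q.co 0 + b * q.co 1 = c}

theorem fib3_closed (a b c : Om) (P : Tor) : IsClosed (fib3 a b c P) := by
  rw [isClosed_iff]
  refine ⟨Set.range (fun l : Fin 3 => MvPolynomial.X (Fin.natAdd 2 l) -
    MvPolynomial.C (tt P l)) ∪ {MvPolynomial.C a * MvPolynomial.X 0 +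
    MvPolynomial.C b * MvPolynomial.X 1 - MvPolynomial.C c}, ?_⟩
  ext q
  simp only [zLoc, fib3, Set.mem_ofPred_eq, Set.mem_union, or_imp, forall_and,
    Set.forall_mem_range, Set.mem_singleton_iff, forall_eq, map_sub, map_add, map_mul,
    MvPolynomial.eval_X, MvPolynomial.eval_C, sub_eq_zero]
  refine and_congr_left fun _ => ?_
  rw [funext_iff]
  rfl

/-- the parametrisation of the line -/
noncomputable def lin (a b : Om) (P : Tor) : Fin 5 → Polynomial Om :=
  Fin.append ![Polynomial.C (P.co 0) + Polynomial.C b * Polynomial.X,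
    Polynomial.C (P.co 1) - Polynomial.C a * Polynomial.X]
    (fun l : Fin 3 => Polynomial.C (tt P l))

theorem lin_zero (a b : Om) (P : Tor) :
    lin a b P 0 = Polynomial.C (P.co 0) + Polynomial.C b * Polynomial.X := rfl

theorem lin_one (a b : Om) (P : Tor) :
    lin a b P 1 = Polynomial.C (P.co 1) - Polynomial.C a * Polynomial.X := rfl

theorem lin_add (a b : Om) (P : Tor) (l : Fin 3) :
    lin a b P (Fin.natAdd 2 l) = Polynomial.C (tt P l) := by
  unfold lin
  rw [Fin.append_right]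

theorem lin_zero_ne (a b : Om) (P : Tor) : lin a b P 0 ≠ 0 := by
  intro h
  have := congrArg (Polynomial.eval 0) h
  rw [lin_zero] at this
  simp at this
  exact co_ne P 0 this

theorem lin_one_ne (a b : Om) (P : Tor) : lin a b P 1 ≠ 0 := by
  intro h
  have := congrArg (Polynomial.eval 0) h
  rw [lin_one] at this
  simp at this
  exact co_ne P 1 this

/-- points on the line -/
theorem exists_lin {a b c : Om} {P : Tor} (hP : P ∈ fib3 a b c P) {s : Om}
    (h0 : (lin a b P 0).eval s ≠ 0) (h1 : (lin a b P 1).eval s ≠ 0) :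
    ∃ q ∈ fib3 a b c P, ∀ i, q.co i = (lin a b P i).eval s := by
  obtain ⟨q, hq0, hq1, hq2⟩ := mk_tor 0 1 (Or.inl ⟨rfl, rfl⟩) _ _ h0 h1 (tt P)
    (fun l => co_ne P _)
  refine ⟨q, ⟨hq2, ?_⟩, ?_⟩
  · rw [hq0, hq1, ← hP.2, lin_zero, lin_one]
    simp only [Polynomial.eval_add, Polynomial.eval_sub, Polynomial.eval_mul, Polynomial.eval_C,
      Polynomial.eval_X]
    ring
  · intro i
    refine Fin.addCases (m := 2) (n := 3) (fun l => ?_) (fun l => ?_) i
    · fin_cases l
      · exact hq0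
      · exact hq1
    · rw [lin_add, Polynomial.eval_C]
      exact congrFun hq2 l

theorem fib3_co {a b c : Om} (hab : ¬ (a = 0 ∧ b = 0)) {P : Tor} (hP : P ∈ fib3 a b c P) {q : Tor}
    (hq : q ∈ fib3 a b c P) : ∃ s, ∀ i, q.co i = (lin a b P i).eval s := by
  have h1 : a * (q.co 0 - P.co 0) + b * (q.co 1 - P.co 1) = 0 := by
    have e1 := hP.2
    have e2 := hq.2
    linear_combination e2 - e1
  have key : ∃ s, q.co 0 = P.co 0 + b * s ∧ q.co 1 = P.co 1 - a * s := by
    by_cases hb : b = 0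
    · have ha : a ≠ 0 := fun ha => hab ⟨ha, hb⟩
      refine ⟨(P.co 1 - q.co 1) / a, ?_, ?_⟩
      · rw [hb, zero_mul, add_zero] at h1 ⊢
        exact sub_eq_zero.mp ((mul_eq_zero.mp h1).resolve_left ha)
      · rw [mul_div_cancel₀ _ ha]
        ring
    · refine ⟨(q.co 0 - P.co 0) / b, ?_, ?_⟩
      · rw [mul_div_cancel₀ _ hb]
        ring
      · apply mul_left_cancel₀ hb
        field_simp
        linear_combination h1
  obtain ⟨s, hs0, hs1⟩ := key
  refine ⟨s, fun i => ?_⟩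
  refine Fin.addCases (m := 2) (n := 3) (fun l => ?_) (fun l => ?_) i
  · fin_cases l
    · show q.co 0 = (lin a b P 0).eval s
      rw [lin_zero, hs0]
      simp
    · show q.co 1 = (lin a b P 1).eval s
      rw [lin_one, hs1]
      simp
  · rw [lin_add, Polynomial.eval_C]
    exact congrFun hq.1 l

theorem eval_lin (a b : Om) (P : Tor) (s : Om) (f : MvPolynomial (Fin 5) Om) :
    (MvPolynomial.aeval (lin a b P) f).eval s =
      MvPolynomial.eval (fun i => (lin a b P i).eval s) f := by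
  rw [← Polynomial.coe_evalRingHom, ← AlgHom.coe_toRingHom, ← RingHom.comp_apply]
  have : (Polynomial.evalRingHom s).comp
      ((MvPolynomial.aeval (lin a b P) : MvPolynomial (Fin 5) Om →ₐ[Om] Polynomial Om) :
        MvPolynomial (Fin 5) Om →+* Polynomial Om) =
      (MvPolynomial.eval (fun i => (lin a b P i).eval s)) := by
    apply MvPolynomial.ringHom_ext
    · intro r
      simp
    · intro i
      simp
  exact congrArg (fun h : MvPolynomial (Fin 5) Om →+* Om => h f) this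

theorem mem_vI_fib {a b c : Om} (hab : ¬ (a = 0 ∧ b = 0)) {P : Tor} (hP : P ∈ fib3 a b c P)
    (f : MvPolynomial (Fin 5) Om) :
    f ∈ vI (fib3 a b c P) ↔ MvPolynomial.aeval (lin a b P) f = 0 := by
  constructor
  · intro hf
    have h1 : MvPolynomial.aeval (lin a b P) f * (lin a b P 0 * lin a b P 1) = 0 := by
      apply Polynomial.funext
      intro s
      rw [Polynomial.eval_zero, Polynomial.eval_mul, Polynomial.eval_mul]
      by_cases h0 : (lin a b P 0).eval s = 0
      · rw [h0]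
        ring
      by_cases h1 : (lin a b P 1).eval s = 0
      · rw [h1]
        ring
      obtain ⟨q, hq, hq'⟩ := exists_lin hP h0 h1
      have h2 := hf q hq
      rw [eval_lin]
      have h3 : (fun i => (lin a b P i).eval s) = q.co := funext fun i => (hq' i).symm
      rw [h3, h2, zero_mul]
    exact (mul_eq_zero.mp h1).resolve_right (mul_ne_zero (lin_zero_ne a b P) (lin_one_ne a b P))
  · intro hf q hq
    obtain ⟨s, hs⟩ := fib3_co hab hP hq
    have h3 : q.co = (fun i => (lin a b P i).eval s) := funext hs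
    rw [h3, ← eval_lin, hf, Polynomial.eval_zero]

theorem fib3_irr {a b c : Om} (hab : ¬ (a = 0 ∧ b = 0)) {P : Tor} (hP : P ∈ fib3 a b c P) :
    IsIrreducible (fib3 a b c P) := by
  refine ⟨⟨P, hP⟩, ?_⟩
  rw [isPreirreducible_iff_isClosed_union_isClosed]
  intro A B hA hB hAB
  by_contra hcon
  push Not at hcon
  obtain ⟨k1, k2⟩ := hcon
  obtain ⟨f, hf, hf'⟩ := exists_sep hA k1
  obtain ⟨g, hg, hg'⟩ := exists_sep hB k2
  have h1 : f * g ∈ vI (fib3 a b c P) := by
    intro q hq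
    rw [map_mul]
    rcases hAB hq with h2 | h2
    · rw [hf q h2, zero_mul]
    · rw [hg q h2, mul_zero]
  rw [mem_vI_fib hab hP, map_mul, mul_eq_zero, ← mem_vI_fib hab hP, ← mem_vI_fib hab hP] at h1
  rcases h1 with h1 | h1
  · exact hf' h1
  · exact hg' h1

theorem fib3_ne {a b c : Om} (hab : ¬ (a = 0 ∧ b = 0)) {P : Tor} (hP : P ∈ fib3 a b c P) :
    fib3 a b c P ≠ {P} := by
  intro heq
  have hne : lin a b P 0 * lin a b P 1 * Polynomial.X ≠ 0 :=
    mul_ne_zero (mul_ne_zero (lin_zero_ne a b P) (lin_one_ne a b P)) Polynomial.X_ne_zero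
  obtain ⟨s, hs⟩ : ∃ s, (lin a b P 0 * lin a b P 1 * Polynomial.X).eval s ≠ 0 := by
    by_contra hcon
    push Not at hcon
    exact hne (Polynomial.funext fun y => by rw [hcon y, Polynomial.eval_zero])
  simp only [Polynomial.eval_mul, Polynomial.eval_X, mul_ne_zero_iff] at hs
  obtain ⟨⟨h0, h1⟩, h2⟩ := hs
  obtain ⟨q, hq, hq'⟩ := exists_lin hP h0 h1
  rw [heq] at hq
  have hqP : q = P := hq
  have e0 := hq' 0
  have e1 := hq' 1
  rw [hqP, lin_zero] at e0
  rw [hqP, lin_one] at e1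
  simp only [Polynomial.eval_add, Polynomial.eval_sub, Polynomial.eval_mul, Polynomial.eval_C,
    Polynomial.eval_X] at e0 e1
  have e0' : b * s = 0 := by linear_combination -e0
  have e1' : a * s = 0 := by linear_combination e1
  exact hab ⟨(mul_eq_zero.mp e1').resolve_right h2, (mul_eq_zero.mp e0').resolve_right h2⟩

section

variable {I : Ideal (P3 Om)} {u v w : P3 Om}

/-- the fibre through a point of the surface -/
theorem mem_fib3 {P : Tor} (hP : P ∈ surf3 I u v w) :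
    P ∈ fib3 (MvPolynomial.eval (tt P) u) (MvPolynomial.eval (tt P) v)
      (MvPolynomial.eval (tt P) w) P := ⟨rfl, hP.2⟩

theorem fib3_sub {P : Tor} (hP : P ∈ surf3 I u v w) :
    fib3 (MvPolynomial.eval (tt P) u) (MvPolynomial.eval (tt P) v)
      (MvPolynomial.eval (tt P) w) P ⊆ surf3 I u v w := by
  rintro q ⟨hq1, hq2⟩
  refine ⟨?_, ?_⟩
  · rw [hq1]
    exact hP.1
  · rw [hq1]
    exact hq2

theorem Hyp.ne (h : Hyp I u v w) {P : Tor} (hP : P ∈ surf3 I u v w) :
    ¬ (MvPolynomial.eval (tt P) u = 0 ∧ MvPolynomial.eval (tt P) v = 0) := by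
  rintro ⟨h1, h2⟩
  refine h.cop P hP.1 h1 h2 ?_
  rw [← hP.2, h1, h2]
  ring

/-- no coordinate is constant on the curve -/
theorem coord_not_const (h : IsCurve I) (c : Om) :
    MvPolynomial.X 0 - MvPolynomial.C c ∉ I := by
  have hm : (Pi.single 0 1 : Fin 3 → ℤ) ≠ 0 := by
    intro h0
    have := congrFun h0 0
    simp at this
  have h1 := h.indep (Pi.single 0 1) hm (Polynomial.X - Polynomial.C c) (Polynomial.X_sub_C_ne_zero c)
  rw [Polynomial.natDegree_X_sub_C, Finset.sum_range_succ, Finset.sum_range_one] at h1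
  have h2 : mp Om (Pi.single 0 1) = MvPolynomial.X 0 := by
    unfold mp
    rw [Fin.prod_univ_three]
    simp
  have h3 : mp Om (-(Pi.single 0 1 : Fin 3 → ℤ)) = 1 := by
    unfold mp
    rw [Fin.prod_univ_three]
    simp
  rw [h2, h3] at h1
  intro h4
  apply h1
  convert h4 using 1
  simp [Polynomial.coeff_X]
  ring

theorem surf3_dim (h : Hyp I u v w) : dimT (surf3 I u v w) = 2 := by
  refine le_antisymm (surf3_dim_le h) ?_
  obtain ⟨P, hP⟩ := (surf3_irr h).nonempty
  have hab := h.ne hP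
  have hPf := mem_fib3 hP
  refine two_le_dimT (A := {P}) isIrreducible_singleton (closed_singleton P)
    (fib3_irr hab hPf) (fib3_closed _ _ _ P) (surf3_irr h) (surf3_closed I u v w) ?_ ?_
    Set.Subset.rfl
  · rw [Set.ssubset_iff_subset_ne]
    exact ⟨by simpa using hPf, (fib3_ne hab hPf).symm⟩
  · rw [Set.ssubset_def]
    refine ⟨fib3_sub hP, fun hsub => ?_⟩
    obtain ⟨q, hq1, hq2, -, -, hq5⟩ := exists_q (w := w) h.curve 0 1 (Or.inl ⟨rfl, rfl⟩) h.hu h.hv
      (Polynomial.C (MvPolynomial.X 0 - MvPolynomial.C (tt P 0))) (by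
        intro h0
        have := h0 0
        rw [Polynomial.coeff_C_zero] at this
        exact coord_not_const h.curve _ this)
    apply hq5
    have h3 := (hsub (show q ∈ surf3 I u v w from ⟨hq1, hq2⟩)).1
    rw [ee_C, map_sub, MvPolynomial.eval_X, MvPolynomial.eval_C, h3, sub_self]

end

/-- agreement of monomials on the fibre -/
theorem chr_fib3 {q P : Tor} (hq : tt q = tt P) (m : Fin 5 → ℤ)
    (hP : P.chr m = 1) (h01 : q.co 0 ^ m 0 * q.co 1 ^ m 1 = P.co 0 ^ m 0 * P.co 1 ^ m 1) :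
    q.chr m = 1 := by
  have h2 : ∀ l : Fin 3, q.co (Fin.natAdd 2 l) = P.co (Fin.natAdd 2 l) := fun l => congrFun hq l
  apply Units.ext
  rw [chr_split, h01]
  simp only [h2]
  rw [← chr_split, hP]

/-- the conditions of the main theorem hold at a maximal point -/
theorem conditions {V : Set Tor} (hcl : IsClosed V) (hdim : dimT V = 2) {P : Tor}
    (hmax : IsMaxPoint V P) {a b c : Om} (hab : ¬ (a = 0 ∧ b = 0)) (hPf : P ∈ fib3 a b c P)
    (hfV : fib3 a b c P ⊆ V) : a ≠ 0 ∧ b ≠ 0 ∧ c ≠ 0 ∧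
      (∃ M : Fin 3 → Fin 5 → ℤ, LinearIndependent ℤ M ∧ ∀ i, P.chr (M i) = 1) ∧
      ¬ ∃ N : Fin 2 → Fin 3 → ℤ, LinearIndependent ℤ N ∧
        ∀ i, ∏ j : Fin 3, P.co (Fin.natAdd 2 j) ^ N i j = 1 := by
  have hrk := (max_rank hdim hmax).2
  have hno : ∀ Λ : Submodule ℤ (Fin 5 → ℤ), 2 ≤ Module.finrank ℤ Λ →
      ¬ ∀ q ∈ fib3 a b c P, ∀ m ∈ Λ, q.chr m = 1 := fun Λ hr hsub =>
    no_lattice hcl hdim hmax (fib3_irr hab hPf) (fib3_closed a b c P) hPf (fib3_ne hab hPf) hfV
      Λ hr hsub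
  have heq := hPf.2
  have hu : a ≠ 0 := by
    intro hu0
    have hv0 : b ≠ 0 := fun hv0 => hab ⟨hu0, hv0⟩
    refine hno (rel P ⊓ LinearMap.ker (LinearMap.proj (R := ℤ) 0))
      (by have := rank_ker (rel P) (LinearMap.proj (R := ℤ) 0); omega) ?_
    rintro q hq m ⟨hm1, hm2⟩
    have hm0 : m 0 = 0 := hm2
    refine chr_fib3 hq.1 m hm1 ?_
    have e1 := hq.2
    have e2 : q.co 1 = P.co 1 := by
      apply mul_left_cancel₀ hv0
      rw [hu0, zero_mul, zero_add] at e1 heq
      rw [e1, heq]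
    rw [hm0, zpow_zero, zpow_zero, e2]
  have hv : b ≠ 0 := by
    intro hv0
    refine hno (rel P ⊓ LinearMap.ker (LinearMap.proj (R := ℤ) 1))
      (by have := rank_ker (rel P) (LinearMap.proj (R := ℤ) 1); omega) ?_
    rintro q hq m ⟨hm1, hm2⟩
    have hm0 : m 1 = 0 := hm2
    refine chr_fib3 hq.1 m hm1 ?_
    have e1 := hq.2
    have e2 : q.co 0 = P.co 0 := by
      apply mul_left_cancel₀ hu
      rw [hv0, zero_mul, add_zero] at e1 heq
      rw [e1, heq]
    rw [hm0, zpow_zero, zpow_zero, e2]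
  refine ⟨hu, hv, ?_, ?_, ?_⟩
  · intro hw0
    refine hno (rel P ⊓ LinearMap.ker
      (LinearMap.proj (R := ℤ) (φ := fun _ : Fin 5 => ℤ) 0 +
        LinearMap.proj (R := ℤ) (φ := fun _ : Fin 5 => ℤ) 1))
      (by have := rank_ker (rel P) (LinearMap.proj (R := ℤ) (φ := fun _ : Fin 5 => ℤ) 0 +
            LinearMap.proj (R := ℤ) (φ := fun _ : Fin 5 => ℤ) 1)
          omega) ?_
    rintro q hq m ⟨hm1, hm2⟩
    have hm0 : m 0 + m 1 = 0 := hm2
    refine chr_fib3 hq.1 m hm1 ?_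
    have e1 := hq.2
    have e2 : q.co 0 * P.co 1 = P.co 0 * q.co 1 := by
      apply mul_left_cancel₀ hu
      rw [hw0] at e1 heq
      linear_combination (P.co 1) * e1 - (q.co 1) * heq
    have hm1' : m 1 = - m 0 := by omega
    rw [hm1', zpow_neg, zpow_neg, ← div_eq_mul_inv, ← div_eq_mul_inv, ← div_zpow, ← div_zpow]
    congr 1
    rw [div_eq_div_iff (co_ne q 1) (co_ne P 1)]
    exact e2
  · obtain ⟨M, hM1, hM2⟩ := exists_indep (rel P) 3 hrk
    exact ⟨M, hM1, hM2⟩
  · rintro ⟨N, hN1, hN2⟩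
    obtain ⟨Λ, hΛ1, hΛ2, hΛ3⟩ := rank_of_two P N hN1 hN2
    refine hno Λ hΛ3 ?_
    intro q hq m hm
    refine chr_fib3 hq.1 m (hΛ1 hm) ?_
    rw [(hΛ2 m hm).1, (hΛ2 m hm).2, zpow_zero, zpow_zero, zpow_zero, zpow_zero]

end Pool.Agent.Work.MP_7da6af_nt.Crv
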