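import Pool.Agent.Work.MP_7da6af_nt.Crv.MPoly
import Pool.Agent.Work.MP_7da6af_nt.Crv.Pts
import Pool.Agent.Work.MP_7da6af_nt.ML

/-! # Finitely many points of the curve: bounded height -/

set_option autoImplicit false

namespace Pool.Agent.Work.MP_7da6af_nt.Crv

open NumberField Polynomial

variable {k : Type} [Field k] [NumberField k]

/-- the values of `u`, `v`, `w` -/
theorem uvw (D : Dat k) (B : ℝ) : ∃ C : ℝ, 0 ≤ C ∧
    ∀ (K : Type) [Field K] [NumberField K] (φ : k →+* K) (x z : K) (t : Fin 3 → K),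
      Pt D K φ x z t → (∀ l, hh (t l) ≤ B * dg K) →
      hh (e3 φ t D.u) ≤ C * dg K ∧ hh (e3 φ t D.v) ≤ C * dg K ∧
        hh (e3 φ t D.w) ≤ C * dg K := by
  obtain ⟨Cu, hCu, h1⟩ := mhh_bdd D.u B
  obtain ⟨Cv, hCv, h2⟩ := mhh_bdd D.v B
  obtain ⟨Cw, hCw, h3⟩ := mhh_bdd D.w B
  refine ⟨Cu + Cv + Cw, by positivity, fun K _ _ φ x z t h ht => ?_⟩
  have hd : 0 < dg K := dg_pos
  refine ⟨(h1 K φ t ht h.hu).trans ?_, (h2 K φ t ht h.hv).trans ?_, (h3 K φ t ht h.hw).trans ?_⟩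
  · exact mul_le_mul_of_nonneg_right (by linarith) hd.le
  · exact mul_le_mul_of_nonneg_right (by linarith) hd.le
  · exact mul_le_mul_of_nonneg_right (by linarith) hd.le

/-- one point `τ` -/
theorem fixedPt (D : Dat k) (B : ℝ) (N : Type) [Field N] [NumberField N] (ν : k →+* N)
    (τ : Fin 3 → N) : ∃ C : ℝ, 0 ≤ C ∧
    ∀ (K : Type) [Field K] [NumberField K] (φ : k →+* K) (x z : K) (t : Fin 3 → K),
      Pt D K φ x z t → (∀ l, hh (t l) ≤ B * dg K) →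
      (∃ (L : Type) (_ : Field L) (_ : NumberField L) (f : K →+* L) (g : N →+* L),
        f.comp φ = g.comp ν ∧ ∀ l, f (t l) = g (τ l)) → hh x ≤ C * dg K := by
  classical
  let l : Fin 5 → N := ![τ 0, τ 1, τ 2, e3 ν τ D.u / e3 ν τ D.w, e3 ν τ D.v / e3 ν τ D.w]
  -- values
  have hval : ∀ (K : Type) [Field K] (φ : k →+* K) (t : Fin 3 → K) (L : Type) [Field L]
      (f : K →+* L) (g : N →+* L), f.comp φ = g.comp ν → (∀ l, f (t l) = g (τ l)) →
      ∀ P : P3 k, g (e3 ν τ P) = f (e3 φ t P) := by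
    intro K _ φ t L _ f g h1 h2 P
    rw [← e3_comp, ← e3_comp, h1]
    congr 1
    funext l
    exact (h2 l).symm
  by_cases hl : ∀ i, l i ≠ 0
  swap
  · refine ⟨0, le_rfl, fun K _ _ φ x z t h _ hex => absurd ?_ hl⟩
    obtain ⟨L, _, _, f, g, h1, h2⟩ := hex
    have hP := hval K φ t L f g h1 h2
    have hne : ∀ P : P3 k, e3 φ t P ≠ 0 → e3 ν τ P ≠ 0 := fun P h3 h4 => by
      have h5 := hP P
      rw [h4, map_zero] at h5
      exact h3 ((map_eq_zero f).mp h5.symm)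
    have hτ : ∀ l, τ l ≠ 0 := fun l h3 => by
      have h4 := h2 l
      rw [h3, map_zero, map_eq_zero] at h4
      exact h.on.1 l h4
    intro i
    fin_cases i
    · exact hτ 0
    · exact hτ 1
    · exact hτ 2
    · exact div_ne_zero (hne _ h.hu) (hne _ h.hw)
    · exact div_ne_zero (hne _ h.hv) (hne _ h.hw)
  obtain ⟨C, hC, hml⟩ := ml N 5 l hl
  obtain ⟨C', hC', huvw⟩ := uvw D B
  refine ⟨C + 2 * C', by positivity, fun K _ _ φ x z t h hy hex => ?_⟩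
  obtain ⟨L, _, _, f, g, hfg, hft⟩ := hex
  have hP := hval K φ t L f g hfg hft
  obtain ⟨h1, h2, h3⟩ := huvw K φ x z t h hy
  obtain ⟨m, hm, ⟨c, hc⟩, ⟨d, hd⟩⟩ := h.dep
  have hlψ : ∀ i, g (l i) = (![f (t 0), f (t 1), f (t 2),
      f (e3 φ t D.u / e3 φ t D.w), f (e3 φ t D.v / e3 φ t D.w)] : Fin 5 → L) i := by
    intro i
    fin_cases i
    · exact (hft 0).symm
    · exact (hft 1).symm
    · exact (hft 2).symm
    · show g (e3 ν τ D.u / e3 ν τ D.w) = f (e3 φ t D.u / e3 φ t D.w)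
      rw [map_div₀, map_div₀, hP, hP]
    · show g (e3 ν τ D.v / e3 ν τ D.w) = f (e3 φ t D.v / e3 φ t D.w)
      rw [map_div₀, map_div₀, hP, hP]
  have hmon : ∀ κ : Fin 5 → ℤ, g (mon l κ) =
      f (mon t ![κ 0, κ 1, κ 2] * (e3 φ t D.u / e3 φ t D.w) ^ κ 3 *
        (e3 φ t D.v / e3 φ t D.w) ^ κ 4) := by
    intro κ
    rw [map_mon g l κ, map_mul, map_mul, map_zpow₀, map_zpow₀, map_mon f t]
    unfold mon
    simp only [hlψ, Fin.prod_univ_five, Fin.prod_univ_three]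
    simp
  have hx' : (e3 φ t D.u / e3 φ t D.w) * x ≠ 0 := mul_ne_zero (div_ne_zero h.hu h.hw) h.hx
  have hz' : (e3 φ t D.v / e3 φ t D.w) * z ≠ 0 := mul_ne_zero (div_ne_zero h.hv h.hw) h.hz
  have hw := h.hw
  have hsum : (e3 φ t D.u / e3 φ t D.w) * x + (e3 φ t D.v / e3 φ t D.w) * z = 1 := by
    have := h.heq
    field_simp
    exact this
  have hsum' : f ((e3 φ t D.u / e3 φ t D.w) * x) + f ((e3 φ t D.v / e3 φ t D.w) * z) = 1 := by
    rw [← map_add, hsum, map_one]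
  have hlast := hml L g _ _ ((map_ne_zero f).mpr hx') ((map_ne_zero f).mpr hz') hsum' m hm
    ⟨![c 0, c 1, c 2, m, 0], by
      rw [hmon, ← map_pow, mul_pow, hc]
      have e2 : (![(![c 0, c 1, c 2, (m : ℤ), 0] : Fin 5 → ℤ) 0,
          (![c 0, c 1, c 2, (m : ℤ), 0] : Fin 5 → ℤ) 1,
          (![c 0, c 1, c 2, (m : ℤ), 0] : Fin 5 → ℤ) 2] : Fin 3 → ℤ) = c := by
        funext i
        fin_cases i <;> rfl
      rw [e2]
      show f _ = f (_ * _ ^ (m : ℤ) * _ ^ (0 : ℤ))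
      rw [zpow_natCast, zpow_zero, mul_one, mul_comm]⟩
    ⟨![d 0, d 1, d 2, 0, m], by
      rw [hmon, ← map_pow, mul_pow, hd]
      have e2 : (![(![d 0, d 1, d 2, 0, (m : ℤ)] : Fin 5 → ℤ) 0,
          (![d 0, d 1, d 2, 0, (m : ℤ)] : Fin 5 → ℤ) 1,
          (![d 0, d 1, d 2, 0, (m : ℤ)] : Fin 5 → ℤ) 2] : Fin 3 → ℤ) = d := by
        funext i
        fin_cases i <;> rfl
      rw [e2]
      show f _ = f (_ * _ ^ (0 : ℤ) * _ ^ (m : ℤ))
      rw [zpow_natCast, zpow_zero, mul_one, mul_comm]⟩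
  -- back to `K`
  have hmap := hh_map f hx'
  have hdK : 0 < dg K := dg_pos
  have hdL : 0 < dg L := dg_pos
  have hlast' : hh ((e3 φ t D.u / e3 φ t D.w) * x) ≤ C * dg K := by
    have h6 : dg L * hh ((e3 φ t D.u / e3 φ t D.w) * x) ≤ dg L * (C * dg K) := by
      rw [← hmap]
      nlinarith
    exact le_of_mul_le_mul_left h6 hdL
  have hx : x = ((e3 φ t D.u / e3 φ t D.w) * x) * (e3 φ t D.w / e3 φ t D.u) := by
    have := h.hu
    field_simp
  have h4 : hh x ≤ hh ((e3 φ t D.u / e3 φ t D.w) * x) + hh (e3 φ t D.w / e3 φ t D.u) := by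
    conv_lhs => rw [hx]
    exact hh_mul_le hx' (div_ne_zero h.hw h.hu)
  have h5 := hh_div_le h.hw h.hu
  nlinarith

/-- the height of `x` when the first coordinate of `t` is a root of `Q` -/
theorem fixedQ (D : Dat k) (B : ℝ) (Q : ℤ[X]) (hQ : Q ≠ 0) : ∃ C : ℝ, 0 ≤ C ∧
    ∀ (K : Type) [Field K] [NumberField K] (φ : k →+* K) (x z : K) (t : Fin 3 → K),
      Pt D K φ x z t → (∀ l, hh (t l) ≤ B * dg K) → aeval (t 0) Q = 0 → hh x ≤ C * dg K := by
  classical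
  obtain ⟨N, _, _, ν, T, hT⟩ := finite_pts D.I D.rels Q hQ
  choose C hC0 hC using fun τ => fixedPt D B N ν τ
  refine ⟨∑ τ ∈ T, C τ, Finset.sum_nonneg fun τ _ => hC0 τ, fun K _ _ φ x z t h hy hQt => ?_⟩
  obtain ⟨L, hL1, hL2, f, g, hfg, τ, hτ, hft⟩ := hT K φ t h.on hQt
  have h1 := hC τ K φ x z t h hy ⟨L, hL1, hL2, f, g, hfg, hft⟩
  have h2 : C τ ≤ ∑ τ ∈ T, C τ := Finset.single_le_sum (fun τ _ => hC0 τ) hτ
  exact h1.trans (mul_le_mul_of_nonneg_right h2 dg_pos.le)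

end Pool.Agent.Work.MP_7da6af_nt.Crv
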