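import Pool.Agent.Work.MP_7da6af_nt.Crv.Degree
import Pool.Agent.Work.MP_7da6af_nt.Crv.Fixed
import Pool.Agent.Work.MP_7da6af_nt.Crv.C2
import Pool.Agent.Work.MP_7da6af_nt.LinAlg

/-! # The main theorem for arbitrary curves -/

set_option autoImplicit false

namespace Pool.Agent.Work.MP_7da6af_nt.Crv

open NumberField Polynomial

variable {k : Type} [Field k] [NumberField k]

theorem main (D : Dat k) : ∃ C : ℝ,
    ∀ (K : Type) [Field K] [NumberField K] (φ : k →+* K) (x z : K) (t : Fin 3 → K),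
      Pt D K φ x z t → hh x ≤ C * dg K ∧ hh z ≤ C * dg K ∧ ∀ l, hh (t l) ≤ C * dg K := by
  classical
  obtain ⟨B, hB, hc2⟩ := D.c2
  obtain ⟨H, QQ, hQQ, hdeg⟩ := degree D
  have hfm : ∀ Q : ℤ[X], ∃ C : ℝ, 0 ≤ C ∧ (Q ≠ 0 →
      ∀ (K : Type) [Field K] [NumberField K] (φ : k →+* K) (x z : K) (t : Fin 3 → K),
        Pt D K φ x z t → (∀ l, hh (t l) ≤ B * dg K) → aeval (t 0) Q = 0 →
          hh x ≤ C * dg K) := by
    intro Q
    by_cases hQ : Q = 0
    · exact ⟨0, le_rfl, fun h => absurd hQ h⟩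
    · obtain ⟨C, hC, h⟩ := fixedQ D B Q hQ
      exact ⟨C, hC, fun _ => h⟩
  choose Cf hCf0 hCf using hfm
  obtain ⟨C', hC', huvw⟩ := uvw D B
  set Cx : ℝ := |H| + ∑ Q ∈ QQ, Cf Q with hCx
  have hCx0 : 0 ≤ Cx := add_nonneg (abs_nonneg _) (Finset.sum_nonneg fun f _ => hCf0 f)
  have hx : ∀ (K : Type) [Field K] [NumberField K] (φ : k →+* K) (x z : K) (t : Fin 3 → K),
      Pt D K φ x z t → hh x ≤ Cx * dg K ∧ ∀ l, hh (t l) ≤ B * dg K := by
    intro K _ _ φ x z t h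
    have hd : 0 < dg K := dg_pos
    obtain ⟨κ, hκ, hκr⟩ := h.real_rel
    have hy := hc2 K φ t h.on κ hκ hκr
    refine ⟨?_, hy⟩
    rcases le_total (H * dg K) (hh x) with h1 | h1
    · obtain ⟨Q, hQ, hQ0⟩ := hdeg K φ x z t h h1
      have h3 := hCf Q (hQQ Q hQ) K φ x z t h hy hQ0
      have h4 : Cf Q ≤ ∑ Q ∈ QQ, Cf Q := Finset.single_le_sum (fun f _ => hCf0 f) hQ
      refine h3.trans (mul_le_mul_of_nonneg_right ?_ hd.le)
      linarith [abs_nonneg H]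
    · refine h1.trans (mul_le_mul_of_nonneg_right ?_ hd.le)
      have : 0 ≤ ∑ Q ∈ QQ, Cf Q := Finset.sum_nonneg fun f _ => hCf0 f
      linarith [le_abs_self H]
  refine ⟨Cx + B + 4 * C' + Cx + 1, fun K _ _ φ x z t h => ?_⟩
  have hd : 0 < dg K := dg_pos
  obtain ⟨h1, h2⟩ := hx K φ x z t h
  obtain ⟨h3, h4, h5⟩ := huvw K φ x z t h h2
  have hlog : Real.log 2 ≤ 1 := by
    have := Real.log_two_lt_d9
    linarith
  refine ⟨?_, ?_, fun l => ?_⟩
  · nlinarith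
  · -- z = (w - u x) / v
    have hz : z = (e3 φ t D.w - e3 φ t D.u * x) / e3 φ t D.v := by
      rw [eq_div_iff h.hv]
      linear_combination h.heq
    have hne : e3 φ t D.w - e3 φ t D.u * x ≠ 0 := by
      rw [← h.heq]
      have : e3 φ t D.u * x + e3 φ t D.v * z - e3 φ t D.u * x = e3 φ t D.v * z := by ring
      rw [this]
      exact mul_ne_zero h.hv h.hz
    have h6 : hh z ≤ hh (e3 φ t D.w - e3 φ t D.u * x) + hh (e3 φ t D.v) := by
      conv_lhs => rw [hz]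
      exact hh_div_le hne h.hv
    have h7 := hh_sub_le h.hw (mul_ne_zero h.hu h.hx) hne
    have h8 := hh_mul_le h.hu h.hx
    nlinarith
  · have h9 := h2 l
    nlinarith

/-- The final form: three independent relations on the point `(x, z, t)` of the torus of
dimension five, at most one of them (up to multiples) on `t`. -/
theorem final (I : Ideal (P3 k)) (hI : Rels I) (u v w : P3 k)
    (hstar : ∀ σ : k →+* ℂ, StarP I σ) : ∃ C : ℝ,
    ∀ (K : Type) [Field K] [NumberField K] (φ : k →+* K) (x z : K) (t : Fin 3 → K),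
      x ≠ 0 → z ≠ 0 → On I φ t → e3 φ t u ≠ 0 → e3 φ t v ≠ 0 → e3 φ t w ≠ 0 →
      e3 φ t u * x + e3 φ t v * z = e3 φ t w →
      (∃ M : Fin 3 → Fin 5 → ℤ, LinearIndependent ℤ M ∧ ∀ i, x ^ M i 0 * z ^ M i 1 *
        ∏ j : Fin 3, t j ^ M i (Fin.natAdd 2 j) = 1) →
      (¬ ∃ N : Fin 2 → Fin 3 → ℤ, LinearIndependent ℤ N ∧ ∀ i, ∏ j, t j ^ N i j = 1) →
      hh x ≤ C * dg K ∧ hh z ≤ C * dg K ∧ ∀ l, hh (t l) ≤ C * dg K := by
  let D : Dat k := ⟨I, u, v, w, c2_of_rels I hI, hstar, hI⟩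
  obtain ⟨C, hC⟩ := main D
  refine ⟨C, fun K _ _ φ x z t hx hz hon huy hvy hwy heq hM hN => ?_⟩
  obtain ⟨M, hM, hrel⟩ := hM
  have ht0 : ∀ l, t l ≠ 0 := hon.1
  -- pass to units
  let X : Kˣ := Units.mk0 x hx
  let Z : Kˣ := Units.mk0 z hz
  let T : Fin 3 → Kˣ := fun j => Units.mk0 (t j) (ht0 j)
  have hrel' : ∀ i, X ^ M i 0 * Z ^ M i 1 * ∏ j : Fin 3, T j ^ M i (Fin.natAdd 2 j) = 1 := by
    intro i
    ext
    push_cast
    exact hrel i
  have hno' : ¬ ∃ N : Fin 2 → Fin 3 → ℤ, LinearIndependent ℤ N ∧ ∀ i, ∏ j, T j ^ N i j = 1 := by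
    rintro ⟨N, hN1, hN2⟩
    refine hN ⟨N, hN1, fun i => ?_⟩
    have := congrArg Units.val (hN2 i)
    push_cast at this
    exact this
  obtain ⟨⟨κ, hκ, hκ1⟩, m, hm, ⟨c, hc⟩, ⟨d, hd⟩⟩ := linalg X Z T M hM hrel' hno'
  refine hC K φ x z t ⟨hx, hz, hon, huy, hvy, hwy, heq, ⟨κ, hκ, ?_⟩, m, hm, ⟨c, ?_⟩, ⟨d, ?_⟩⟩
  · have := congrArg Units.val hκ1
    push_cast at this
    exact this
  · have := congrArg Units.val hc
    push_cast at this
    exact this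
  · have := congrArg Units.val hd
    push_cast at this
    exact this

end Pool.Agent.Work.MP_7da6af_nt.Crv
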