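import Pool.Agent.Work.MP_7da6af_nt.Crv.Fibre
import Pool.Agent.Work.MP_7da6af_nt.Crv.Descent
import Pool.Agent.Work.MP_7da6af_nt.Crv.Main

/-! # Bounded height of the maximal torsion anomalous points, for surfaces over arbitrary curves -/

set_option autoImplicit false

namespace Pool.Agent.Work.MP_7da6af_nt.Crv

open Pool.Agent.Work.MP_7da6af_nt Anom
open NumberField IntermediateField

/-- finitely many algebraic numbers lie in an extension of a given number field -/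
theorem exists_field' {k : Type} [Field k] [NumberField k] (ι : k →+* Om) {n : ℕ} (x : Fin n → Om) :
    ∃ (K : Type) (_ : Field K) (_ : NumberField K) (φ : k →+* K) (j : K →+* Om) (x' : Fin n → K),
      j.comp φ = ι ∧ ∀ i, j (x' i) = x i := by
  let f : k →ₐ[ℚ] Om := ι.toRatAlgHom
  have h0 : FiniteDimensional ℚ f.fieldRange := by
    let g : k →ₗ[ℚ] f.fieldRange :=
      { toFun := fun a => ⟨f a, a, rfl⟩
        map_add' := fun a b => Subtype.ext (map_add f a b)
        map_smul' := fun c a => Subtype.ext (f.toLinearMap.map_smul c a) }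
    refine Module.Finite.of_surjective g ?_
    rintro ⟨_, a, rfl⟩
    exact ⟨a, rfl⟩
  have h1 : FiniteDimensional ℚ (adjoin ℚ (Set.range x)) :=
    finiteDimensional_adjoin fun y _ => isInt y
  let S : IntermediateField ℚ Om := f.fieldRange ⊔ adjoin ℚ (Set.range x)
  have hS : FiniteDimensional ℚ S := inferInstance
  have hN : NumberField S := {}
  have hι : ∀ a, ι a ∈ S := fun a => (le_sup_left : f.fieldRange ≤ S) ⟨a, rfl⟩
  have hx : ∀ i, x i ∈ S := fun i =>
    (le_sup_right : adjoin ℚ (Set.range x) ≤ S) (subset_adjoin ℚ _ ⟨i, rfl⟩)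
  exact ⟨S, inferInstance, hN, ι.codRestrict S hι, algebraMap S Om, fun i => ⟨x i, hx i⟩,
    RingHom.ext fun a => rfl, fun i => rfl⟩

/-- embeddings of a number field extend -/
theorem exists_ext {k : Type} [Field k] [NumberField k] (ι : k →+* Om) (σ₀ : k →+* ℂ) :
    ∃ σ : Om →+* ℂ, σ.comp ι = σ₀ := by
  let : Algebra k Om := ι.toAlgebra
  let : Algebra k ℂ := σ₀.toAlgebra
  have : IsScalarTower ℚ k Om := IsScalarTower.of_algebraMap_eq' (RingHom.ext_rat _ _)
  have : Algebra.IsAlgebraic ℚ Om := AlgebraicClosure.isAlgebraic ℚ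
  have : Algebra.IsAlgebraic k Om := Algebra.IsAlgebraic.tower_top (K := ℚ) k
  let g : Om →ₐ[k] ℂ := IsAlgClosed.lift
  exact ⟨g.toRingHom, RingHom.ext fun a => g.commutes a⟩

theorem e3_map' {k : Type} [Field k] {K L : Type} [Field K] [Field L] (ι : k →+* K)
    (σ : K →+* L) (t : Fin 3 → L) (f : P3 k) :
    e3 σ t (MvPolynomial.map ι f) = e3 (σ.comp ι) t f := MvPolynomial.eval₂_map _ _ _ _

theorem e3_comp' {k : Type} [Field k] {K L : Type} [Field K] [Field L] (φ : k →+* K)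
    (j : K →+* L) (t : Fin 3 → K) (f : P3 k) :
    e3 (j.comp φ) (fun l => j (t l)) f = j (e3 φ t f) := by
  unfold e3
  rw [MvPolynomial.eval₂_comp_left]
  rfl

/-- zeros of the extended ideal -/
theorem zero_map {k : Type} [Field k] {K L : Type} [Field K] [Field L] (ι : k →+* K)
    (σ : K →+* L) (t : Fin 3 → L) (I₀ : Ideal (P3 k)) (h : ∀ f ∈ I₀, e3 (σ.comp ι) t f = 0)
    (f : P3 K) (hf : f ∈ I₀.map (MvPolynomial.map ι)) : e3 σ t f = 0 := by
  have h1 : I₀.map (MvPolynomial.map ι) ≤ RingHom.ker (MvPolynomial.eval₂Hom σ t) := by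
    rw [Ideal.map_le_iff_le_comap]
    intro g hg
    rw [Ideal.mem_comap, RingHom.mem_ker]
    show e3 σ t (MvPolynomial.map ι g) = 0
    rw [e3_map']
    exact h g hg
  exact h1 hf

/-- Q1 for surfaces over arbitrary curves. -/
theorem q1 (I : Ideal (P3 Om)) (hI : IsCurve I) (u v w : P3 Om) (hu : u ∉ I) (hv : v ∉ I)
    (hcop : ∀ t : Fin 3 → Om, (∀ l, t l ≠ 0) → (∀ f ∈ I, MvPolynomial.eval t f = 0) →
      MvPolynomial.eval t u = 0 → MvPolynomial.eval t v = 0 → MvPolynomial.eval t w ≠ 0)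
    (hstar : ∀ σ : Om →+* ℂ, StarP I σ) :
    IsIrreducible (surf3 I u v w) ∧ IsClosed (surf3 I u v w) ∧ dimT (surf3 I u v w) = 2 ∧
      ∃ C : ℝ, ∀ P : Tor, IsMaxPoint (surf3 I u v w) P → hgt P ≤ C := by
  classical
  have H : Hyp I u v w := ⟨hI, hu, hv, fun q h1 h2 h3 h4 =>
    hcop (tt q) (fun l => co_ne q _) h1 h2 h3 h4⟩
  have hcl := surf3_closed I u v w
  have hdim := surf3_dim H
  refine ⟨surf3_irr H, hcl, hdim, ?_⟩
  obtain ⟨k, _, _, ι, I₀, hI₀, hII, hU⟩ := descent I hI {u, v, w}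
  obtain ⟨u₀, hu₀⟩ := hU u (by simp)
  obtain ⟨v₀, hv₀⟩ := hU v (by simp)
  obtain ⟨w₀, hw₀⟩ := hU w (by simp)
  have hstar₀ : ∀ σ : k →+* ℂ, StarP I₀ σ := by
    intro σ₀ d hd S
    obtain ⟨σ, hσ⟩ := exists_ext ι σ₀
    refine (hstar σ d hd S).subset ?_
    rintro t ⟨⟨h1, h2⟩, h3⟩
    refine ⟨⟨h1, ?_⟩, h3⟩
    rw [hII]
    intro f hf
    exact zero_map ι σ t I₀ (fun g hg => by rw [hσ]; exact h2 g hg) f hf
  obtain ⟨C, hC⟩ := final I₀ (rels_of_curve I₀ hI₀) u₀ v₀ w₀ hstar₀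
  refine ⟨5 * C, fun P hP => ?_⟩
  have hPV := (max_rank hdim hP).1
  obtain ⟨hu1, hv1, hw1, ⟨M, hM1, hM2⟩, hN⟩ :=
    conditions hcl hdim hP (H.ne hPV) (mem_fib3 hPV) (fib3_sub hPV)
  obtain ⟨K, _, _, φ, j, x', hφ, hx'⟩ := exists_field' ι P.co
  have hj : Function.Injective j := j.injective
  have hx0 : ∀ i, x' i ≠ 0 := fun i h0 => co_ne P i (by rw [← hx', h0, map_zero])
  set t : Fin 3 → K := fun l => x' (Fin.natAdd 2 l) with ht
  have htj : ∀ l, j (t l) = P.co (Fin.natAdd 2 l) := fun l => hx' _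
  have hev : ∀ f : P3 k, j (e3 φ t f) = MvPolynomial.eval (tt P) (MvPolynomial.map ι f) := by
    intro f
    rw [← e3_comp', hφ]
    have : (fun l => j (t l)) = tt P := funext htj
    rw [this, MvPolynomial.eval_map]
    rfl
  have hne : ∀ f : P3 k, MvPolynomial.eval (tt P) (MvPolynomial.map ι f) ≠ 0 → e3 φ t f ≠ 0 := by
    intro f hf h0
    apply hf
    rw [← hev, h0, map_zero]
  obtain ⟨b1, b2, b3⟩ := hC K φ (x' 0) (x' 1) t (hx0 0) (hx0 1)
    ⟨fun l => hx0 _, fun f hf => by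
      apply hj
      rw [hev, map_zero]
      apply hPV.1
      rw [hII]
      exact Ideal.mem_map_of_mem _ hf⟩
    (hne u₀ (by rw [hu₀]; exact hu1)) (hne v₀ (by rw [hv₀]; exact hv1))
    (hne w₀ (by rw [hw₀]; exact hw1))
    (by
      apply hj
      rw [map_add, map_mul, map_mul, hev, hev, hev, hu₀, hv₀, hw₀, hx', hx']
      exact hPV.2)
    ⟨M, hM1, fun l => by
      apply hj
      rw [map_one, map_mul, map_mul, map_zpow₀, map_zpow₀, map_prod, hx', hx']
      simp only [map_zpow₀, htj]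
      rw [← chr_split, hM2 l]
      rfl⟩
    (by
      rintro ⟨N, hN1, hN2⟩
      refine hN ⟨N, hN1, fun l => ?_⟩
      have := congrArg j (hN2 l)
      rw [map_prod, map_one] at this
      simp only [map_zpow₀, htj] at this
      exact this)
  have hd : 0 < dg K := dg_pos
  have hb : ∀ a : K, a ≠ 0 → hh a ≤ C * dg K → NumberField.absLogHeight₁ (j a) ≤ C := by
    intro a ha hab
    rw [absLogHeight_map j a ha, div_le_iff₀ hd]
    exact hab
  have h0 := hb _ (hx0 0) b1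
  have h1 := hb _ (hx0 1) b2
  have h2 : ∀ l : Fin 3, NumberField.absLogHeight₁ (P.co (Fin.natAdd 2 l)) ≤ C := by
    intro l
    rw [← htj l]
    exact hb _ (hx0 _) (b3 l)
  rw [hx'] at h0 h1
  unfold hgt
  rw [Fin.sum_univ_five]
  have c2 := h2 0
  have c3 := h2 1
  have c4 := h2 2
  have e2 : P.co (Fin.natAdd 2 (0 : Fin 3)) = P.co 2 := rfl
  have e3 : P.co (Fin.natAdd 2 (1 : Fin 3)) = P.co 3 := rfl
  have e4 : P.co (Fin.natAdd 2 (2 : Fin 3)) = P.co 4 := rfl
  rw [e2] at c2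
  rw [e3] at c3
  rw [e4] at c4
  linarith

end Pool.Agent.Work.MP_7da6af_nt.Crv
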