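import Pool.Agent.Work.MP_7da6af_nt.Crv.MPoly
import Pool.Agent.Work.MP_7da6af_nt.Line

/-! # Most conjugates are near three rays -/

set_option autoImplicit false

namespace Pool.Agent.Work.MP_7da6af_nt.Crv

open NumberField

variable {k : Type} [Field k] [NumberField k]

/-- the point `(u x / w, v z / w)` is on the line -/
theorem near_line {D : Dat k} {K : Type} [Field K] [NumberField K] {φ : k →+* K} {x z : K}
    {t : Fin 3 → K} (h : Pt D K φ x z t) : ∃ x' z' : K, x' ≠ 0 ∧ z' ≠ 0 ∧ x' + z' = 1 ∧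
      (∀ p : Pl K, lg p x' = lg p x + (lg p (e3 φ t D.u) - lg p (e3 φ t D.w))) ∧
      (∀ p : Pl K, lg p z' = lg p z + (lg p (e3 φ t D.v) - lg p (e3 φ t D.w))) ∧
      hh x ≤ hh x' + (hh (e3 φ t D.u) + hh (e3 φ t D.w)) := by
  have hu := h.hu
  have hv := h.hv
  have hw := h.hw
  have hx := h.hx
  have hz := h.hz
  refine ⟨e3 φ t D.u * x * (e3 φ t D.w)⁻¹, e3 φ t D.v * z * (e3 φ t D.w)⁻¹,
    mul_ne_zero (mul_ne_zero hu hx) (inv_ne_zero hw),
    mul_ne_zero (mul_ne_zero hv hz) (inv_ne_zero hw), ?_, ?_, ?_, ?_⟩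
  · rw [← add_mul, h.heq, mul_inv_cancel₀ hw]
  · intro p
    rw [lg_mul p (mul_ne_zero hu hx) (inv_ne_zero hw), lg_mul p hu hx, lg_inv]
    ring
  · intro p
    rw [lg_mul p (mul_ne_zero hv hz) (inv_ne_zero hw), lg_mul p hv hz, lg_inv]
    ring
  · have h1 : x = (e3 φ t D.u * x * (e3 φ t D.w)⁻¹) * (e3 φ t D.w / e3 φ t D.u) := by
      field_simp
    have h2 := hh_mul_le (mul_ne_zero (mul_ne_zero hu hx) (inv_ne_zero hw))
      (div_ne_zero hw hu)
    rw [← h1] at h2
    have h3 := hh_div_le hw hu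
    linarith

/-- the sum of the errors -/
theorem near_err {D : Dat k} {K : Type} [Field K] [NumberField K] {φ : k →+* K} {x z : K}
    {t : Fin 3 → K} (h : Pt D K φ x z t) {C : ℝ} (h1 : hh (e3 φ t D.u) ≤ C * dg K)
    (h2 : hh (e3 φ t D.v) ≤ C * dg K) (h3 : hh (e3 φ t D.w) ≤ C * dg K) :
    FS (fun p : Pl K => |lg p (e3 φ t D.u)| + |lg p (e3 φ t D.v)| + 2 * |lg p (e3 φ t D.w)|) ∧
      plSum K (fun p => |lg p (e3 φ t D.u)| + |lg p (e3 φ t D.v)| + 2 * |lg p (e3 φ t D.w)|) ≤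
        8 * C * dg K := by
  have fu := fs_abs h.hu
  have fv := fs_abs h.hv
  have fw := (fs_abs h.hw).smul 2
  refine ⟨(fu.add fv).add fw, ?_⟩
  rw [plSum_add (fu.add fv) fw, plSum_add fu fv, plSum_smul, plSum_abs h.hu, plSum_abs h.hv,
    plSum_abs h.hw]
  linarith

/-- heights of monomials in `x` and `z` -/
theorem near_lower {D : Dat k} {K : Type} [Field K] [NumberField K] {φ : k →+* K} {x z : K}
    {y : Fin 3 → K} (h : Pt D K φ x z y) {C : ℝ} (h1 : hh (e3 φ y D.u) ≤ C * dg K)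
    (h2 : hh (e3 φ y D.v) ≤ C * dg K) (h3 : hh (e3 φ y D.w) ≤ C * dg K) (s t : ℝ) :
    (hh x - (16 + 10 * C) * dg K) * max |s| |t| ≤
      plSum K fun p => max 0 (s * lg p x + t * lg p z) := by
  obtain ⟨x', z', hx', hz', he, lx, lz, hb⟩ := near_line h
  obtain ⟨fE, hE⟩ := near_err h h1 h2 h3
  have hl := line_lower hx' hz' he s t
  have hm : 0 ≤ max |s| |t| := le_max_of_le_left (abs_nonneg s)
  have f1 : FS fun p : Pl K => max 0 (s * lg p x' + t * lg p z') :=
    (((fs_lg hx').smul s).add ((fs_lg hz').smul t)).of_imp fun p hp => by rw [hp, max_self]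
  have f2 : FS fun p : Pl K => max 0 (s * lg p x + t * lg p z) :=
    (((fs_lg h.hx).smul s).add ((fs_lg h.hz).smul t)).of_imp fun p hp => by rw [hp, max_self]
  have h4 : plSum K (fun p => max 0 (s * lg p x' + t * lg p z')) ≤
      plSum K (fun p => max 0 (s * lg p x + t * lg p z)) + max |s| |t| * (8 * C * dg K) := by
    refine (plSum_mono f1 (f2.add (fE.smul (max |s| |t|))) fun p => ?_).trans ?_
    · refine max_le ?_ ?_
      · have : 0 ≤ max 0 (s * lg p x + t * lg p z) := le_max_left _ _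
        positivity
      · rw [lx p, lz p]
        have e1 : s * lg p x + t * lg p z ≤ max 0 (s * lg p x + t * lg p z) := le_max_right _ _
        have e2 : s * (lg p (e3 φ y D.u) - lg p (e3 φ y D.w)) ≤
            max |s| |t| * (|lg p (e3 φ y D.u)| + |lg p (e3 φ y D.w)|) := by
          refine (le_abs_self _).trans ?_
          rw [abs_mul]
          exact mul_le_mul (le_max_left _ _) (abs_sub _ _) (abs_nonneg _) hm
        have e3' : t * (lg p (e3 φ y D.v) - lg p (e3 φ y D.w)) ≤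
            max |s| |t| * (|lg p (e3 φ y D.v)| + |lg p (e3 φ y D.w)|) := by
          refine (le_abs_self _).trans ?_
          rw [abs_mul]
          exact mul_le_mul (le_max_right _ _) (abs_sub _ _) (abs_nonneg _) hm
        nlinarith
    · rw [plSum_add f2 (fE.smul (max |s| |t|)), plSum_smul]
      exact add_le_add le_rfl (mul_le_mul_of_nonneg_left hE hm)
  have h5 : (hh x - 2 * C * dg K - 16 * dg K) * max |s| |t| ≤
      (hh x' - 16 * dg K) * max |s| |t| := by
    refine mul_le_mul_of_nonneg_right ?_ hm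
    linarith
  nlinarith

/-- the matrix of the coordinates -/
theorem near_mat {D : Dat k} {K : Type} [Field K] [NumberField K] {φ : k →+* K} {x z : K}
    {t : Fin 3 → K} (h : Pt D K φ x z t) {C : ℝ} (h1 : hh (e3 φ t D.u) ≤ C * dg K)
    (h2 : hh (e3 φ t D.v) ≤ C * dg K) (h3 : hh (e3 φ t D.w) ≤ C * dg K)
    (hH : (16 + 10 * C) * dg K < hh x) :
    ∃ A : Fin 3 → Fin 2 → ℝ, ∀ (p : Pl K) (j : Fin 3),
      lg p (t j) = A j 0 * lg p x + A j 1 * lg p z := by
  obtain ⟨κ, hk, hk1⟩ := h.rel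
  obtain ⟨m, hm, ⟨c, hc⟩, ⟨d, hd⟩⟩ := h.dep
  have lx := fun p : Pl K => lg_of_pow_eq h.on.1 hm hc p
  have lz := fun p : Pl K => lg_of_pow_eq h.on.1 hm hd p
  have lk : ∀ p : Pl K, ∑ j, (κ j : ℝ) * lg p (t j) = 0 := fun p => by
    rw [← lg_mon h.on.1, hk1, lg_one]
  let M : Matrix (Fin 3) (Fin 3) ℝ :=
    Matrix.of ![fun j => (c j : ℝ) / m, fun j => (d j : ℝ) / m, fun j => (κ j : ℝ)]
  have hM : ∀ p : Pl K, M.mulVec (fun j => lg p (t j)) =
      ![lg p x, lg p z, 0] := by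
    intro p
    funext i
    fin_cases i
    · exact (lx p).symm
    · exact (lz p).symm
    · exact lk p
  have hdet : M.det ≠ 0 := by
    intro h0
    obtain ⟨r, hr, hr1⟩ := Matrix.exists_vecMul_eq_zero_iff.mpr h0
    have e1 : ∀ p : Pl K, r 0 * lg p x + r 1 * lg p z = 0 := by
      intro p
      have e2 : r ⬝ᵥ (M.mulVec (fun j => lg p (t j))) = 0 := by
        rw [Matrix.dotProduct_mulVec, hr1, zero_dotProduct]
      rw [hM p] at e2
      simpa [dotProduct, Fin.sum_univ_three] using e2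
    have e3' := near_lower h h1 h2 h3 (r 0) (r 1)
    have e4 : plSum K (fun p => max 0 (r 0 * lg p x + r 1 * lg p z)) = 0 := by
      rw [plSum_congr (G := fun _ => 0) fun p => by rw [e1 p, max_self]]
      simp [plSum]
    rw [e4] at e3'
    have e5 : max |r 0| |r 1| ≤ 0 := by
      by_contra hcon
      push Not at hcon
      have : 0 < (hh x - (16 + 10 * C) * dg K) * max |r 0| |r 1| :=
        mul_pos (by linarith) hcon
      linarith
    have e6 : r 0 = 0 := abs_nonpos_iff.mp ((le_max_left _ _).trans e5)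
    have e7 : r 1 = 0 := abs_nonpos_iff.mp ((le_max_right _ _).trans e5)
    have e8 : r 2 ≠ 0 := by
      intro e9
      apply hr
      funext i
      fin_cases i
      · exact e6
      · exact e7
      · exact e9
    apply hk
    funext j
    have e10 := congrFun hr1 j
    simp only [Matrix.vecMul, dotProduct, Fin.sum_univ_three, e6, e7, zero_mul, zero_add,
      Pi.zero_apply] at e10
    have e11 : M 2 j = (κ j : ℝ) := rfl
    rw [e11] at e10
    have e12 : (κ j : ℝ) = 0 := (mul_eq_zero.mp e10).resolve_left e8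
    exact_mod_cast e12
  have hu : IsUnit M.det := isUnit_iff_ne_zero.mpr hdet
  refine ⟨fun j => ![M⁻¹ j 0, M⁻¹ j 1], fun p j => ?_⟩
  have e1 : (fun j => lg p (t j)) = M⁻¹.mulVec ![lg p x, lg p z, 0] := by
    rw [← hM p, Matrix.mulVec_mulVec, Matrix.nonsing_inv_mul M hu, Matrix.one_mulVec]
  have e2 := congrFun e1 j
  simpa [Matrix.mulVec, dotProduct, Fin.sum_univ_three] using e2

/-- the bad places -/
theorem near_bad {K : Type} [Field K] [NumberField K] {E : Pl K → ℝ} (fE : FS E)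
    (hE : ∀ p, 0 ≤ E p) {C : ℝ} (hC : 0 ≤ C) (h : plSum K E ≤ 8 * C * dg K) :
    ∃ bad : Finset (InfinitePlace K), ∑ v ∈ bad, (v.mult : ℝ) ≤ dg K / 10 ∧
      ∀ v ∉ bad, E (Sum.inl v) ≤ 80 * (C + 1) := by
  classical
  refine ⟨Finset.univ.filter fun v => 80 * (C + 1) < E (Sum.inl v), ?_, fun v hv => ?_⟩
  swap
  · simpa using hv
  have hd : 0 < dg K := dg_pos
  have h1 : ∑ v : InfinitePlace K, (v.mult : ℝ) * E (Sum.inl v) ≤ 8 * C * dg K := by
    rw [plSum_eq fE] at h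
    have h2 : 0 ≤ ∑ᶠ v : FinitePlace K, E (Sum.inr v) := finsum_nonneg fun v => hE _
    linarith
  have h3 : ∑ v ∈ Finset.univ.filter (fun v : InfinitePlace K => 80 * (C + 1) < E (Sum.inl v)),
      (v.mult : ℝ) * (80 * (C + 1)) ≤ 8 * C * dg K := by
    refine le_trans ?_ h1
    refine (Finset.sum_le_sum fun v hv => ?_).trans
      (Finset.sum_le_sum_of_subset_of_nonneg (Finset.filter_subset _ _) fun v _ _ =>
        mul_nonneg (Nat.cast_nonneg _) (hE _))
    exact mul_le_mul_of_nonneg_left (Finset.mem_filter.mp hv).2.le (Nat.cast_nonneg _)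
  rw [← Finset.sum_mul] at h3
  have h4 : (0 : ℝ) < 80 * (C + 1) := by positivity
  have h5 : 8 * C * dg K ≤ (dg K / 10) * (80 * (C + 1)) := by nlinarith
  exact le_of_mul_le_mul_right (h3.trans h5) h4

theorem near (D : Dat k) (ε : ℝ) (hε : 0 < ε) : ∃ H : ℝ,
    ∀ (K : Type) [Field K] [NumberField K] (φ : k →+* K) (x z : K) (t : Fin 3 → K),
      Pt D K φ x z t → H * dg K ≤ hh x →
      ∃ (d : Fin 3 → Fin 3 → ℝ) (bad : Finset (InfinitePlace K)), (∀ j, ‖d j‖ = 1) ∧
        ∑ v ∈ bad, (v.mult : ℝ) ≤ dg K / 10 ∧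
        ∀ v ∉ bad, ∃ (j : Fin 3) (s : ℝ), 0 ≤ s ∧
          ∀ i, |lg (Sum.inl v) (t i) - s * d j i| ≤ ε := by
  obtain ⟨B, hB, hy⟩ := D.c2
  obtain ⟨Cu, hCu, hu⟩ := mhh_bdd D.u B
  obtain ⟨Cv, hCv, hv⟩ := mhh_bdd D.v B
  obtain ⟨Cw, hCw, hw⟩ := mhh_bdd D.w B
  set C : ℝ := Cu + Cv + Cw with hCdef
  have hC : 0 ≤ C := by positivity
  have hl4 : 0 < Real.log 4 := Real.log_pos (by norm_num)
  set Q : ℝ := 2 * Real.log 4 + 80 * (C + 1) with hQdef
  have hQ : 0 < Q := by positivity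
  refine ⟨16 + 10 * C + 1 + B * Q / ε, fun K _ _ φ x z t h hx => ?_⟩
  have hd : 0 < dg K := dg_pos
  have hcu : ∀ j, hh (t j) ≤ B * dg K := by
    obtain ⟨κ, hk, hk1⟩ := h.rel
    refine hy K φ t h.on (fun j => (κ j : ℝ)) ?_ fun p => ?_
    · intro h0
      apply hk
      funext j
      simpa using congrFun h0 j
    · rw [← lg_mon h.on.1, hk1, lg_one]
  have h1 : hh (e3 φ t D.u) ≤ C * dg K :=
    (hu K φ t hcu h.hu).trans (mul_le_mul_of_nonneg_right (by linarith) hd.le)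
  have h2 : hh (e3 φ t D.v) ≤ C * dg K :=
    (hv K φ t hcu h.hv).trans (mul_le_mul_of_nonneg_right (by linarith) hd.le)
  have h3 : hh (e3 φ t D.w) ≤ C * dg K :=
    (hw K φ t hcu h.hw).trans (mul_le_mul_of_nonneg_right (by linarith) hd.le)
  have hBQ : 0 ≤ B * Q / ε := by positivity
  have hx1 : (1 + B * Q / ε) * dg K ≤ hh x - (16 + 10 * C) * dg K := by linarith
  have hx2 : dg K ≤ (1 + B * Q / ε) * dg K := by nlinarith
  obtain ⟨A, hA⟩ := near_mat h h1 h2 h3 (by linarith)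
  -- the entries are small
  have hAs : ∀ j, max |A j 0| |A j 1| * Q ≤ ε := by
    intro j
    have e1 := near_lower h h1 h2 h3 (A j 0) (A j 1)
    have e2 : plSum K (fun p => max 0 (A j 0 * lg p x + A j 1 * lg p z)) =
        hh (t j) := by
      unfold hh
      exact plSum_congr fun p => by rw [hA p j]
    rw [e2] at e1
    have e3' := e1.trans (hcu j)
    set μ := max |A j 0| |A j 1| with hμ
    have hm : 0 ≤ μ := le_max_of_le_left (abs_nonneg _)
    have e4 : ((1 + B * Q / ε) * dg K) * μ ≤ B * dg K :=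
      (mul_le_mul_of_nonneg_right hx1 hm).trans e3'
    have e5 : (1 + B * Q / ε) * μ ≤ B := by
      refine le_of_mul_le_mul_right ?_ hd
      linarith
    by_contra hcon
    push Not at hcon
    have e6 : B ≤ B * Q / ε * μ := by
      rw [div_mul_eq_mul_div, le_div_iff₀ hε]
      nlinarith
    have e7 : μ ≤ 0 := by nlinarith
    have e8 : μ = 0 := le_antisymm e7 hm
    rw [e8, zero_mul] at hcon
    linarith
  obtain ⟨fE, hE⟩ := near_err h h1 h2 h3
  obtain ⟨bad, hbad, hgood⟩ := near_bad fE (fun p => by positivity) hC hE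
  obtain ⟨x', z', hx', hz', he, lx, lz, -⟩ := near_line h
  -- the three directions
  let W : Fin 3 → Fin 3 → ℝ := fun i j => A j 0 * rho i 0 + A j 1 * rho i 1
  have hdir : ∀ i, ∃ d : Fin 3 → ℝ, ‖d‖ = 1 ∧ W i = ‖W i‖ • d := by
    intro i
    by_cases h0 : W i = 0
    · refine ⟨fun _ => 1, ?_, ?_⟩
      · rw [pi_norm_const, norm_one]
      · rw [h0, norm_zero, zero_smul]
    · have h0' : ‖W i‖ ≠ 0 := norm_ne_zero_iff.mpr h0
      refine ⟨‖W i‖⁻¹ • W i, ?_, ?_⟩
      · rw [norm_smul, norm_inv, norm_norm, inv_mul_cancel₀ h0']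
      · rw [smul_smul, mul_inv_cancel₀ h0', one_smul]
  choose d hd1 hd2 using hdir
  refine ⟨d, bad, hd1, hbad, fun v hv => ?_⟩
  obtain ⟨i, s, hs, e1, e2⟩ := line_pt hx' hz' he (Sum.inl v)
  refine ⟨i, s * ‖W i‖, mul_nonneg hs (norm_nonneg _), fun j => ?_⟩
  have ha : ar (Sum.inl v : Pl K) = 1 := rfl
  rw [ha, one_mul] at e1 e2
  have e3' := hgood v hv
  have e4 : s * ‖W i‖ * d i j = s * (A j 0 * rho i 0 + A j 1 * rho i 1) := by
    have := congrFun (hd2 i) j
    simp only [W, Pi.smul_apply, smul_eq_mul] at this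
    rw [this]
    ring
  rw [e4, hA (Sum.inl v) j]
  have lx' := lx (Sum.inl v)
  have lz' := lz (Sum.inl v)
  have e5 : A j 0 * lg (Sum.inl v) x + A j 1 * lg (Sum.inl v) z -
      s * (A j 0 * rho i 0 + A j 1 * rho i 1) =
      A j 0 * ((lg (Sum.inl v) x' - s * rho i 0) -
        (lg (Sum.inl v) (e3 φ t D.u) - lg (Sum.inl v) (e3 φ t D.w))) +
      A j 1 * ((lg (Sum.inl v) z' - s * rho i 1) -
        (lg (Sum.inl v) (e3 φ t D.v) - lg (Sum.inl v) (e3 φ t D.w))) := by
    rw [lx', lz']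
    ring
  rw [e5]
  set μ := max |A j 0| |A j 1| with hμ
  have hm : 0 ≤ μ := le_max_of_le_left (abs_nonneg _)
  have e6 : |A j 0 * ((lg (Sum.inl v) x' - s * rho i 0) -
        (lg (Sum.inl v) (e3 φ t D.u) - lg (Sum.inl v) (e3 φ t D.w)))| ≤
      μ * (Real.log 4 + (|lg (Sum.inl v) (e3 φ t D.u)| + |lg (Sum.inl v) (e3 φ t D.w)|)) := by
    rw [abs_mul]
    refine mul_le_mul (le_max_left _ _) ?_ (abs_nonneg _) hm
    exact (abs_sub _ _).trans (add_le_add e1 (abs_sub _ _))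
  have e7 : |A j 1 * ((lg (Sum.inl v) z' - s * rho i 1) -
        (lg (Sum.inl v) (e3 φ t D.v) - lg (Sum.inl v) (e3 φ t D.w)))| ≤
      μ * (Real.log 4 + (|lg (Sum.inl v) (e3 φ t D.v)| + |lg (Sum.inl v) (e3 φ t D.w)|)) := by
    rw [abs_mul]
    refine mul_le_mul (le_max_right _ _) ?_ (abs_nonneg _) hm
    exact (abs_sub _ _).trans (add_le_add e2 (abs_sub _ _))
  refine (abs_add_le _ _).trans ((add_le_add e6 e7).trans ?_)
  refine le_trans ?_ (hAs j)
  rw [← mul_add]
  refine mul_le_mul_of_nonneg_left ?_ hm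
  rw [hQdef]
  linarith

end Pool.Agent.Work.MP_7da6af_nt.Crv
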