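import Pool.Agent.Work.MP_7da6af_nt.Crv.Defs

/-! # The relations on an irreducible curve -/

set_option autoImplicit false

namespace Pool.Agent.Work.MP_7da6af_nt.Crv

open Polynomial
open scoped IntermediateField.algebraAdjoinAdjoin

/-- the positive part of the monomial `T ^ m` -/
noncomputable def mp (k : Type) [Field k] (m : Fin 3 → ℤ) : P3 k :=
  ∏ l, MvPolynomial.X l ^ (m l).toNat

/-- `I` is the ideal of an irreducible curve in the torus of dimension three, not contained in a
coset of a proper subtorus: `I` is prime, contains no coordinate, any two elements of the quotient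
are algebraically dependent, and the monomials `T ^ m = T ^ m₊ / T ^ m₋`, `m ≠ 0`, are
transcendental. -/
structure IsCurve {k : Type} [Field k] (I : Ideal (P3 k)) : Prop where
  prime : I.IsPrime
  coord : ∀ l, MvPolynomial.X l ∉ I
  dep : ∀ f g : P3 k, ∃ R : MvPolynomial (Fin 2) k, R ≠ 0 ∧ MvPolynomial.aeval ![f, g] R ∈ I
  indep : ∀ m : Fin 3 → ℤ, m ≠ 0 → ∀ R : k[X], R ≠ 0 →
    ∑ i ∈ Finset.range (R.natDegree + 1),
      MvPolynomial.C (R.coeff i) * mp k m ^ i * mp k (-m) ^ (R.natDegree - i) ∉ I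

section points

variable {k : Type} [Field k] {K : Type} [Field K] (φ : k →+* K) (t : Fin 3 → K)

/-- `e3` as a ring homomorphism -/
noncomputable def e3H : P3 k →+* K := MvPolynomial.eval₂Hom φ t

theorem e3_eq (f : P3 k) : e3 φ t f = e3H φ t f := rfl

theorem e3H_C (c : k) : e3H φ t (MvPolynomial.C c) = φ c := MvPolynomial.eval₂Hom_C _ _ _

theorem e3H_X (l : Fin 3) : e3H φ t (MvPolynomial.X l) = t l := MvPolynomial.eval₂Hom_X' _ _ _

theorem e3H_mp (m : Fin 3 → ℤ) : e3H φ t (mp k m) = ∏ l, t l ^ (m l).toNat := by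
  unfold mp
  rw [map_prod]
  refine Finset.prod_congr rfl fun l _ => ?_
  rw [map_pow, e3H_X]

theorem mon_mul_mp (ht : ∀ l, t l ≠ 0) (m : Fin 3 → ℤ) :
    mon t m * e3H φ t (mp k (-m)) = e3H φ t (mp k m) := by
  rw [e3H_mp, e3H_mp]
  unfold mon
  rw [← Finset.prod_mul_distrib]
  refine Finset.prod_congr rfl fun l _ => ?_
  have h := Int.toNat_sub_toNat_neg (m l)
  conv_lhs => rw [← h]
  rw [zpow_sub₀ (ht l), zpow_natCast, zpow_natCast, Pi.neg_apply]
  rw [div_mul_cancel₀ _ (pow_ne_zero _ (ht l))]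

theorem e3H_mp_ne_zero (ht : ∀ l, t l ≠ 0) (m : Fin 3 → ℤ) : e3H φ t (mp k m) ≠ 0 := by
  rw [e3H_mp]
  exact Finset.prod_ne_zero_iff.mpr fun l _ => pow_ne_zero _ (ht l)

/-- the homogenised value of a polynomial in one variable at the monomial `T ^ m` -/
noncomputable def hm (a : k[X]) (b : ℕ) (m : Fin 3 → ℤ) : P3 k :=
  ∑ i ∈ Finset.range (b + 1), MvPolynomial.C (a.coeff i) * mp k m ^ i * mp k (-m) ^ (b - i)

theorem e3H_hm (ht : ∀ l, t l ≠ 0) (a : k[X]) (b : ℕ) (hb : a.natDegree ≤ b) (m : Fin 3 → ℤ) :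
    e3H φ t (hm a b m) = Gen.ev φ (mon t m) a * e3H φ t (mp k (-m)) ^ b := by
  unfold hm Gen.ev
  rw [map_sum, eval₂_eq_sum_range' φ (by omega : a.natDegree < b + 1), Finset.sum_mul]
  refine Finset.sum_congr rfl fun i hi => ?_
  have hi' : i ≤ b := by
    have := Finset.mem_range.mp hi
    omega
  rw [map_mul, map_mul, map_pow, map_pow, e3H_C, ← mon_mul_mp φ t ht m, mul_pow]
  have e : e3H φ t (mp k (-m)) ^ b = e3H φ t (mp k (-m)) ^ i * e3H φ t (mp k (-m)) ^ (b - i) := by
    rw [← pow_add, Nat.add_sub_cancel' hi']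
  rw [e]
  ring

end points

section field

variable {k : Type} [Field k] (I : Ideal (P3 k)) [I.IsPrime]

/-- the function field -/
abbrev FE : Type := FractionRing (P3 k ⧸ I)

/-- the generic point -/
noncomputable def tE (l : Fin 3) : FE I :=
  algebraMap (P3 k ⧸ I) (FE I) (Ideal.Quotient.mk I (MvPolynomial.X l))

theorem e3H_E (f : P3 k) : e3H (algebraMap k (FE I)) (tE I) f =
    algebraMap (P3 k ⧸ I) (FE I) (Ideal.Quotient.mk I f) := by
  have h : e3H (algebraMap k (FE I)) (tE I) =
      (algebraMap (P3 k ⧸ I) (FE I)).comp (Ideal.Quotient.mk I) := by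
    apply MvPolynomial.ringHom_ext
    · intro r
      rw [e3H_C, RingHom.comp_apply, IsScalarTower.algebraMap_apply k (P3 k ⧸ I) (FE I)]
      rfl
    · intro l
      rw [e3H_X]
      rfl
  rw [h]
  rfl

theorem e3H_E_eq_zero (f : P3 k) : e3H (algebraMap k (FE I)) (tE I) f = 0 ↔ f ∈ I := by
  rw [e3H_E, map_eq_zero_iff _ (IsFractionRing.injective (P3 k ⧸ I) (FE I)),
    Ideal.Quotient.eq_zero_iff_mem]

variable {I}

theorem tE_ne_zero (h : IsCurve I) (l : Fin 3) : tE I l ≠ 0 := by
  intro h0
  have : e3H (algebraMap k (FE I)) (tE I) (MvPolynomial.X l) = 0 := by rw [e3H_X, h0]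
  exact h.coord l ((e3H_E_eq_zero I _).mp this)

theorem trans_mon (h : IsCurve I) (m : Fin 3 → ℤ) (hm0 : m ≠ 0) :
    Transcendental k (mon (tE I) m) := by
  rw [transcendental_iff]
  intro R hR
  by_contra hne
  refine h.indep m hm0 R hne ?_
  have h1 := e3H_hm (algebraMap k (FE I)) (tE I) (tE_ne_zero h) R R.natDegree le_rfl m
  have h2 : Gen.ev (algebraMap k (FE I)) (mon (tE I) m) R = 0 := hR
  rw [h2, zero_mul, e3H_E_eq_zero] at h1
  exact h1

theorem trans_tE (h : IsCurve I) (l : Fin 3) : Transcendental k (tE I l) := by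
  have h1 := trans_mon h (Pi.single l 1) (by simp)
  have h2 : mon (tE I) (Pi.single l 1) = tE I l := by
    unfold mon
    rw [Finset.prod_eq_single l]
    · rw [Pi.single_eq_same, zpow_one]
    · intro j _ hj
      rw [Pi.single_eq_of_ne hj, zpow_zero]
    · intro hh
      exact absurd (Finset.mem_univ l) hh
  rwa [h2] at h1

/-- the field generated by one coordinate -/
noncomputable abbrev Kl (I : Ideal (P3 k)) [I.IsPrime] (l : Fin 3) : IntermediateField k (FE I) :=
  IntermediateField.adjoin k {tE I l}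

theorem alg_tE (h : IsCurve I) (l j : Fin 3) : IsAlgebraic (Kl I l) (tE I j) := by
  rw [← IsFractionRing.isAlgebraic_iff (Algebra.adjoin k {tE I l}) (Kl I l) (FE I)]
  by_contra hcon
  obtain ⟨R, hR, hRI⟩ := h.dep (MvPolynomial.X j) (MvPolynomial.X l)
  have hone : ∀ i : Fin 2, i ≠ 0 → i = 1 := by
    intro i hi
    have h1 := i.isLt
    have h0 : i.val ≠ 0 := fun h => hi (Fin.ext h)
    exact Fin.ext (by show i.val = 1; omega)
  have hind : AlgebraicIndependent k (![tE I j, tE I l] : Fin 2 → FE I) := by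
    rw [AlgebraicIndependent.iff_transcendental_adjoin_image (0 : Fin 2)]
    constructor
    · have hs : Subsingleton {j : Fin 2 // j ≠ 0} := by
        refine ⟨fun a b => ?_⟩
        apply Subtype.ext
        rw [hone a.1 a.2, hone b.1 b.2]
      rw [algebraicIndependent_singleton_iff (⟨1, by simp⟩ : {j : Fin 2 // j ≠ 0})]
      exact trans_tE h l
    · have e : (![tE I j, tE I l] : Fin 2 → FE I) '' {0}ᶜ = {tE I l} := by
        ext x
        simp only [Set.mem_image, Set.mem_compl_iff, Set.mem_singleton_iff]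
        constructor
        · rintro ⟨i, hi, rfl⟩
          rw [hone i hi]
          rfl
        · rintro rfl
          exact ⟨1, by simp, rfl⟩
      rw [e]
      exact hcon
  have h1 : MvPolynomial.aeval (![tE I j, tE I l] : Fin 2 → FE I) R = 0 := by
    have h2 := (e3H_E_eq_zero I _).mpr hRI
    rw [e3H_E] at h2
    have h3 : algebraMap (P3 k ⧸ I) (FE I) (Ideal.Quotient.mk I
        (MvPolynomial.aeval ![MvPolynomial.X j, MvPolynomial.X l] R)) =
        MvPolynomial.aeval (![tE I j, tE I l] : Fin 2 → FE I) R := by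
      have h4 : ((algebraMap (P3 k ⧸ I) (FE I)).comp (Ideal.Quotient.mk I)).comp
          (MvPolynomial.aeval (R := k)
            (![MvPolynomial.X j, MvPolynomial.X l] : Fin 2 → P3 k)).toRingHom =
          (MvPolynomial.aeval (R := k) (![tE I j, tE I l] : Fin 2 → FE I)).toRingHom := by
        apply MvPolynomial.ringHom_ext
        · intro r
          simp only [AlgHom.toRingHom_eq_coe, RingHom.comp_apply, RingHom.coe_coe,
            MvPolynomial.aeval_C]
          rw [IsScalarTower.algebraMap_apply k (P3 k ⧸ I) (FE I)]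
          rfl
        · intro i
          simp only [AlgHom.toRingHom_eq_coe, RingHom.comp_apply, RingHom.coe_coe,
            MvPolynomial.aeval_X]
          fin_cases i
          · rfl
          · rfl
      exact RingHom.congr_fun h4 R
    rw [← h3]
    exact h2
  exact hR ((injective_iff_map_eq_zero _).mp hind R h1)

theorem fin_tE (h : IsCurve I) (l : Fin 3) : FiniteDimensional (Kl I l) (FE I) := by
  set L : IntermediateField (Kl I l) (FE I) :=
    IntermediateField.adjoin (Kl I l) (Set.range (tE I)) with hL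
  have hfin : FiniteDimensional (Kl I l) L := by
    apply IntermediateField.finiteDimensional_adjoin
    rintro x ⟨j, rfl⟩
    exact (alg_tE h l j).isIntegral
  have htop : L = ⊤ := by
    rw [eq_top_iff]
    intro x _
    have hmem : ∀ f : P3 k, e3H (algebraMap k (FE I)) (tE I) f ∈ L := by
      intro f
      induction f using MvPolynomial.induction_on with
      | C a =>
        rw [e3H_C, IsScalarTower.algebraMap_apply k (Kl I l) (FE I)]
        exact L.algebraMap_mem _
      | add p q hp hq =>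
        rw [map_add]
        exact L.add_mem hp hq
      | mul_X p j hp =>
        rw [map_mul, e3H_X]
        exact L.mul_mem hp (IntermediateField.subset_adjoin _ _ ⟨j, rfl⟩)
    obtain ⟨a, b, -, rfl⟩ := IsFractionRing.div_surjective (A := P3 k ⧸ I) x
    obtain ⟨f, rfl⟩ := Ideal.Quotient.mk_surjective a
    obtain ⟨g, rfl⟩ := Ideal.Quotient.mk_surjective b
    rw [← e3H_E, ← e3H_E]
    exact L.div_mem (hmem f) (hmem g)
  rw [htop] at hfin
  exact Module.Finite.equiv (IntermediateField.topEquiv (F := Kl I l) (E := FE I)).toLinearEquiv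

/-- a relation of small degree in the second variable -/
theorem small_rel (h : IsCurve I) (l : Fin 3) (ψ : FE I) :
    ∃ g : ℕ → k[X], (∃ j ∈ Finset.range (Module.finrank (Kl I l) (FE I) + 1), g j ≠ 0) ∧
      ∑ j ∈ Finset.range (Module.finrank (Kl I l) (FE I) + 1), aeval (tE I l) (g j) * ψ ^ j = 0 := by
  have hf := fin_tE h l
  set b := Module.finrank (Kl I l) (FE I) with hb
  set q := minpoly (Kl I l) ψ with hq
  have hq0 : q ≠ 0 := minpoly.ne_zero (IsIntegral.of_finite (Kl I l) ψ)
  have hfree : Module.Free (Kl I l) (FE I) := Module.Free.of_divisionRing _ _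
  have hqd : q.natDegree ≤ b := minpoly.natDegree_le ψ
  set P := IsLocalization.integerNormalization (nonZeroDivisors (Algebra.adjoin k {tE I l})) q
    with hP
  have hP0 : P ≠ 0 := by
    rw [hP, Ne, IsFractionRing.integerNormalization_eq_zero_iff]
    exact hq0
  have hPe : aeval ψ P = 0 :=
    IsLocalization.integerNormalization_aeval_eq_zero _ q (minpoly.aeval _ ψ)
  have hPd : P.natDegree ≤ b := by
    obtain ⟨c, -, hc⟩ := IsLocalization.integerNormalization_spec
      (nonZeroDivisors (Algebra.adjoin k {tE I l})) q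
    have h1 : (P.map (algebraMap (Algebra.adjoin k {tE I l}) (Kl I l))).natDegree = P.natDegree :=
      natDegree_map_eq_of_injective (IsFractionRing.injective _ _) P
    rw [← h1, hc]
    exact (natDegree_smul_le _ _).trans hqd
  have hmem : ∀ j, ∃ g : k[X], aeval (tE I l) g = ((P.coeff j : Algebra.adjoin k {tE I l}) : FE I) := by
    intro j
    have h1 : ((P.coeff j : Algebra.adjoin k {tE I l}) : FE I) ∈ Algebra.adjoin k {tE I l} :=
      (P.coeff j).2
    generalize ((P.coeff j : Algebra.adjoin k {tE I l}) : FE I) = y at h1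
    rw [Algebra.adjoin_singleton_eq_range_aeval] at h1
    exact h1
  choose g hg using hmem
  refine ⟨g, ?_, ?_⟩
  · refine ⟨P.natDegree, Finset.mem_range.mpr (by omega), ?_⟩
    intro h0
    have h1 := hg P.natDegree
    rw [h0, map_zero] at h1
    have h2 : P.coeff P.natDegree = 0 := Subtype.ext h1.symm
    exact hP0 (leadingCoeff_eq_zero.mp h2)
  · rw [aeval_eq_sum_range' (n := b + 1) (by omega)] at hPe
    rw [← hPe]
    refine Finset.sum_congr rfl fun j _ => ?_
    rw [hg, Algebra.smul_def]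
    rfl

omit [I.IsPrime] in
/-- the transposed relation -/
theorem transposed (b : ℕ) (g : ℕ → k[X]) (x ψ : FE I) (d : ℕ)
    (hd : ∀ j ∈ Finset.range (b + 1), (g j).natDegree ≤ d) :
    ∑ i ∈ Finset.range (d + 1), aeval ψ (∑ j ∈ Finset.range (b + 1),
      Polynomial.C ((g j).coeff i) * X ^ j) * x ^ i =
    ∑ j ∈ Finset.range (b + 1), aeval x (g j) * ψ ^ j := by
  have h1 : ∀ i, aeval ψ (∑ j ∈ Finset.range (b + 1),
      Polynomial.C ((g j).coeff i) * X ^ j) * x ^ i =
      ∑ j ∈ Finset.range (b + 1), algebraMap k (FE I) ((g j).coeff i) * ψ ^ j * x ^ i := by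
    intro i
    rw [map_sum, Finset.sum_mul]
    refine Finset.sum_congr rfl fun j _ => ?_
    rw [map_mul, aeval_C, map_pow, aeval_X]
  simp only [h1]
  rw [Finset.sum_comm]
  refine Finset.sum_congr rfl fun j hj => ?_
  have h2 := hd j hj
  rw [aeval_eq_sum_range' (n := d + 1) (by omega), Finset.sum_mul]
  refine Finset.sum_congr rfl fun i _ => ?_
  rw [Algebra.smul_def]
  ring

theorem rel_one (h : IsCurve I) (m : Fin 3 → ℤ) (hm0 : m ≠ 0) (l : Fin 3) :
    ∃ (d : ℕ) (a : ℕ → k[X]), (∀ i, (a i).natDegree ≤ Module.finrank (Kl I l) (FE I)) ∧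
    (∃ c : ℕ → k[X], ∑ i ∈ Finset.range (d + 1), c i * a i = 1) ∧
    ∑ i ∈ Finset.range (d + 1), aeval (mon (tE I) m) (a i) * tE I l ^ i = 0 := by
  set ψ := mon (tE I) m with hψ
  set b := Module.finrank (Kl I l) (FE I) with hb
  obtain ⟨g, ⟨j0, hj0, hgj0⟩, hrel⟩ := small_rel h l ψ
  rw [← hb] at hrel hj0
  set d := (Finset.range (b + 1)).sup fun j => (g j).natDegree with hd
  have hdj : ∀ j ∈ Finset.range (b + 1), (g j).natDegree ≤ d := fun j hj =>
    Finset.le_sup (f := fun j => (g j).natDegree) hj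
  set a : ℕ → k[X] := fun i => ∑ j ∈ Finset.range (b + 1),
    Polynomial.C ((g j).coeff i) * X ^ j with ha
  have ha1 : ∀ i, (a i).natDegree ≤ b := by
    intro i
    refine natDegree_sum_le_of_forall_le _ _ fun j hj => ?_
    have : j ≤ b := by
      have := Finset.mem_range.mp hj
      omega
    exact (natDegree_C_mul_X_pow_le _ _).trans this
  have hsum : ∑ i ∈ Finset.range (d + 1), aeval ψ (a i) * tE I l ^ i = 0 := by
    rw [← hrel]
    exact transposed b g (tE I l) ψ d hdj
  -- some `a i` is not zero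
  have hne : ∃ i ∈ Finset.range (d + 1), a i ≠ 0 := by
    refine ⟨(g j0).natDegree, Finset.mem_range.mpr (by have := hdj j0 hj0; omega), ?_⟩
    intro h0
    have h1 := congrArg (fun p => p.coeff j0) h0
    simp only [ha, finsetSum_coeff, coeff_C_mul, coeff_X_pow, coeff_zero, mul_ite, mul_one,
      mul_zero] at h1
    rw [Finset.sum_ite_eq] at h1
    rw [if_pos hj0] at h1
    exact hgj0 (leadingCoeff_eq_zero.mp h1)
  -- divide by the generator of the ideal
  set v : Fin (d + 1) → k[X] := fun i => a i with hv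
  set J : Ideal k[X] := Ideal.span (Set.range v) with hJ
  set G := Submodule.IsPrincipal.generator J with hG
  have hGmem : G ∈ J := Submodule.IsPrincipal.generator_mem J
  have hdvd : ∀ i : Fin (d + 1), G ∣ v i := fun i =>
    (Submodule.IsPrincipal.mem_iff_generator_dvd J).mp (Ideal.subset_span ⟨i, rfl⟩)
  have hG0 : G ≠ 0 := by
    intro h0
    obtain ⟨i, hi, hai⟩ := hne
    have h1 := hdvd ⟨i, Finset.mem_range.mp hi⟩
    rw [h0, zero_dvd_iff] at h1
    exact hai h1
  choose v' hv' using hdvd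
  obtain ⟨c, hc⟩ := Ideal.mem_span_range_iff_exists_fun.mp hGmem
  have hc1 : ∑ i, c i * v' i = 1 := by
    have h1 : G * ∑ i, c i * v' i = G * 1 := by
      rw [mul_one, Finset.mul_sum]
      conv_rhs => rw [← hc]
      refine Finset.sum_congr rfl fun i _ => ?_
      rw [hv' i]
      ring
    exact mul_left_cancel₀ hG0 h1
  have hGψ : aeval ψ G ≠ 0 := by
    intro h0
    exact hG0 ((transcendental_iff.mp (trans_mon h m hm0)) G h0)
  have hv'd : ∀ i, (v' i).natDegree ≤ b := by
    intro i
    by_cases h0 : v' i = 0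
    · rw [h0, natDegree_zero]
      exact Nat.zero_le _
    · have h1 : (v i).natDegree ≤ b := ha1 i
      rw [hv' i, natDegree_mul hG0 h0] at h1
      omega
  refine ⟨d, fun i => if hi : i < d + 1 then v' ⟨i, hi⟩ else 0, ?_, ?_, ?_⟩
  · intro i
    dsimp only
    split_ifs with hi
    · exact hv'd _
    · rw [natDegree_zero]
      exact Nat.zero_le _
  · refine ⟨fun i => if hi : i < d + 1 then c ⟨i, hi⟩ else 0, ?_⟩
    rw [← hc1, Finset.sum_range]
    refine Finset.sum_congr rfl fun i _ => ?_
    simp only [i.isLt, dite_true]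
  · have h1 : aeval ψ G * ∑ i ∈ Finset.range (d + 1),
        aeval ψ (if hi : i < d + 1 then v' ⟨i, hi⟩ else 0) * tE I l ^ i = 0 := by
      rw [← hsum, Finset.mul_sum]
      refine Finset.sum_congr rfl fun i hi => ?_
      have hi' := Finset.mem_range.mp hi
      rw [dif_pos hi', ← mul_assoc, ← map_mul, ← hv' ⟨i, hi'⟩]
    exact (mul_eq_zero.mp h1).resolve_left hGψ

end field

theorem rels_of_curve {k : Type} [Field k] (I : Ideal (P3 k)) (h : IsCurve I) : Rels I := by
  have := h.prime
  refine ⟨Finset.univ.sup fun l => Module.finrank (Kl I l) (FE I), fun m hm0 l => ?_⟩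
  set b := Finset.univ.sup fun l => Module.finrank (Kl I l) (FE I) with hb
  obtain ⟨d, a, ha, hc, hrel⟩ := rel_one h m hm0 l
  have hbl : Module.finrank (Kl I l) (FE I) ≤ b :=
    Finset.le_sup (f := fun l => Module.finrank (Kl I l) (FE I)) (Finset.mem_univ l)
  have hab : ∀ i, (a i).natDegree ≤ b := fun i => (ha i).trans hbl
  refine ⟨d, a, hab, hc, ?_⟩
  intro K _ φ t ht
  -- the element of the ideal
  have hF : ∀ {K' : Type} [Field K'] (φ' : k →+* K') (t' : Fin 3 → K') (_ : ∀ l, t' l ≠ 0),
      e3H φ' t' (∑ i ∈ Finset.range (d + 1), hm (a i) b m * MvPolynomial.X l ^ i) =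
      e3H φ' t' (mp k (-m)) ^ b *
        ∑ i ∈ Finset.range (d + 1), Gen.ev φ' (mon t' m) (a i) * t' l ^ i := by
    intro K' _ φ' t' ht'
    rw [map_sum, Finset.mul_sum]
    refine Finset.sum_congr rfl fun i _ => ?_
    rw [map_mul, map_pow, e3H_X, e3H_hm φ' t' ht' (a i) b (hab i) m]
    ring
  have h1 := hF (algebraMap k (FE I)) (tE I) (tE_ne_zero h)
  have h2 : ∑ i ∈ Finset.range (d + 1),
      Gen.ev (algebraMap k (FE I)) (mon (tE I) m) (a i) * tE I l ^ i = 0 := hrel
  rw [h2, mul_zero, e3H_E_eq_zero] at h1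
  have h3 := hF φ t ht.1
  have h4 : e3H φ t (∑ i ∈ Finset.range (d + 1), hm (a i) b m * MvPolynomial.X l ^ i) = 0 :=
    ht.2 _ h1
  rw [h4] at h3
  exact (mul_eq_zero.mp h3.symm).resolve_left (pow_ne_zero _ (e3H_mp_ne_zero φ t ht.1 _))

end Pool.Agent.Work.MP_7da6af_nt.Crv
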