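import Pool.Agent.Work.MP_7da6af_nt.Crv.Defs
import Pool.Agent.Work.MP_7da6af_nt.Gen.StarOf

/-! # A criterion for `StarP` -/

set_option autoImplicit false

namespace Pool.Agent.Work.MP_7da6af_nt.Crv

/-- `W` is a polynomial relation between the squares of the absolute values of the coordinates of
the curve, and the hypersurface `W = 0` contains no one dimensional subtorus. -/
theorem star_of {k : Type} [Field k] (I : Ideal (P3 k)) (σ : k →+* ℂ)
    (hfin : ∀ c : Fin 3 → ℝ, {t : Fin 3 → ℂ | On I σ t ∧ ∀ l, ‖t l‖ = c l}.Finite)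
    (W : MvPolynomial (Fin 3) ℂ)
    (hW : ∀ t : Fin 3 → ℂ, On I σ t →
      MvPolynomial.eval (fun l => ((‖t l‖ ^ 2 : ℝ) : ℂ)) W = 0)
    (htor : ∀ n : Fin 3 → ℤ, n ≠ 0 →
      ∃ τ : ℂ, τ ≠ 0 ∧ MvPolynomial.eval (fun l => τ ^ n l) W ≠ 0) : StarP I σ := by
  intro d hd S
  obtain ⟨l0, hl0⟩ : ∃ l, d l ≠ 0 := by
    by_contra h
    push Not at h
    exact hd (funext h)
  set f : ℂ → ℂ := fun t => MvPolynomial.eval (fun l => Complex.exp (2 * t * d l)) W with hf
  have hdiff : Differentiable ℂ f := by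
    have h1 : f = fun t => ∑ m ∈ W.support, W.coeff m * Complex.exp (2 * t * Gen.pr d m) :=
      funext fun t => Gen.eval_exp W d t
    rw [h1]
    fun_prop
  have hne : ¬ ∀ t : ℝ, f t = 0 := by
    intro h
    obtain ⟨n, hn, hn2⟩ := Gen.exists_torus W d hd h
    obtain ⟨τ, hτ, hτ2⟩ := htor n hn
    exact hτ2 (hn2 τ hτ)
  set A : ℝ := S / |d l0| with hA
  -- finitely many parameters
  have hroots : {t : ℂ | t ∈ Metric.closedBall (0 : ℂ) A ∧ f t = 0}.Finite := by
    by_contra hinf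
    obtain ⟨x, -, hx⟩ := Set.Infinite.exists_accPt_of_subset_isCompact hinf
      (isCompact_closedBall (0 : ℂ) A) (fun t ht => ht.1)
    have han : AnalyticOnNhd ℂ f Set.univ := hdiff.differentiableOn.analyticOnNhd isOpen_univ
    have hfr : ∃ᶠ z in nhdsWithin x {x}ᶜ, f z = 0 := by
      rw [accPt_iff_frequently_nhdsNE] at hx
      exact hx.mono fun z hz => hz.2
    have := han.eqOn_zero_of_preconnected_of_frequently_eq_zero isPreconnected_univ
      (Set.mem_univ x) hfr
    exact hne fun t => this (Set.mem_univ _)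
  have hsub : {t : Fin 3 → ℂ | On I σ t ∧ (∀ l, |L3 t l| ≤ S) ∧ ∃ s : ℝ, L3 t = s • d} ⊆
      ⋃ u ∈ {u : ℂ | u ∈ Metric.closedBall (0 : ℂ) A ∧ f u = 0},
        {t : Fin 3 → ℂ | On I σ t ∧ ∀ l, ‖t l‖ = Real.exp (u.re * d l)} := by
    rintro t ⟨hon, hS, s, hs⟩
    have hpos : ∀ l, 0 < ‖t l‖ := fun l => norm_pos_iff.2 (hon.1 l)
    have hval : ∀ l, ‖t l‖ = Real.exp (s * d l) := by
      intro l
      have h1 : L3 t l = s * d l := by rw [hs]; rfl
      rw [← h1, L3, Real.exp_log (hpos l)]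
    refine Set.mem_biUnion (x := (s : ℂ)) ⟨?_, ?_⟩ ⟨hon, fun l => by simpa using hval l⟩
    · rw [mem_closedBall_zero_iff, Complex.norm_real, Real.norm_eq_abs, hA,
        le_div_iff₀ (abs_pos.2 hl0), ← abs_mul]
      have h1 : L3 t l0 = s * d l0 := by rw [hs]; rfl
      rw [← h1]; exact hS l0
    · rw [hf]
      simp only
      rw [← hW t hon]
      congr 1
      congr 1
      funext l
      rw [hval l, ← Real.exp_nat_mul, Complex.ofReal_exp]
      congr 1
      push_cast
      ring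
  exact (hroots.biUnion fun u _ => hfin _).subset hsub

end Pool.Agent.Work.MP_7da6af_nt.Crv
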