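import Pool.Agent.Work.MP_7da6af_nt.AnomDim
import Pool.Agent.Work.MP_7da6af_nt.Crv.Rel

/-! # The surface over an arbitrary curve: irreducibility and dimension -/

set_option autoImplicit false

namespace Pool.Agent.Work.MP_7da6af_nt.Crv

open Pool.Agent.Work.MP_7da6af_nt Anom
open TopologicalSpace

/-- the last three coordinates -/
def tt (q : Tor) : Fin 3 → Om := fun l => q.co (Fin.natAdd 2 l)

/-- the surface: the points `(x, z, t)` of the torus with `t` on the curve of the ideal `I` and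
`u(t) x + v(t) z = w(t)` -/
def surf3 (I : Ideal (P3 Om)) (u v w : P3 Om) : Set Tor :=
  {q | (∀ f ∈ I, MvPolynomial.eval (tt q) f = 0) ∧
    MvPolynomial.eval (tt q) u * q.co 0 + MvPolynomial.eval (tt q) v * q.co 1 =
      MvPolynomial.eval (tt q) w}

/-- the polynomial in five variables -/
noncomputable def up (f : P3 Om) : MvPolynomial (Fin 5) Om :=
  MvPolynomial.rename (Fin.natAdd 2 : Fin 3 → Fin 5) f

theorem eval_up (q : Tor) (f : P3 Om) :
    MvPolynomial.eval q.co (up f) = MvPolynomial.eval (tt q) f := by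
  unfold up
  rw [MvPolynomial.eval_rename]
  rfl

theorem surf3_closed (I : Ideal (P3 Om)) (u v w : P3 Om) : IsClosed (surf3 I u v w) := by
  rw [isClosed_iff]
  refine ⟨(up '' I) ∪ {up u * MvPolynomial.X 0 + up v * MvPolynomial.X 1 - up w}, ?_⟩
  ext q
  simp only [zLoc, surf3, Set.mem_ofPred_eq, Set.mem_union, or_imp, forall_and,
    Set.forall_mem_image, Set.mem_singleton_iff, forall_eq, map_sub, map_add, map_mul,
    MvPolynomial.eval_X, eval_up, sub_eq_zero, SetLike.mem_coe]

/-- the Nullstellensatz in the form used here -/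
theorem exists_pt {I : Ideal (P3 Om)} (hI : I.IsPrime) {f : P3 Om} (hf : f ∉ I) :
    ∃ t : Fin 3 → Om, (∀ g ∈ I, MvPolynomial.eval t g = 0) ∧ MvPolynomial.eval t f ≠ 0 := by
  by_contra hcon
  push Not at hcon
  apply hf
  rw [← MvPolynomial.IsPrime.vanishingIdeal_zeroLocus (K := Om) I, MvPolynomial.mem_vanishingIdeal_iff]
  intro t ht
  rw [MvPolynomial.mem_zeroLocus_iff] at ht
  simpa using hcon t (fun g hg => by simpa using ht g hg)

/-- values of polynomials in one coordinate and the last three -/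
noncomputable def ee (i : Fin 5) (q : Tor) (G : Polynomial (P3 Om)) : Om :=
  Polynomial.eval₂ (MvPolynomial.eval (tt q)) (q.co i) G

theorem ee_mul (i : Fin 5) (q : Tor) (G H : Polynomial (P3 Om)) :
    ee i q (G * H) = ee i q G * ee i q H := Polynomial.eval₂_mul _ _

theorem ee_add (i : Fin 5) (q : Tor) (G H : Polynomial (P3 Om)) :
    ee i q (G + H) = ee i q G + ee i q H := Polynomial.eval₂_add _ _

theorem ee_sub (i : Fin 5) (q : Tor) (G H : Polynomial (P3 Om)) :
    ee i q (G - H) = ee i q G - ee i q H := Polynomial.eval₂_sub _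

theorem ee_C (i : Fin 5) (q : Tor) (f : P3 Om) :
    ee i q (Polynomial.C f) = MvPolynomial.eval (tt q) f := Polynomial.eval₂_C _ _

theorem ee_X (i : Fin 5) (q : Tor) : ee i q Polynomial.X = q.co i := Polynomial.eval₂_X _ _

theorem ee_pow (i : Fin 5) (q : Tor) (G : Polynomial (P3 Om)) (n : ℕ) :
    ee i q (G ^ n) = ee i q G ^ n := Polynomial.eval₂_pow _ _ _

/-- the two orders of the first two coordinates -/
def Ord (i j : Fin 5) : Prop := (i = 0 ∧ j = 1) ∨ (i = 1 ∧ j = 0)

theorem mk_tor (i j : Fin 5) (hij : Ord i j) (x z : Om) (hx : x ≠ 0) (hz : z ≠ 0)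
    (t : Fin 3 → Om) (ht : ∀ l, t l ≠ 0) : ∃ q : Tor, q.co i = x ∧ q.co j = z ∧ tt q = t := by
  rcases hij with ⟨rfl, rfl⟩ | ⟨rfl, rfl⟩
  · refine ⟨(Fin.append ![Units.mk0 x hx, Units.mk0 z hz] (fun l => Units.mk0 (t l) (ht l)) :
      Fin 5 → Omˣ), rfl, rfl, ?_⟩
    funext l
    show ((Fin.append ![Units.mk0 x hx, Units.mk0 z hz] (fun l => Units.mk0 (t l) (ht l))
      (Fin.natAdd 2 l) : Omˣ) : Om) = t l
    rw [Fin.append_right]
    rfl
  · refine ⟨(Fin.append ![Units.mk0 z hz, Units.mk0 x hx] (fun l => Units.mk0 (t l) (ht l)) :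
      Fin 5 → Omˣ), rfl, rfl, ?_⟩
    funext l
    show ((Fin.append ![Units.mk0 z hz, Units.mk0 x hx] (fun l => Units.mk0 (t l) (ht l))
      (Fin.natAdd 2 l) : Omˣ) : Om) = t l
    rw [Fin.append_right]
    rfl

section

variable {I : Ideal (P3 Om)} {u v w : P3 Om}

/-- a polynomial which is not zero modulo `I` is not zero at some point of the surface -/
theorem exists_q (hI : IsCurve I) (i j : Fin 5) (hij : Ord i j) (hu : u ∉ I) (hv : v ∉ I)
    (G : Polynomial (P3 Om)) (hG : ¬ ∀ n, G.coeff n ∈ I) :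
    ∃ q : Tor, (∀ f ∈ I, MvPolynomial.eval (tt q) f = 0) ∧
      MvPolynomial.eval (tt q) u * q.co i + MvPolynomial.eval (tt q) v * q.co j =
        MvPolynomial.eval (tt q) w ∧ MvPolynomial.eval (tt q) u ≠ 0 ∧
      MvPolynomial.eval (tt q) v ≠ 0 ∧ ee i q G ≠ 0 := by
  have hp := hI.prime
  obtain ⟨n, hn⟩ : ∃ n, G.coeff n ∉ I := by
    by_contra hcon
    push Not at hcon
    exact hG hcon
  have hH : G.coeff n * (u * (v * (MvPolynomial.X 0 * (MvPolynomial.X 1 * MvPolynomial.X 2)))) ∉ I := by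
    intro h
    rcases hp.mem_or_mem h with h | h
    · exact hn h
    rcases hp.mem_or_mem h with h | h
    · exact hu h
    rcases hp.mem_or_mem h with h | h
    · exact hv h
    rcases hp.mem_or_mem h with h | h
    · exact hI.coord 0 h
    rcases hp.mem_or_mem h with h | h
    · exact hI.coord 1 h
    · exact hI.coord 2 h
  obtain ⟨t, ht, hne⟩ := exists_pt hp hH
  simp only [map_mul, MvPolynomial.eval_X, mul_ne_zero_iff] at hne
  obtain ⟨h1, h2, h3, h4, h5, h6⟩ := hne
  have ht0 : ∀ l, t l ≠ 0 := by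
    intro l
    fin_cases l
    · exact h4
    · exact h5
    · exact h6
  set U := MvPolynomial.eval t u
  set V := MvPolynomial.eval t v
  set W := MvPolynomial.eval t w
  have hQ : (G.map (MvPolynomial.eval t)) * (Polynomial.X * (Polynomial.C W - Polynomial.C U * Polynomial.X)) ≠ 0 := by
    refine mul_ne_zero ?_ (mul_ne_zero Polynomial.X_ne_zero ?_)
    · intro h0
      apply h1
      have := congrArg (fun P => Polynomial.coeff P n) h0
      simpa using this
    · intro h0
      apply h2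
      have := congrArg (fun P => Polynomial.coeff P 1) h0
      simpa [Polynomial.coeff_X] using this
  obtain ⟨x, hx⟩ : ∃ x, ((G.map (MvPolynomial.eval t)) * (Polynomial.X *
      (Polynomial.C W - Polynomial.C U * Polynomial.X))).eval x ≠ 0 := by
    by_contra hcon
    push Not at hcon
    exact hQ (Polynomial.funext fun y => by rw [hcon y, Polynomial.eval_zero])
  simp only [Polynomial.eval_mul, Polynomial.eval_X, Polynomial.eval_sub, Polynomial.eval_C,
    mul_ne_zero_iff, Polynomial.eval_map] at hx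
  obtain ⟨hx1, hx2, hx3⟩ := hx
  obtain ⟨q, hq1, hq2, hq3⟩ := mk_tor i j hij x ((W - U * x) / V) hx2 (div_ne_zero hx3 h3) t ht0
  refine ⟨q, by rw [hq3]; exact ht, ?_, by rw [hq3]; exact h2, by rw [hq3]; exact h3, ?_⟩
  · rw [hq3, hq1, hq2]
    show U * x + V * ((W - U * x) / V) = W
    rw [mul_div_cancel₀ _ h3]
    ring
  · unfold ee
    rw [hq3, hq1]
    exact hx1

/-- the numerators of the coordinates -/
noncomputable def numer (u v w : P3 Om) (i : Fin 5) : Fin 5 → Polynomial (P3 Om) :=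
  Fin.append (if i = 0 then
      ![Polynomial.X * Polynomial.C v, Polynomial.C w - Polynomial.C u * Polynomial.X]
    else ![Polynomial.C w - Polynomial.C u * Polynomial.X, Polynomial.X * Polynomial.C v])
    (fun l : Fin 3 => Polynomial.C (MvPolynomial.X l * v))

theorem numer_spec {i j : Fin 5} (hij : Ord i j) {q : Tor}
    (h : MvPolynomial.eval (tt q) u * q.co i + MvPolynomial.eval (tt q) v * q.co j =
        MvPolynomial.eval (tt q) w) (n : Fin 5) :
    q.co n * MvPolynomial.eval (tt q) v = ee i q (numer u v w i n) := by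
  refine Fin.addCases (m := 2) (n := 3) (fun l => ?_) (fun l => ?_) n
  · rcases hij with ⟨rfl, rfl⟩ | ⟨rfl, rfl⟩
    · fin_cases l
      · show q.co 0 * _ = ee 0 q (Polynomial.X * Polynomial.C v)
        rw [ee_mul, ee_X, ee_C]
      · show q.co 1 * _ = ee 0 q (Polynomial.C w - Polynomial.C u * Polynomial.X)
        rw [ee_sub, ee_mul, ee_X, ee_C, ee_C, ← h]
        ring
    · fin_cases l
      · show q.co 0 * _ = ee 1 q (Polynomial.C w - Polynomial.C u * Polynomial.X)
        rw [ee_sub, ee_mul, ee_X, ee_C, ee_C, ← h]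
        ring
      · show q.co 1 * _ = ee 1 q (Polynomial.X * Polynomial.C v)
        rw [ee_mul, ee_X, ee_C]
  · unfold numer
    rw [Fin.append_right, ee_C, map_mul, MvPolynomial.eval_X]
    rfl

end

section

variable {I : Ideal (P3 Om)} {u v w : P3 Om} {A : Type} [CommRing A] [IsDomain A] [Algebra Om A]
  (π : P3 Om →ₐ[Om] A)

/-- the map to the field of functions on the surface -/
noncomputable def kap : Polynomial (P3 Om) →+* FractionRing (Polynomial A) :=
  (algebraMap (Polynomial A) (FractionRing (Polynomial A))).comp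
    (Polynomial.mapRingHom (π : P3 Om →+* A))

theorem kap_eq_zero (G : Polynomial (P3 Om)) :
    kap π G = 0 ↔ G.map (π : P3 Om →+* A) = 0 := by
  unfold kap
  rw [RingHom.comp_apply, Polynomial.coe_mapRingHom]
  exact (map_eq_zero_iff _ (IsFractionRing.injective (Polynomial A) (FractionRing (Polynomial A))))

theorem map_eq_zero_iff' (hπ : ∀ f, π f = 0 ↔ f ∈ I) (G : Polynomial (P3 Om)) :
    G.map (π : P3 Om →+* A) = 0 ↔ ∀ n, G.coeff n ∈ I := by
  rw [Polynomial.ext_iff]
  refine forall_congr' fun n => ?_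
  rw [Polynomial.coeff_map, Polynomial.coeff_zero]
  exact hπ _

theorem kap_C_ne (hπ : ∀ f, π f = 0 ↔ f ∈ I) {f : P3 Om} (hf : f ∉ I) :
    kap π (Polynomial.C f) ≠ 0 := by
  rw [Ne, kap_eq_zero, map_eq_zero_iff' π hπ]
  intro h
  have := h 0
  rw [Polynomial.coeff_C_zero] at this
  exact hf this

variable (u v w) in
/-- the coordinates as functions -/
noncomputable def th3 (i : Fin 5) :
    MvPolynomial (Fin 5) Om →ₐ[Om] FractionRing (Polynomial A) :=
  MvPolynomial.aeval fun n => kap π (numer u v w i n) / kap π (Polynomial.C v)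

theorem frac3 (hπ : ∀ f, π f = 0 ↔ f ∈ I) (hv : v ∉ I) {i j : Fin 5} (hij : Ord i j)
    (f : MvPolynomial (Fin 5) Om) : ∃ (G : Polynomial (P3 Om)) (m : ℕ),
    (∀ q : Tor, MvPolynomial.eval (tt q) u * q.co i + MvPolynomial.eval (tt q) v * q.co j =
        MvPolynomial.eval (tt q) w →
      MvPolynomial.eval q.co f * MvPolynomial.eval (tt q) v ^ m = ee i q G) ∧
    th3 u v w π i f * kap π (Polynomial.C v) ^ m = kap π G := by
  have hd : kap π (Polynomial.C v) ≠ 0 := kap_C_ne π hπ hv
  induction f using MvPolynomial.induction_on with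
  | C a =>
    refine ⟨Polynomial.C (MvPolynomial.C a), 0, fun q _ => by simp [ee_C], ?_⟩
    rw [pow_zero, mul_one, ← MvPolynomial.algebraMap_eq, AlgHom.commutes]
    unfold kap
    rw [RingHom.comp_apply, Polynomial.coe_mapRingHom, Polynomial.map_C]
    have h1 : (π : P3 Om →+* A) (MvPolynomial.C a) = algebraMap Om A a := by
      rw [← MvPolynomial.algebraMap_eq]
      exact π.commutes a
    rw [h1, IsScalarTower.algebraMap_apply Om (Polynomial A) (FractionRing (Polynomial A))]
    rfl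
  | add p q hp hq =>
    obtain ⟨G, m, h1, h1'⟩ := hp
    obtain ⟨H, n, h2, h2'⟩ := hq
    refine ⟨G * Polynomial.C v ^ n + H * Polynomial.C v ^ m, m + n, fun q h => ?_, ?_⟩
    · rw [map_add, ee_add, ee_mul, ee_mul, ee_pow, ee_pow, ee_C, ← h1 q h, ← h2 q h]
      ring
    · rw [map_add, map_add, map_mul, map_mul, map_pow, map_pow, ← h1', ← h2']
      ring
  | mul_X p n hp =>
    obtain ⟨G, m, h1, h1'⟩ := hp
    refine ⟨G * numer u v w i n, m + 1, fun q h => ?_, ?_⟩
    · rw [map_mul, MvPolynomial.eval_X, ee_mul, ← h1 q h, ← numer_spec hij h n]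
      ring
    · rw [map_mul, map_mul, ← h1']
      have h3 : th3 u v w π i (MvPolynomial.X n) =
        kap π (numer u v w i n) / kap π (Polynomial.C v) := MvPolynomial.aeval_X _ _
      rw [h3]
      field_simp
      ring

/-- the hypotheses on the line bundle -/
structure Hyp (I : Ideal (P3 Om)) (u v w : P3 Om) : Prop where
  curve : IsCurve I
  hu : u ∉ I
  hv : v ∉ I
  cop : ∀ q : Tor, (∀ f ∈ I, MvPolynomial.eval (tt q) f = 0) → MvPolynomial.eval (tt q) u = 0 →
    MvPolynomial.eval (tt q) v = 0 → MvPolynomial.eval (tt q) w = 0 → False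

theorem ee_zero {q : Tor} (hq : ∀ f ∈ I, MvPolynomial.eval (tt q) f = 0) (i : Fin 5)
    {G : Polynomial (P3 Om)} (hG : ∀ n, G.coeff n ∈ I) : ee i q G = 0 := by
  unfold ee
  rw [Polynomial.eval₂_eq_sum_range]
  refine Finset.sum_eq_zero fun n _ => ?_
  rw [hq _ (hG n), zero_mul]

theorem mem_vI3 (hπ : ∀ f, π f = 0 ↔ f ∈ I) (h : Hyp I u v w) (f : MvPolynomial (Fin 5) Om) :
    f ∈ vI (surf3 I u v w) ↔ th3 u v w π 0 f = 0 := by
  have h01 : Ord 0 1 := Or.inl ⟨rfl, rfl⟩
  have h10 : Ord 1 0 := Or.inr ⟨rfl, rfl⟩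
  have hd : kap π (Polynomial.C v) ≠ 0 := kap_C_ne π hπ h.hv
  obtain ⟨G, m, h1, h2⟩ := frac3 π (u := u) (w := w) hπ h.hv h01 f
  constructor
  · intro hf
    have hG : ∀ n, G.coeff n ∈ I := by
      by_contra hG
      obtain ⟨q, hq1, hq2, hq3, hq4, hq5⟩ := exists_q (w := w) h.curve 0 1 h01 h.hu h.hv G hG
      apply hq5
      rw [← h1 q hq2, hf q ⟨hq1, hq2⟩, zero_mul]
    have : kap π G = 0 := (kap_eq_zero π G).mpr ((map_eq_zero_iff' π hπ G).mpr hG)
    rw [this] at h2
    exact (mul_eq_zero.mp h2).resolve_right (pow_ne_zero _ hd)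
  · intro hf
    rw [hf, zero_mul] at h2
    have hG : ∀ n, G.coeff n ∈ I := (map_eq_zero_iff' π hπ G).mp ((kap_eq_zero π G).mp h2.symm)
    -- points with v nonzero
    have key : ∀ q : Tor, (∀ f ∈ I, MvPolynomial.eval (tt q) f = 0) →
        MvPolynomial.eval (tt q) u * q.co 0 + MvPolynomial.eval (tt q) v * q.co 1 =
        MvPolynomial.eval (tt q) w → MvPolynomial.eval (tt q) v ≠ 0 →
        MvPolynomial.eval q.co f = 0 := by
      intro q hq1 hq2 hq3
      have h3 := h1 q hq2
      rw [ee_zero hq1 0 hG] at h3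
      exact (mul_eq_zero.mp h3).resolve_right (pow_ne_zero _ hq3)
    rintro q ⟨hq1, hq2⟩
    by_cases hq3 : MvPolynomial.eval (tt q) v = 0
    swap
    · exact key q hq1 hq2 hq3
    by_cases hq4 : MvPolynomial.eval (tt q) u = 0
    · exfalso
      refine h.cop q hq1 hq4 hq3 ?_
      rw [← hq2, hq3, hq4]
      ring
    by_contra hne
    obtain ⟨G', m', h1', _⟩ := frac3 π (u := v) (w := w) hπ h.hu h10 f
    have h5 : ee 1 q G' ≠ 0 := by
      rw [← h1' q (by rw [← hq2]; ring)]
      exact mul_ne_zero hne (pow_ne_zero _ hq4)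
    have h6 : ¬ ∀ n, G'.coeff n ∈ I := fun h0 => h5 (ee_zero hq1 1 h0)
    obtain ⟨p, hp1, hp2, hp3, hp4, hp5⟩ := exists_q (w := w) h.curve 1 0 h10 h.hv h.hu G' h6
    apply hp5
    rw [← h1' p hp2, key p hp1 (by rw [← hp2]; ring) hp3, zero_mul]

include π in
theorem surf3_irr' (hπ : ∀ f, π f = 0 ↔ f ∈ I) (h : Hyp I u v w) :
    IsIrreducible (surf3 I u v w) := by
  have h01 : Ord 0 1 := Or.inl ⟨rfl, rfl⟩
  constructor
  · obtain ⟨q, hq1, hq2, -⟩ := exists_q (w := w) h.curve 0 1 h01 h.hu h.hv 1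
      (fun h0 => h.curve.prime.ne_top ((Ideal.eq_top_iff_one _).mpr (by simpa using h0 0)))
    exact ⟨q, hq1, hq2⟩
  · rw [isPreirreducible_iff_isClosed_union_isClosed]
    intro A B hA hB hAB
    by_contra hcon
    push Not at hcon
    obtain ⟨k1, k2⟩ := hcon
    obtain ⟨f, hf, hf'⟩ := exists_sep hA k1
    obtain ⟨g, hg, hg'⟩ := exists_sep hB k2
    have h1 : f * g ∈ vI (surf3 I u v w) := by
      intro q hq
      rw [map_mul]
      rcases hAB hq with h2 | h2
      · rw [hf q h2, zero_mul]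
      · rw [hg q h2, mul_zero]
    rw [mem_vI3 π hπ h, map_mul, mul_eq_zero, ← mem_vI3 π hπ h, ← mem_vI3 π hπ h] at h1
    rcases h1 with h1 | h1
    · exact hf' h1
    · exact hg' h1

/-- transcendence degree of the field of functions -/
theorem trdeg_frac' (h : Algebra.trdeg Om A ≤ 1) :
    Algebra.trdeg Om (FractionRing (Polynomial A)) ≤ 2 := by
  have hinj : FaithfulSMul Om A := by
    rw [faithfulSMul_iff_algebraMap_injective]
    exact (algebraMap Om A).injective
  have h2 := trdeg_add_eq Om A (A := Polynomial A)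
  rw [Polynomial.trdeg_of_isDomain] at h2
  have h3 := trdeg_add_eq Om (Polynomial A) (A := FractionRing (Polynomial A))
  have h4 : Algebra.trdeg (Polynomial A) (FractionRing (Polynomial A)) = 0 := by
    have : Algebra.IsAlgebraic (Polynomial A) (FractionRing (Polynomial A)) :=
      IsLocalization.isAlgebraic _ (nonZeroDivisors (Polynomial A))
    exact trdeg_eq_zero
  rw [← h3, h4, add_zero, ← h2]
  calc Algebra.trdeg Om A + 1 ≤ 1 + 1 := add_le_add h le_rfl
    _ = 2 := one_add_one_eq_two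

theorem surf3_dim_le' (hπ : ∀ f, π f = 0 ↔ f ∈ I) (h : Hyp I u v w)
    (htr : Algebra.trdeg Om A ≤ 1) : dimT (surf3 I u v w) ≤ 2 := by
  refine (dimT_le _).trans ?_
  have := vI_prime (surf3_irr' π hπ h)
  have h1 : ∀ f ∈ vI (surf3 I u v w), th3 u v w π 0 f = 0 := fun f hf => (mem_vI3 π hπ h f).mp hf
  refine ringKrullDim_le_of_trdeg (k := Om) (Ideal.Quotient.liftₐ (vI (surf3 I u v w))
    (th3 u v w π 0) h1) ?_ 2 (by exact_mod_cast trdeg_frac' htr)
  rw [injective_iff_map_eq_zero]
  intro a ha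
  obtain ⟨f, rfl⟩ := Ideal.Quotient.mk_surjective a
  rw [Ideal.Quotient.eq_zero_iff_mem, mem_vI3 π hπ h]
  exact ha

end

/-- transcendence degree of the coordinate ring -/
theorem trdeg_quot {I : Ideal (P3 Om)} (h : IsCurve I) : Algebra.trdeg Om (P3 Om ⧸ I) ≤ 1 := by
  refine ciSup_le' fun s => ?_
  have hs := s.2
  rw [Cardinal.le_one_iff_subsingleton]
  constructor
  intro a b
  by_contra hab
  obtain ⟨f, hf⟩ := Ideal.Quotient.mk_surjective a.1
  obtain ⟨g, hg⟩ := Ideal.Quotient.mk_surjective b.1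
  obtain ⟨R, hR, hR'⟩ := h.dep f g
  have hinj : Function.Injective ![a, b] := by
    intro i j hij
    fin_cases i <;> fin_cases j <;> simp_all
  have h2 : AlgebraicIndependent Om (fun i : Fin 2 => ((![a, b] i : s.1) : P3 Om ⧸ I)) :=
    hs.comp ![a, b] hinj
  apply hR
  apply h2
  rw [map_zero]
  have h3 : (fun i : Fin 2 => ((![a, b] i : s.1) : P3 Om ⧸ I)) =
      fun i => Ideal.Quotient.mkₐ Om I (![f, g] i) := by
    funext i
    fin_cases i
    · exact hf.symm
    · exact hg.symm
  rw [h3, ← MvPolynomial.comp_aeval_apply]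
  exact Ideal.Quotient.eq_zero_iff_mem.mpr hR'

section

variable {I : Ideal (P3 Om)} {u v w : P3 Om}

theorem surf3_irr (h : Hyp I u v w) : IsIrreducible (surf3 I u v w) := by
  have hI := h.curve.prime
  exact surf3_irr' (Ideal.Quotient.mkₐ Om I) (fun f => Ideal.Quotient.eq_zero_iff_mem) h

theorem surf3_dim_le (h : Hyp I u v w) : dimT (surf3 I u v w) ≤ 2 := by
  have hI := h.curve.prime
  exact surf3_dim_le' (Ideal.Quotient.mkₐ Om I) (fun f => Ideal.Quotient.eq_zero_iff_mem) h
    (trdeg_quot h.curve)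

end

end Pool.Agent.Work.MP_7da6af_nt.Crv
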