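import Pool.Agent.Work.MP_7da6af_nt.Crv.FermatIrr

/-! # Surfaces with trinomial fibres: irreducibility and dimension -/

set_option autoImplicit false

namespace Pool.Agent.Work.MP_7da6af_nt.Crv

open Pool.Agent.Work.MP_7da6af_nt Anom
open TopologicalSpace

/-- the monomial map on coordinates -/
def psi {S : Type} [Field S] (α β γ ε : ℤ) (c : Fin 5 → S) : Fin 5 → S :=
  Fin.append ![c 0 ^ α * c 1 ^ β, c 0 ^ γ * c 1 ^ ε] (fun l : Fin 3 => c (Fin.natAdd 2 l))

theorem zpow_shift {S : Type} [Field S] {x : S} (hx : x ≠ 0) (e : ℤ) (N : ℕ) (h : 0 ≤ e + N) :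
    x ^ e * x ^ N = x ^ (e + N).toNat := by
  rw [← zpow_natCast x (e + N).toNat, Int.toNat_of_nonneg h, zpow_add₀ hx, zpow_natCast]

/-- composition of a polynomial with the monomial map, up to a monomial -/
theorem pull (α β γ ε : ℤ) (f : MvPolynomial (Fin 5) Om) :
    ∃ (N : ℕ) (f' : MvPolynomial (Fin 5) Om), ∀ (S : Type) [Field S] [Algebra Om S]
      (c : Fin 5 → S), c 0 ≠ 0 → c 1 ≠ 0 →
      MvPolynomial.aeval (psi α β γ ε c) f * (c 0 * c 1) ^ N = MvPolynomial.aeval c f' := by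
  induction f using MvPolynomial.induction_on with
  | C a =>
    refine ⟨0, MvPolynomial.C a, fun S _ _ c _ _ => ?_⟩
    rw [MvPolynomial.aeval_C, MvPolynomial.aeval_C, pow_zero, mul_one]
  | add p q hp hq =>
    obtain ⟨N1, f1, h1⟩ := hp
    obtain ⟨N2, f2, h2⟩ := hq
    refine ⟨N1 + N2, f1 * (MvPolynomial.X 0 * MvPolynomial.X 1) ^ N2 +
      f2 * (MvPolynomial.X 0 * MvPolynomial.X 1) ^ N1, fun S _ _ c hc0 hc1 => ?_⟩
    rw [map_add, map_add, map_mul, map_mul, map_pow, map_pow, map_mul, MvPolynomial.aeval_X,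
      MvPolynomial.aeval_X, ← h1 S c hc0 hc1, ← h2 S c hc0 hc1]
    ring
  | mul_X p i hp =>
    obtain ⟨N1, f1, h1⟩ := hp
    have key : ∃ (K : ℕ) (g : MvPolynomial (Fin 5) Om), ∀ (S : Type) [Field S] [Algebra Om S]
        (c : Fin 5 → S), c 0 ≠ 0 → c 1 ≠ 0 →
        psi α β γ ε c i * (c 0 * c 1) ^ K = MvPolynomial.aeval c g := by
      have mono : ∀ e e' : ℤ, ∃ (K : ℕ) (g : MvPolynomial (Fin 5) Om), ∀ (S : Type) [Field S]
          [Algebra Om S] (c : Fin 5 → S), c 0 ≠ 0 → c 1 ≠ 0 →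
          c 0 ^ e * c 1 ^ e' * (c 0 * c 1) ^ K = MvPolynomial.aeval c g := by
        intro e e'
        refine ⟨(-e).toNat + (-e').toNat, MvPolynomial.X 0 ^ (e + ((-e).toNat + (-e').toNat : ℕ)).toNat *
          MvPolynomial.X 1 ^ (e' + ((-e).toNat + (-e').toNat : ℕ)).toNat,
          fun S _ _ c hc0 hc1 => ?_⟩
        rw [map_mul, map_pow, map_pow, MvPolynomial.aeval_X, MvPolynomial.aeval_X,
          ← zpow_shift hc0 e _ (by push_cast; omega), ← zpow_shift hc1 e' _ (by push_cast; omega)]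
        ring
      refine Fin.addCases (m := 2) (n := 3) (fun l => ?_) (fun l => ?_) i
      · fin_cases l
        · exact mono α β
        · exact mono γ ε
      · refine ⟨0, MvPolynomial.X (Fin.natAdd 2 l), fun S _ _ c _ _ => ?_⟩
        rw [MvPolynomial.aeval_X, pow_zero, mul_one]
        unfold psi
        rw [Fin.append_right]
    obtain ⟨K, g, hg⟩ := key
    refine ⟨N1 + K, f1 * g, fun S _ _ c hc0 hc1 => ?_⟩
    rw [map_mul, map_mul, MvPolynomial.aeval_X, ← h1 S c hc0 hc1, ← hg S c hc0 hc1]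
    ring

section

variable {I : Ideal (P3 Om)} {u v w : P3 Om}

theorem surfF_nonempty (h : Hyp I u v w) (hw : w ∉ I) (n : ℕ) (hn : 0 < n) :
    (surfF I u v w n).Nonempty := by
  obtain ⟨q, hq1, hq2, -⟩ := exists_qF h.curve (Or.inl ⟨rfl, rfl⟩ : Ord 0 1) h.hu h.hv hw n hn
    (fun _ => 1) (fun h0 => h.curve.prime.ne_top ((Ideal.eq_top_iff_one _).mpr
      (by simpa using h0 0 (Finset.mem_range.mpr hn) 0)))
  exact ⟨q, hq1, hq2⟩

theorem zpow_zpow_mul {S : Type} [Field S] {x y : S} (hx : x ≠ 0) (hy : y ≠ 0)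
    (α β γ ε a b : ℤ) : (x ^ α * y ^ β) ^ a * (x ^ γ * y ^ ε) ^ b =
      x ^ (a * α + b * γ) * y ^ (a * β + b * ε) := by
  rw [mul_zpow, mul_zpow, ← zpow_mul, ← zpow_mul, ← zpow_mul, ← zpow_mul, zpow_add₀ hx,
    zpow_add₀ hy, mul_comm α a, mul_comm β a, mul_comm γ b, mul_comm ε b]
  ring

/-- the surface with trinomial fibres is the image of a surface of Fermat type -/
theorem surfT_image (a b c d : ℤ) (hdet : a * d - b * c ≠ 0) :
    ∃ (n : ℕ) (α β γ ε : ℤ), 0 < n ∧ ∀ (I : Ideal (P3 Om)) (u v w : P3 Om),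
      (∀ q ∈ surfF I u v w n, ∃ P ∈ surfT I u v w a b c d, P.co = psi α β γ ε q.co) ∧
      ∀ P ∈ surfT I u v w a b c d, ∃ q ∈ surfF I u v w n, P.co = psi α β γ ε q.co := by
  obtain ⟨n, s, hn, hs, hsn⟩ : ∃ (n : ℕ) (s : ℤ), 0 < n ∧ s * s = 1 ∧
      s * (a * d - b * c) = n := by
    rcases lt_or_gt_of_ne hdet with h | h
    · exact ⟨(a * d - b * c).natAbs, -1, Int.natAbs_pos.mpr hdet, by norm_num, by omega⟩
    · exact ⟨(a * d - b * c).natAbs, 1, Int.natAbs_pos.mpr hdet, by norm_num, by omega⟩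
  refine ⟨n, s * d, -(s * b), -(s * c), s * a, hn, fun I u v w => ⟨?_, ?_⟩⟩
  · rintro q ⟨hq1, hq2⟩
    have h0 := co_ne q 0
    have h1 := co_ne q 1
    obtain ⟨P, hP0, hP1, hPt⟩ := mk_tor 0 1 (Or.inl ⟨rfl, rfl⟩)
      (q.co 0 ^ (s * d) * q.co 1 ^ (-(s * b))) (q.co 0 ^ (-(s * c)) * q.co 1 ^ (s * a))
      (mul_ne_zero (zpow_ne_zero _ h0) (zpow_ne_zero _ h1))
      (mul_ne_zero (zpow_ne_zero _ h0) (zpow_ne_zero _ h1)) (tt q) (fun l => co_ne q _)
    refine ⟨P, ⟨by rw [hPt]; exact hq1, ?_⟩, ?_⟩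
    · rw [hPt, hP0, hP1, zpow_zpow_mul h0 h1, zpow_zpow_mul h0 h1]
      have e1 : a * (s * d) + b * -(s * c) = n := by rw [← hsn]; ring
      have e2 : a * -(s * b) + b * (s * a) = 0 := by ring
      have e3 : c * (s * d) + d * -(s * c) = 0 := by ring
      have e4 : c * -(s * b) + d * (s * a) = n := by rw [← hsn]; ring
      rw [e1, e2, e3, e4, zpow_zero, zpow_zero, zpow_natCast, zpow_natCast, mul_one, one_mul]
      exact hq2
    · funext i
      refine Fin.addCases (m := 2) (n := 3) (fun l => ?_) (fun l => ?_) i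
      · fin_cases l
        · exact hP0
        · exact hP1
      · unfold psi
        rw [Fin.append_right]
        exact congrFun hPt l
  · rintro P ⟨hP1, hP2⟩
    obtain ⟨x, hx⟩ := IsAlgClosed.exists_pow_nat_eq (P.co 0) hn
    obtain ⟨y, hy⟩ := IsAlgClosed.exists_pow_nat_eq (P.co 1) hn
    have hx0 : x ≠ 0 := by
      rintro rfl
      rw [zero_pow hn.ne'] at hx
      exact co_ne P 0 hx.symm
    have hy0 : y ≠ 0 := by
      rintro rfl
      rw [zero_pow hn.ne'] at hy
      exact co_ne P 1 hy.symm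
    obtain ⟨q, hq0, hq1, hqt⟩ := mk_tor 0 1 (Or.inl ⟨rfl, rfl⟩)
      (x ^ a * y ^ b) (x ^ c * y ^ d) (mul_ne_zero (zpow_ne_zero _ hx0) (zpow_ne_zero _ hy0))
      (mul_ne_zero (zpow_ne_zero _ hx0) (zpow_ne_zero _ hy0)) (tt P) (fun l => co_ne P _)
    have hpw : ∀ e e' : ℤ, (x ^ e * y ^ e') ^ n = P.co 0 ^ e * P.co 1 ^ e' := by
      intro e e'
      rw [mul_pow, ← hx, ← hy]
      congr 1
      · rw [← zpow_natCast, ← zpow_natCast, ← zpow_mul, ← zpow_mul, mul_comm]
      · rw [← zpow_natCast, ← zpow_natCast, ← zpow_mul, ← zpow_mul, mul_comm]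
    refine ⟨q, ⟨by rw [hqt]; exact hP1, ?_⟩, ?_⟩
    · rw [hqt, hq0, hq1, hpw, hpw]
      exact hP2
    · funext i
      refine Fin.addCases (m := 2) (n := 3) (fun l => ?_) (fun l => ?_) i
      · have e1 : (s * d) * a + -(s * b) * c = n := by rw [← hsn]; ring
        have e2 : (s * d) * b + -(s * b) * d = 0 := by ring
        have e3 : -(s * c) * a + (s * a) * c = 0 := by ring
        have e4 : -(s * c) * b + (s * a) * d = n := by rw [← hsn]; ring
        fin_cases l
        · show P.co 0 = q.co 0 ^ (s * d) * q.co 1 ^ (-(s * b))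
          rw [hq0, hq1, zpow_zpow_mul hx0 hy0, e1, e2, zpow_zero, mul_one, zpow_natCast, hx]
        · show P.co 1 = q.co 0 ^ (-(s * c)) * q.co 1 ^ (s * a)
          rw [hq0, hq1, zpow_zpow_mul hx0 hy0, e3, e4, zpow_zero, one_mul, zpow_natCast, hy]
      · unfold psi
        rw [Fin.append_right]
        exact (congrFun hqt l).symm

/-- the functions on the surface with trinomial fibres -/
theorem exists_functionsT (h : Hyp I u v w) (hw : w ∉ I) (a b c d : ℤ)
    (hdet : a * d - b * c ≠ 0) : (surfT I u v w a b c d).Nonempty ∧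
    ∃ (E : Type) (_ : Field E) (_ : Algebra Om E) (θ : MvPolynomial (Fin 5) Om →ₐ[Om] E),
      (∀ f, f ∈ vI (surfT I u v w a b c d) ↔ θ f = 0) ∧ Algebra.trdeg Om E ≤ 2 := by
  obtain ⟨n, α, β, γ, ε, hn, him⟩ := surfT_image a b c d hdet
  obtain ⟨him1, him2⟩ := him I u v w
  obtain ⟨E, _, _, θ, hθ, htr⟩ := exists_functions h hw n hn
  obtain ⟨q₀, hq₀⟩ := surfF_nonempty h hw n hn
  have hX : ∀ i, θ (MvPolynomial.X i) ≠ 0 := by
    intro i h0
    have h1 := (hθ _).mpr h0 q₀ hq₀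
    rw [MvPolynomial.eval_X] at h1
    exact co_ne q₀ i h1
  refine ⟨?_, E, inferInstance, inferInstance,
    MvPolynomial.aeval (psi α β γ ε fun i => θ (MvPolynomial.X i)), ?_, htr⟩
  · obtain ⟨P, hP, -⟩ := him1 q₀ hq₀
    exact ⟨P, hP⟩
  · intro f
    obtain ⟨N, f', hf⟩ := pull α β γ ε f
    have h1 := hf E (fun i => θ (MvPolynomial.X i)) (hX 0) (hX 1)
    have h2 : MvPolynomial.aeval (fun i => θ (MvPolynomial.X i)) f' = θ f' :=
      (congrArg (fun g : MvPolynomial (Fin 5) Om →ₐ[Om] E => g f')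
        (MvPolynomial.aeval_unique θ)).symm
    rw [h2] at h1
    have h3 : ∀ q : Tor, MvPolynomial.eval (psi α β γ ε q.co) f * (q.co 0 * q.co 1) ^ N =
        MvPolynomial.eval q.co f' := by
      intro q
      have h5 := hf Om q.co (co_ne q 0) (co_ne q 1)
      have h6 : ∀ (c : Fin 5 → Om) (p : MvPolynomial (Fin 5) Om),
          MvPolynomial.aeval c p = MvPolynomial.eval c p := fun c p =>
        RingHom.congr_fun (MvPolynomial.coe_aeval_eq_eval c) p
      rwa [h6, h6] at h5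
    have h4 : f ∈ vI (surfT I u v w a b c d) ↔ f' ∈ vI (surfF I u v w n) := by
      constructor
      · intro hfV q hq
        obtain ⟨P, hP, hPq⟩ := him1 q hq
        have h5 := hfV P hP
        rw [hPq] at h5
        rw [← h3, h5, zero_mul]
      · intro hfF P hP
        obtain ⟨q, hq, hPq⟩ := him2 P hP
        have h5 := hfF q hq
        rw [← h3] at h5
        rw [hPq]
        exact (mul_eq_zero.mp h5).resolve_right
          (pow_ne_zero _ (mul_ne_zero (co_ne q 0) (co_ne q 1)))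
    rw [h4, hθ, ← h1, mul_eq_zero, or_iff_left]
    exact pow_ne_zero _ (mul_ne_zero (hX 0) (hX 1))

theorem surfT_irr (h : Hyp I u v w) (hw : w ∉ I) (a b c d : ℤ) (hdet : a * d - b * c ≠ 0) :
    IsIrreducible (surfT I u v w a b c d) := by
  obtain ⟨hne, E, _, _, θ, hθ, -⟩ := exists_functionsT h hw a b c d hdet
  exact irr_of_hom hne (θ : MvPolynomial (Fin 5) Om →+* E) hθ

theorem surfT_dim (h : Hyp I u v w) (hw : w ∉ I) (a b c d : ℤ) (hdet : a * d - b * c ≠ 0) :
    dimT (surfT I u v w a b c d) = 2 := by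
  have hirr := surfT_irr h hw a b c d hdet
  refine le_antisymm ?_ ?_
  · obtain ⟨hne, E, _, _, θ, hθ, htr⟩ := exists_functionsT h hw a b c d hdet
    exact dim_of_hom hirr θ hθ htr
  · obtain ⟨P, hP⟩ := hirr.nonempty
    obtain ⟨Z, hZi, hZc, hPZ, hZne, hZV, hZt⟩ := exists_fibT hP
    refine two_le_dimT (A := {P}) isIrreducible_singleton (closed_singleton P) hZi hZc hirr
      (surfT_closed I u v w a b c d) ?_ ?_ Set.Subset.rfl
    · rw [Set.ssubset_iff_subset_ne]
      exact ⟨by simpa using hPZ, hZne.symm⟩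
    · rw [Set.ssubset_def]
      refine ⟨hZV, fun hsub => ?_⟩
      obtain ⟨n, α, β, γ, ε, hn, him⟩ := surfT_image a b c d hdet
      obtain ⟨him1, -⟩ := him I u v w
      obtain ⟨q, hq1, hq2, -, -, hq5⟩ := exists_qF h.curve (Or.inl ⟨rfl, rfl⟩ : Ord 0 1) h.hu
        h.hv hw n hn
        (fun l => if l = 0 then
          Polynomial.C (MvPolynomial.X 0 - MvPolynomial.C (tt P 0)) else 0) (by
          intro h0
          have := h0 0 (Finset.mem_range.mpr hn) 0
          rw [if_pos rfl, Polynomial.coeff_C_zero] at this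
          exact coord_not_const h.curve _ this)
      obtain ⟨Q, hQ, hQq⟩ := him1 q ⟨hq1, hq2⟩
      have h3 := hZt Q (hsub hQ)
      have h4 : tt q = tt P := by
        rw [← h3]
        funext l
        show q.co (Fin.natAdd 2 l) = Q.co (Fin.natAdd 2 l)
        rw [hQq]
        unfold psi
        rw [Fin.append_right]
      apply hq5
      refine Finset.sum_eq_zero fun l _ => ?_
      split_ifs with hl
      · rw [Polynomial.eval₂_C, map_sub, MvPolynomial.eval_X, MvPolynomial.eval_C, h4, sub_self,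
          zero_mul]
      · rw [Polynomial.eval₂_zero, zero_mul]

end

/-- Q1 for surfaces with trinomial fibres over arbitrary curves. -/
theorem q1T (I : Ideal (P3 Om)) (hI : IsCurve I) (u v w : P3 Om) (hu : u ∉ I) (hv : v ∉ I)
    (hw : w ∉ I) (a b c d : ℤ) (hdet : a * d - b * c ≠ 0)
    (hcop : ∀ t : Fin 3 → Om, (∀ l, t l ≠ 0) → (∀ f ∈ I, MvPolynomial.eval t f = 0) →
      MvPolynomial.eval t u = 0 → MvPolynomial.eval t v = 0 → MvPolynomial.eval t w ≠ 0)
    (hstar : ∀ σ : Om →+* ℂ, StarP I σ) :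
    IsIrreducible (surfT I u v w a b c d) ∧ IsClosed (surfT I u v w a b c d) ∧
      dimT (surfT I u v w a b c d) = 2 ∧
      ∃ C : ℝ, ∀ P : Tor, IsMaxPoint (surfT I u v w a b c d) P → hgt P ≤ C := by
  have H : Hyp I u v w := ⟨hI, hu, hv, fun q h1 h2 h3 h4 =>
    hcop (tt q) (fun l => co_ne q _) h1 h2 h3 h4⟩
  exact ⟨surfT_irr H hw a b c d hdet, surfT_closed I u v w a b c d, surfT_dim H hw a b c d hdet,
    heightT I hI u v w a b c d hdet hcop hstar (surfT_dim H hw a b c d hdet)⟩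

end Pool.Agent.Work.MP_7da6af_nt.Crv
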