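import Pool.Agent.Work.MP_7da6af_nt.Crv.Lit
import Pool.Agent.Work.MP_7da6af_nt.Crv.Tri
import Pool.Agent.Work.MP_7da6af_nt.PlaneComp

/-! # Surfaces with trinomial fibres: closedness and the conditions at a maximal point -/

set_option autoImplicit false

namespace Pool.Agent.Work.MP_7da6af_nt.Crv

open Pool.Agent.Work.MP_7da6af_nt Anom
open TopologicalSpace

/-- the points `(x, z, t)` with `t` on the curve of `I` and
`u(t) x ^ a z ^ b + v(t) x ^ c z ^ d = w(t)` -/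
def surfT (I : Ideal (P3 Om)) (u v w : P3 Om) (a b c d : ℤ) : Set Tor :=
  {q | (∀ f ∈ I, MvPolynomial.eval (tt q) f = 0) ∧
    MvPolynomial.eval (tt q) u * (q.co 0 ^ a * q.co 1 ^ b) +
      MvPolynomial.eval (tt q) v * (q.co 0 ^ c * q.co 1 ^ d) = MvPolynomial.eval (tt q) w}

/-- multiplication of a trinomial by a monomial -/
theorem clear_den (x z : Om) (hx : x ≠ 0) (hz : z ≠ 0) (U V W : Om) (a b c d : ℤ) :
    U * (x ^ (a + ((-a).toNat + (-c).toNat)).toNat * z ^ (b + ((-b).toNat + (-d).toNat)).toNat) +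
      V * (x ^ (c + ((-a).toNat + (-c).toNat)).toNat *
        z ^ (d + ((-b).toNat + (-d).toNat)).toNat) =
      W * (x ^ ((-a).toNat + (-c).toNat) * z ^ ((-b).toNat + (-d).toNat)) ↔
    U * (x ^ a * z ^ b) + V * (x ^ c * z ^ d) = W := by
  have h1 : ∀ (y : Om), y ≠ 0 → ∀ (e : ℤ) (n : ℕ), 0 ≤ e + n →
      y ^ (e + n).toNat = y ^ e * y ^ n := by
    intro y hy e n hn
    rw [← zpow_natCast, Int.toNat_of_nonneg hn, zpow_add₀ hy, zpow_natCast]
  rw [show (((-a).toNat : ℤ) + ((-c).toNat : ℤ)) = (((-a).toNat + (-c).toNat : ℕ) : ℤ) by push_cast; ring,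
    show (((-b).toNat : ℤ) + ((-d).toNat : ℤ)) = (((-b).toNat + (-d).toNat : ℕ) : ℤ) by push_cast; ring]
  rw [h1 x hx a _ (by push_cast; omega), h1 x hx c _ (by push_cast; omega),
    h1 z hz b _ (by push_cast; omega), h1 z hz d _ (by push_cast; omega)]
  have hm : x ^ ((-a).toNat + (-c).toNat) * z ^ ((-b).toNat + (-d).toNat) ≠ 0 :=
    mul_ne_zero (pow_ne_zero _ hx) (pow_ne_zero _ hz)
  constructor
  · intro h
    apply mul_right_cancel₀ hm
    rw [← h]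
    ring
  · intro h
    rw [← h]
    ring

theorem surfT_closed (I : Ideal (P3 Om)) (u v w : P3 Om) (a b c d : ℤ) :
    IsClosed (surfT I u v w a b c d) := by
  rw [isClosed_iff]
  refine ⟨(up '' I) ∪ {up u * (MvPolynomial.X 0 ^ (a + ((-a).toNat + (-c).toNat)).toNat *
      MvPolynomial.X 1 ^ (b + ((-b).toNat + (-d).toNat)).toNat) +
    up v * (MvPolynomial.X 0 ^ (c + ((-a).toNat + (-c).toNat)).toNat *
      MvPolynomial.X 1 ^ (d + ((-b).toNat + (-d).toNat)).toNat) -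
    up w * (MvPolynomial.X 0 ^ ((-a).toNat + (-c).toNat) *
      MvPolynomial.X 1 ^ ((-b).toNat + (-d).toNat))}, ?_⟩
  ext q
  simp only [zLoc, surfT, Set.mem_ofPred_eq, Set.mem_union, or_imp, forall_and,
    Set.forall_mem_image, Set.mem_singleton_iff, forall_eq, map_sub, map_add, map_mul, map_pow,
    MvPolynomial.eval_X, eval_up, sub_eq_zero, SetLike.mem_coe]
  rw [clear_den _ _ (co_ne q 0) (co_ne q 1)]

/-- a sublattice of the relations with proportional first two coordinates -/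
theorem sub_lattice (P : Tor) (h : 3 ≤ Module.finrank ℤ (rel P)) (α β : ℤ)
    (hαβ : ¬ (α = 0 ∧ β = 0)) : ∃ Λ : Submodule ℤ (Fin 5 → ℤ), Λ ≤ rel P ∧
      2 ≤ Module.finrank ℤ Λ ∧ ∀ m ∈ Λ, ∃ j : ℤ, m 0 = j * α ∧ m 1 = j * β := by
  let e : (Fin 5 → ℤ) →ₗ[ℤ] ℤ := β • LinearMap.proj (R := ℤ) (φ := fun _ : Fin 5 => ℤ) 0 -
    α • LinearMap.proj (R := ℤ) (φ := fun _ : Fin 5 => ℤ) 1
  have he : ∀ m : Fin 5 → ℤ, e m = β * m 0 - α * m 1 := fun m => rfl
  have h1 := rank_ker (rel P) e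
  obtain ⟨N, hN, hN'⟩ : ∃ N : ℤ, N ≠ 0 ∧ ∀ m : Fin 5 → ℤ, e m = 0 →
      ∃ j : ℤ, N * m 0 = j * α ∧ N * m 1 = j * β := by
    by_cases hα : α = 0
    · have hβ : β ≠ 0 := fun hβ => hαβ ⟨hα, hβ⟩
      refine ⟨β, hβ, fun m hm => ⟨m 1, ?_, by ring⟩⟩
      rw [he, hα] at hm
      rw [hα]
      linarith
    · refine ⟨α, hα, fun m hm => ⟨m 0, by ring, ?_⟩⟩
      rw [he] at hm
      linarith
  refine ⟨(rel P ⊓ LinearMap.ker e).map (N • LinearMap.id), ?_, ?_, ?_⟩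
  · rintro _ ⟨m, ⟨hm, -⟩, rfl⟩
    exact (rel P).smul_mem N hm
  · have h2 : Function.Injective (N • (LinearMap.id : (Fin 5 → ℤ) →ₗ[ℤ] (Fin 5 → ℤ))) := by
      intro x y hxy
      have h3 : N • x = N • y := hxy
      funext i
      have h4 := congrFun h3 i
      simp only [Pi.smul_apply, smul_eq_mul] at h4
      exact mul_left_cancel₀ hN h4
    rw [← (Submodule.equivMapOfInjective _ h2 (rel P ⊓ LinearMap.ker e)).finrank_eq]
    omega
  · rintro _ ⟨m, ⟨-, hm⟩, rfl⟩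
    exact hN' m hm

/-- a positive dimensional irreducible closed part of the fibre through a point of the surface -/
theorem exists_fibT {I : Ideal (P3 Om)} {u v w : P3 Om} {a b c d : ℤ} {P : Tor}
    (hP : P ∈ surfT I u v w a b c d) : ∃ Z : Set Tor, IsIrreducible Z ∧ IsClosed Z ∧ P ∈ Z ∧
      Z ≠ {P} ∧ Z ⊆ surfT I u v w a b c d ∧ ∀ q ∈ Z, tt q = tt P := by
  set U := MvPolynomial.eval (tt P) u with hU
  set V := MvPolynomial.eval (tt P) v with hV
  set W := MvPolynomial.eval (tt P) w with hW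
  let f : MvPolynomial (Fin 2) Om :=
    MvPolynomial.C U * (MvPolynomial.X 0 ^ (a + ((-a).toNat + (-c).toNat)).toNat *
      MvPolynomial.X 1 ^ (b + ((-b).toNat + (-d).toNat)).toNat) +
    MvPolynomial.C V * (MvPolynomial.X 0 ^ (c + ((-a).toNat + (-c).toNat)).toNat *
      MvPolynomial.X 1 ^ (d + ((-b).toNat + (-d).toNat)).toNat) -
    MvPolynomial.C W * (MvPolynomial.X 0 ^ ((-a).toNat + (-c).toNat) *
      MvPolynomial.X 1 ^ ((-b).toNat + (-d).toNat))
  have hf : ∀ q : Tor, MvPolynomial.eval ![q.co 0, q.co 1] f = 0 ↔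
      U * (q.co 0 ^ a * q.co 1 ^ b) + V * (q.co 0 ^ c * q.co 1 ^ d) = W := by
    intro q
    rw [← clear_den _ _ (co_ne q 0) (co_ne q 1)]
    simp only [f, map_sub, map_add, map_mul, map_pow, MvPolynomial.eval_X, MvPolynomial.eval_C]
    rw [sub_eq_zero]
    rfl
  obtain ⟨Z, h1, h2, h3, h4, h5⟩ := plane_comp P f ((hf P).mpr hP.2)
  refine ⟨Z, h1, h2, h3, h4, fun q hq => ?_, fun q hq => funext (h5 q hq).1⟩
  have h6 : tt q = tt P := funext (h5 q hq).1
  refine ⟨?_, ?_⟩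
  · rw [h6]
    exact hP.1
  · rw [h6]
    exact (hf q).mp (h5 q hq).2

/-- the conditions of the main theorem hold at a maximal point -/
theorem conditionsT {I : Ideal (P3 Om)} {u v w : P3 Om} {a b c d : ℤ} (hdet : a * d - b * c ≠ 0)
    (hcop : ∀ t : Fin 3 → Om, (∀ l, t l ≠ 0) → (∀ f ∈ I, MvPolynomial.eval t f = 0) →
      MvPolynomial.eval t u = 0 → MvPolynomial.eval t v = 0 → MvPolynomial.eval t w ≠ 0)
    (hdim : dimT (surfT I u v w a b c d) = 2) {P : Tor}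
    (hmax : IsMaxPoint (surfT I u v w a b c d) P) :
    MvPolynomial.eval (tt P) u ≠ 0 ∧ MvPolynomial.eval (tt P) v ≠ 0 ∧
      MvPolynomial.eval (tt P) w ≠ 0 ∧
      (∃ M : Fin 3 → Fin 5 → ℤ, LinearIndependent ℤ M ∧ ∀ i, P.chr (M i) = 1) ∧
      ¬ ∃ N : Fin 2 → Fin 3 → ℤ, LinearIndependent ℤ N ∧
        ∀ i, ∏ j : Fin 3, P.co (Fin.natAdd 2 j) ^ N i j = 1 := by
  obtain ⟨hPV, hrk⟩ := max_rank hdim hmax
  obtain ⟨Z, hZi, hZc, hPZ, hZne, hZV, hZt⟩ := exists_fibT hPV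
  have hno : ∀ Λ : Submodule ℤ (Fin 5 → ℤ), 2 ≤ Module.finrank ℤ Λ →
      ¬ ∀ q ∈ Z, ∀ m ∈ Λ, q.chr m = 1 := fun Λ hr hsub =>
    no_lattice (surfT_closed I u v w a b c d) hdim hmax hZi hZc hPZ hZne hZV Λ hr hsub
  -- no monomial is constant on the fibre
  have hconst : ∀ α β : ℤ, ¬ (α = 0 ∧ β = 0) →
      ¬ ∀ q ∈ Z, q.co 0 ^ α * q.co 1 ^ β = P.co 0 ^ α * P.co 1 ^ β := by
    intro α β hαβ hq
    obtain ⟨Λ, hΛ1, hΛ2, hΛ3⟩ := sub_lattice P hrk α β hαβ
    refine hno Λ hΛ2 fun q hqZ m hm => ?_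
    refine chr_fib3 (hZt q hqZ) m (hΛ1 hm) ?_
    obtain ⟨j, hj0, hj1⟩ := hΛ3 m hm
    rw [hj0, hj1, mul_comm j α, mul_comm j β, zpow_mul, zpow_mul, zpow_mul, zpow_mul, ← mul_zpow,
      ← mul_zpow, hq q hqZ]
  have heq : ∀ q ∈ Z, MvPolynomial.eval (tt P) u * (q.co 0 ^ a * q.co 1 ^ b) +
      MvPolynomial.eval (tt P) v * (q.co 0 ^ c * q.co 1 ^ d) = MvPolynomial.eval (tt P) w := by
    intro q hq
    rw [← hZt q hq]
    exact (hZV hq).2
  have hco : ∀ (q : Tor) (i : Fin 5) (e : ℤ), q.co i ^ e ≠ 0 := fun q i e =>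
    zpow_ne_zero e (co_ne q i)
  have hcp := hcop (tt P) (fun l => co_ne P _) hPV.1
  have hu : MvPolynomial.eval (tt P) u ≠ 0 := by
    intro hu0
    have hv0 : MvPolynomial.eval (tt P) v ≠ 0 := by
      intro hv0
      have h1 := heq P hPZ
      rw [hu0, hv0, zero_mul, zero_mul, add_zero] at h1
      exact hcp hu0 hv0 h1.symm
    refine hconst c d (fun h => hdet (by rw [h.1, h.2]; ring)) fun q hq => ?_
    have h1 := heq P hPZ
    have h2 := heq q hq
    rw [hu0, zero_mul, zero_add] at h1 h2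
    exact mul_left_cancel₀ hv0 (h2.trans h1.symm)
  have hv : MvPolynomial.eval (tt P) v ≠ 0 := by
    intro hv0
    refine hconst a b (fun h => hdet (by rw [h.1, h.2]; ring)) fun q hq => ?_
    have h1 := heq P hPZ
    have h2 := heq q hq
    rw [hv0, zero_mul, add_zero] at h1 h2
    exact mul_left_cancel₀ hu (h2.trans h1.symm)
  refine ⟨hu, hv, ?_, ?_, ?_⟩
  · intro hw0
    refine hconst (a - c) (b - d) ?_ fun q hq => ?_
    · rintro ⟨h1, h2⟩
      apply hdet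
      have h3 : a = c := by omega
      have h4 : b = d := by omega
      rw [h3, h4]
      ring
    · have h1 := heq P hPZ
      have h2 := heq q hq
      rw [hw0] at h1 h2
      have key : ∀ p : Tor, MvPolynomial.eval (tt P) u * (p.co 0 ^ a * p.co 1 ^ b) +
          MvPolynomial.eval (tt P) v * (p.co 0 ^ c * p.co 1 ^ d) = 0 →
          p.co 0 ^ (a - c) * p.co 1 ^ (b - d) =
            - MvPolynomial.eval (tt P) v / MvPolynomial.eval (tt P) u := by
        intro p hp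
        rw [zpow_sub₀ (co_ne p 0), zpow_sub₀ (co_ne p 1), div_mul_div_comm,
          div_eq_div_iff (mul_ne_zero (hco p 0 c) (hco p 1 d)) hu]
        linear_combination hp
      rw [key q h2, key P h1]
  · obtain ⟨M, hM1, hM2⟩ := exists_indep (rel P) 3 hrk
    exact ⟨M, hM1, hM2⟩
  · rintro ⟨N, hN1, hN2⟩
    obtain ⟨Λ, hΛ1, hΛ2, hΛ3⟩ := rank_of_two P N hN1 hN2
    refine hno Λ hΛ3 ?_
    intro q hq m hm
    refine chr_fib3 (hZt q hq) m (hΛ1 hm) ?_
    rw [(hΛ2 m hm).1, (hΛ2 m hm).2, zpow_zero, zpow_zero, zpow_zero, zpow_zero]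

/-- bounded height of the maximal points, for surfaces with trinomial fibres of dimension two -/
theorem heightT (I : Ideal (P3 Om)) (hI : IsCurve I) (u v w : P3 Om) (a b c d : ℤ)
    (hdet : a * d - b * c ≠ 0)
    (hcop : ∀ t : Fin 3 → Om, (∀ l, t l ≠ 0) → (∀ f ∈ I, MvPolynomial.eval t f = 0) →
      MvPolynomial.eval t u = 0 → MvPolynomial.eval t v = 0 → MvPolynomial.eval t w ≠ 0)
    (hstar : ∀ σ : Om →+* ℂ, StarP I σ) (hdim : dimT (surfT I u v w a b c d) = 2) :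
    ∃ C : ℝ, ∀ P : Tor, IsMaxPoint (surfT I u v w a b c d) P → hgt P ≤ C := by
  classical
  obtain ⟨k, _, _, ι, I₀, hI₀, hII, hU⟩ := descent I hI {u, v, w}
  obtain ⟨u₀, hu₀⟩ := hU u (by simp)
  obtain ⟨v₀, hv₀⟩ := hU v (by simp)
  obtain ⟨w₀, hw₀⟩ := hU w (by simp)
  have hstar₀ : ∀ σ : k →+* ℂ, StarP I₀ σ := by
    intro σ₀ d hd S
    obtain ⟨σ, hσ⟩ := exists_ext ι σ₀
    refine (hstar σ d hd S).subset ?_
    rintro t ⟨⟨h1, h2⟩, h3⟩
    refine ⟨⟨h1, ?_⟩, h3⟩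
    rw [hII]
    intro f hf
    exact zero_map ι σ t I₀ (fun g hg => by rw [hσ]; exact h2 g hg) f hf
  obtain ⟨C, hC⟩ := final_tri I₀ (rels_of_curve I₀ hI₀) u₀ v₀ w₀ a b c d hdet hstar₀
  refine ⟨5 * C, fun P hP => ?_⟩
  have hPV := (max_rank hdim hP).1
  obtain ⟨hu1, hv1, hw1, ⟨M, hM1, hM2⟩, hN⟩ := conditionsT hdet hcop hdim hP
  obtain ⟨K, _, _, φ, j, x', hφ, hx'⟩ := exists_field' ι P.co
  have hj : Function.Injective j := j.injective
  have hx0 : ∀ i, x' i ≠ 0 := fun i h0 => co_ne P i (by rw [← hx', h0, map_zero])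
  set t : Fin 3 → K := fun l => x' (Fin.natAdd 2 l) with ht
  have htj : ∀ l, j (t l) = P.co (Fin.natAdd 2 l) := fun l => hx' _
  have hev : ∀ f : P3 k, j (e3 φ t f) = MvPolynomial.eval (tt P) (MvPolynomial.map ι f) := by
    intro f
    rw [← e3_comp', hφ]
    have : (fun l => j (t l)) = tt P := funext htj
    rw [this, MvPolynomial.eval_map]
    rfl
  have hne : ∀ f : P3 k, MvPolynomial.eval (tt P) (MvPolynomial.map ι f) ≠ 0 → e3 φ t f ≠ 0 := by
    intro f hf h0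
    apply hf
    rw [← hev, h0, map_zero]
  obtain ⟨b1, b2, b3⟩ := hC K φ (x' 0) (x' 1) t (hx0 0) (hx0 1)
    ⟨fun l => hx0 _, fun f hf => by
      apply hj
      rw [hev, map_zero]
      apply hPV.1
      rw [hII]
      exact Ideal.mem_map_of_mem _ hf⟩
    (hne u₀ (by rw [hu₀]; exact hu1)) (hne v₀ (by rw [hv₀]; exact hv1))
    (hne w₀ (by rw [hw₀]; exact hw1))
    (by
      apply hj
      rw [map_add, map_mul, map_mul, map_mul, map_mul, map_zpow₀, map_zpow₀, map_zpow₀, map_zpow₀,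
        hev, hev, hev, hu₀, hv₀, hw₀, hx', hx']
      exact hPV.2)
    ⟨M, hM1, fun l => by
      apply hj
      rw [map_one, map_mul, map_mul, map_zpow₀, map_zpow₀, map_prod, hx', hx']
      simp only [map_zpow₀, htj]
      rw [← chr_split, hM2 l]
      rfl⟩
    (by
      rintro ⟨N, hN1, hN2⟩
      refine hN ⟨N, hN1, fun l => ?_⟩
      have := congrArg j (hN2 l)
      rw [map_prod, map_one] at this
      simp only [map_zpow₀, htj] at this
      exact this)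
  have hd : 0 < dg K := dg_pos
  have hb : ∀ a : K, a ≠ 0 → hh a ≤ C * dg K → NumberField.absLogHeight₁ (j a) ≤ C := by
    intro a ha hab
    rw [absLogHeight_map j a ha, div_le_iff₀ hd]
    exact hab
  have h0 := hb _ (hx0 0) b1
  have h1 := hb _ (hx0 1) b2
  have h2 : ∀ l : Fin 3, NumberField.absLogHeight₁ (P.co (Fin.natAdd 2 l)) ≤ C := by
    intro l
    rw [← htj l]
    exact hb _ (hx0 _) (b3 l)
  rw [hx'] at h0 h1
  unfold hgt
  rw [Fin.sum_univ_five]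
  have c2 := h2 0
  have c3 := h2 1
  have c4 := h2 2
  have e2 : P.co (Fin.natAdd 2 (0 : Fin 3)) = P.co 2 := rfl
  have e3 : P.co (Fin.natAdd 2 (1 : Fin 3)) = P.co 3 := rfl
  have e4 : P.co (Fin.natAdd 2 (2 : Fin 3)) = P.co 4 := rfl
  rw [e2] at c2
  rw [e3] at c3
  rw [e4] at c4
  linarith

end Pool.Agent.Work.MP_7da6af_nt.Crv
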